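import Pool.Agent.Run7.h849.SC.Cy

/-!
# Products of hyperbolic sines which agree to a high order
-/

set_option autoImplicit false

namespace Run7.h849.SC

open PowerSeries

noncomputable section

theorem bernoulli_ne (i : ℕ) : bernoulli (2 * i) ≠ 0 := by
  rcases Nat.eq_zero_or_pos i with rfl | hi
  · simp
  · intro h
    have h1 := hasSum_zeta_nat (k := i) (by omega)
    rw [h] at h1
    simp only [Rat.cast_zero, mul_zero, zero_div] at h1
    have h2 := h1.tsum_eq
    have h3 : (0 : ℝ) < ∑' n : ℕ, 1 / (n : ℝ) ^ (2 * i) :=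
      h1.summable.tsum_pos (fun n => by positivity) 1 (by simp)
    rw [h2] at h3
    exact lt_irrefl _ h3

/-- `2 sinh (a h)` -/
def Sp (a : ℕ) : ℚ⟦X⟧ := EE a - EE (-a)

theorem Sp_form {a : ℕ} (ha : 1 ≤ a) : ∃ u : ℚ⟦X⟧, Sp a = X * u ∧ constantCoeff u ≠ 0 := by
  have h1 : (X : ℚ⟦X⟧) ∣ Sp a := by
    rw [PowerSeries.X_dvd_iff, ← PowerSeries.coeff_zero_eq_constantCoeff_apply, Sp, map_sub,
      coeff_EE, coeff_EE]
    simp
  obtain ⟨u, hu⟩ := h1
  refine ⟨u, hu, ?_⟩
  have h2 : coeff 1 (Sp a) = 2 * a := by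
    rw [Sp, map_sub, coeff_EE, coeff_EE]
    push_cast
    simp
    ring
  have h3 : coeff 1 (Sp a) = constantCoeff u := by
    rw [hu, show (1 : ℕ) = 0 + 1 from rfl, coeff_succ_X_mul]
    simp
  rw [← h3, h2]
  have : (0 : ℚ) < a := by exact_mod_cast ha
  positivity

theorem Sp_prod {l : List ℕ} (h : ∀ m ∈ l, 1 ≤ m) :
    ∃ u : ℚ⟦X⟧, (l.map Sp).prod = X ^ l.length * u ∧ constantCoeff u ≠ 0 := by
  induction l with
  | nil => exact ⟨1, by simp, by simp⟩
  | cons m l ih =>
    obtain ⟨u, h1, h2⟩ := ih fun k hk => h k (List.mem_cons_of_mem _ hk)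
    obtain ⟨v, h3, h4⟩ := Sp_form (h m List.mem_cons_self)
    refine ⟨v * u, ?_, ?_⟩
    · rw [List.map_cons, List.prod_cons, h1, h3, List.length_cons]
      ring
    · rw [map_mul]
      exact mul_ne_zero h4 h2

theorem der_EE (n : ℤ) : derivative ℚ (EE n) = C (n : ℚ) * EE n := by
  ext k
  rw [coeff_derivative, coeff_C_mul, coeff_EE, coeff_EE, Nat.factorial_succ]
  have h1 : ((k : ℚ) + 1) ≠ 0 := by positivity
  have h2 : (k.factorial : ℚ) ≠ 0 := by exact_mod_cast k.factorial_ne_zero
  push_cast
  field_simp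
  ring

/-- the logarithmic derivative of `2 sinh (a h)`, times `h` -/
def bt (a : ℕ) : ℚ⟦X⟧ := rescale (2 * a : ℚ) (bernoulliPowerSeries ℚ) + C (a : ℚ) * X

theorem X_der_Sp (a : ℕ) : X * derivative ℚ (Sp a) = Sp a * bt a := by
  have h1 : rescale (2 * a : ℚ) (bernoulliPowerSeries ℚ) * (EE a * EE a - 1) =
      C (2 * a : ℚ) * X := by
    have h2 := congrArg (rescale (2 * a : ℚ)) (bernoulliPowerSeries_mul_exp_sub_one ℚ)
    rw [map_mul, map_sub, map_one, rescale_X] at h2
    rw [← h2, ← EE_add, EE]
    congr 3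
    push_cast
    ring_nf
  have h2 : EE a * EE (-a) = 1 := by rw [← EE_add, add_neg_cancel, EE_zero]
  have h3 : derivative ℚ (Sp a) = C (a : ℚ) * EE a + C (a : ℚ) * EE (-a) := by
    rw [Sp, map_sub, der_EE, der_EE]
    push_cast
    rw [map_neg]
    ring
  have h4 : (C (2 * a : ℚ) : ℚ⟦X⟧) = 2 * C (a : ℚ) := by
    rw [map_mul]
    congr 1
  rw [h3, bt, Sp]
  rw [h4] at h1
  linear_combination (-(EE (-a))) * h1 + (rescale (2 * a : ℚ) (bernoulliPowerSeries ℚ) * EE a) * h2

theorem X_der_prod (l : List ℕ) :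
    X * derivative ℚ (l.map Sp).prod = (l.map Sp).prod * (l.map bt).sum := by
  induction l with
  | nil => simp
  | cons m l ih =>
    rw [List.map_cons, List.prod_cons, List.map_cons, List.sum_cons, Derivation.leibniz,
      smul_eq_mul, smul_eq_mul]
    have := X_der_Sp m
    linear_combination (Sp m) * ih + ((l.map Sp).prod) * this

theorem X_der_dvd {f : ℚ⟦X⟧} {K : ℕ} (h : X ^ K ∣ f) : X ^ K ∣ X * derivative ℚ f := by
  rw [PowerSeries.X_pow_dvd_iff] at h ⊢
  intro m hm
  cases m with
  | zero => simp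
  | succ m => rw [coeff_succ_X_mul, coeff_derivative, h _ hm, zero_mul]

theorem bt_close {l l' : List ℕ} (h : ∀ m ∈ l, 1 ≤ m) {c : ℚ} {K : ℕ} (hK : l.length ≤ K)
    (e : X ^ K ∣ (l.map Sp).prod - C c * (l'.map Sp).prod) :
    X ^ (K - l.length) ∣ (l.map bt).sum - (l'.map bt).sum := by
  have h1 := X_der_dvd e
  rw [map_sub, mul_sub, X_der_prod, Derivation.leibniz, smul_eq_mul, smul_eq_mul, derivative_C,
    mul_zero, add_zero] at h1
  have h2 := X_der_prod l'
  have h3 : X ^ K ∣ (l.map Sp).prod * ((l.map bt).sum - (l'.map bt).sum) := by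
    have h4 := dvd_sub h1 (e.mul_right (l'.map bt).sum)
    have h5 : (l.map Sp).prod * (l.map bt).sum -
        X * (C c * derivative ℚ (l'.map Sp).prod) -
        ((l.map Sp).prod - C c * (l'.map Sp).prod) * (l'.map bt).sum =
        (l.map Sp).prod * ((l.map bt).sum - (l'.map bt).sum) := by
      linear_combination (-C c) * h2
    rwa [h5] at h4
  obtain ⟨u, hu, hu0⟩ := Sp_prod h
  rw [hu] at h3
  obtain ⟨v, hv⟩ := isUnit_iff_constantCoeff.2 (IsUnit.mk0 _ hu0)
  have h6 : X ^ K = (X : ℚ⟦X⟧) ^ l.length * X ^ (K - l.length) := by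
    rw [← pow_add]
    congr 1
    omega
  rw [h6, mul_assoc] at h3
  have h7 := (mul_dvd_mul_iff_left (pow_ne_zero _ PowerSeries.X_ne_zero)).1 h3
  rw [← hv] at h7
  exact (Units.dvd_mul_left (u := v)).1 h7

theorem coeff_bt (a i : ℕ) : coeff (2 * i) (bt a) =
    (bernoulli (2 * i) * 4 ^ i / ((2 * i).factorial : ℚ)) * ((a : ℚ) ^ 2) ^ i := by
  rw [bt, map_add, coeff_rescale, bernoulliPowerSeries, coeff_mk, coeff_C_mul, coeff_X,
    if_neg (by omega), mul_zero, add_zero, mul_pow, pow_mul, pow_mul]
  norm_num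
  ring

theorem coeff_bt_sum (l : List ℕ) (i : ℕ) : coeff (2 * i) (l.map bt).sum =
    (bernoulli (2 * i) * 4 ^ i / ((2 * i).factorial : ℚ)) *
      (l.map fun a : ℕ => ((a : ℚ) ^ 2) ^ i).sum := by
  induction l with
  | nil => simp
  | cons m l ih =>
    rw [List.map_cons, List.sum_cons, map_add, ih, coeff_bt, List.map_cons, List.sum_cons]
    ring

/-- power sums of the squares determine a list -/
theorem perm_of_sums {l l' : List ℕ} (e : ∀ i < l.length + l'.length,
    (l.map fun a : ℕ => ((a : ℚ) ^ 2) ^ i).sum = (l'.map fun a : ℕ => ((a : ℚ) ^ 2) ^ i).sum) :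
    l.Perm l' := by
  classical
  set U := l.toFinset ∪ l'.toFinset with hU
  have hsum : ∀ (l0 : List ℕ), l0.toFinset ⊆ U → ∀ f : ℕ → ℚ,
      (l0.map f).sum = ∑ a ∈ U, (l0.count a : ℚ) * f a := by
    intro l0 h0 f
    rw [Finset.sum_list_map_count]
    rw [Finset.sum_subset h0]
    · refine Finset.sum_congr rfl fun a _ => ?_
      rw [nsmul_eq_mul]
    · intro a _ ha
      rw [List.count_eq_zero.2 (fun h => ha (List.mem_toFinset.2 h)), zero_nsmul]
  have hinj : ∀ a b : ℕ, ((a : ℤ) ^ 2) = ((b : ℤ) ^ 2) → a = b := by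
    intro a b hab
    have : (a ^ 2 : ℕ) = b ^ 2 := by exact_mod_cast hab
    exact Nat.pow_left_injective (by norm_num : 2 ≠ 0) this
  have hs : ∀ a : ℕ, Nat.sqrt (((a : ℤ) ^ 2).toNat) = a := by
    intro a
    have : ((a : ℤ) ^ 2).toNat = a * a := by
      rw [show ((a : ℤ) ^ 2) = ((a * a : ℕ) : ℤ) by push_cast; ring, Int.toNat_natCast]
    rw [this, Nat.sqrt_eq]
  have hcard : (U.image fun a : ℕ => ((a : ℤ) ^ 2)).card ≤ l.length + l'.length :=
    Finset.card_image_le.trans ((Finset.card_union_le _ _).trans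
      (add_le_add (List.toFinset_card_le l) (List.toFinset_card_le l')))
  have hv := vander (U.image fun a : ℕ => ((a : ℤ) ^ 2))
    (fun n => (l.count (Nat.sqrt n.toNat) : ℚ) - l'.count (Nat.sqrt n.toNat)) (fun k hk => by
      rw [Finset.sum_image fun a _ b _ hab => hinj a b hab]
      have h1 := e k (by omega)
      rw [hsum l Finset.subset_union_left, hsum l' Finset.subset_union_right] at h1
      rw [← sub_eq_zero, ← Finset.sum_sub_distrib] at h1
      rw [← h1]
      refine Finset.sum_congr rfl fun a _ => ?_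
      rw [hs a]
      push_cast
      ring)
  rw [List.perm_iff_count]
  intro a
  by_cases ha : a ∈ U
  · have := hv _ (Finset.mem_image_of_mem _ ha)
    rw [hs a, sub_eq_zero] at this
    exact_mod_cast this
  · rw [hU, Finset.mem_union, not_or, List.mem_toFinset, List.mem_toFinset] at ha
    rw [List.count_eq_zero.2 ha.1, List.count_eq_zero.2 ha.2]

/-- Two products of hyperbolic sines which agree to a high order are equal. -/
theorem perm_of_close {l l' : List ℕ} (h : ∀ m ∈ l, 1 ≤ m) {c : ℚ} {K : ℕ}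
    (hK : 5 * l.length + 1 ≤ K) (e : X ^ K ∣ (l.map Sp).prod - C c * (l'.map Sp).prod) :
    l.Perm l' := by
  have h1 := bt_close h (by omega) e
  rw [PowerSeries.X_pow_dvd_iff] at h1
  have h2 : ∀ i : ℕ, 2 * i < K - l.length →
      (l.map fun a : ℕ => ((a : ℚ) ^ 2) ^ i).sum = (l'.map fun a : ℕ => ((a : ℚ) ^ 2) ^ i).sum := by
    intro i hi
    have h3 := h1 _ hi
    rw [map_sub, coeff_bt_sum, coeff_bt_sum, ← mul_sub] at h3
    rcases mul_eq_zero.1 h3 with h4 | h4
    · exfalso
      have h5 : ((2 * i).factorial : ℚ) ≠ 0 := by exact_mod_cast (2 * i).factorial_ne_zero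
      have h6 := bernoulli_ne i
      have h7 : (4 : ℚ) ^ i ≠ 0 := by positivity
      exact (div_ne_zero (mul_ne_zero h6 h7) h5) h4
    · exact sub_eq_zero.1 h4
  have hlen : l.length = l'.length := by
    have := h2 0 (by omega)
    simp only [pow_zero, List.map_const', List.sum_replicate, nsmul_eq_mul, mul_one] at this
    exact_mod_cast this
  exact perm_of_sums fun i hi => h2 i (by omega)

/-! ### sines and cosines -/

/-- `2 sinh (m h)` for even `m`, and `2 cosh (m h)` for odd `m` -/
def fp (m : ℕ) : ℚ⟦X⟧ := EE m - (-1) ^ m * EE (-m)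

theorem fp_Sp (m : ℕ) : fp m * (if m % 2 = 1 then Sp m else 1) =
    Sp (if m % 2 = 1 then 2 * m else m) := by
  split_ifs with h
  · have h1 : (-1 : ℚ⟦X⟧) ^ m = -1 := Odd.neg_one_pow (Nat.odd_iff.2 h)
    have e1 : EE ((2 * m : ℕ) : ℤ) = EE m * EE m := by
      rw [← EE_add]
      congr 1
      push_cast
      ring
    have e2 : EE (-((2 * m : ℕ) : ℤ)) = EE (-m) * EE (-m) := by
      rw [← EE_add]
      congr 1
      push_cast
      ring
    rw [fp, h1, Sp, Sp, e1, e2]
    ring
  · have h1 : (-1 : ℚ⟦X⟧) ^ m = 1 := Even.neg_one_pow (Nat.even_iff.2 (by omega))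
    rw [fp, h1, Sp]
    ring

/-- twice the odd numbers -/
def tw2 (m : ℕ) : ℕ := if m % 2 = 1 then 2 * m else m

theorem fp_prod (l : List ℕ) : (l.map fp).prod * ((l.filter fun m => m % 2 = 1).map Sp).prod =
    ((l.map tw2).map Sp).prod := by
  induction l with
  | nil => simp
  | cons m l ih =>
    have h1 := fp_Sp m
    rw [List.map_cons, List.prod_cons, List.map_cons, List.map_cons, List.prod_cons, ← ih, tw2,
      ← h1, List.filter_cons]
    by_cases h : m % 2 = 1
    · simp only [h, decide_true, if_true, List.map_cons, List.prod_cons]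
      ring
    · simp only [h, decide_false, if_false, Bool.false_eq_true]
      ring

theorem count_tw2 (l : List ℕ) (y : ℕ) : (l.map tw2).count y =
    if y % 2 = 1 then 0 else l.count y + (if y / 2 % 2 = 1 then l.count (y / 2) else 0) := by
  induction l with
  | nil => simp
  | cons m l ih =>
    rw [List.map_cons, List.count_cons, ih, List.count_cons, List.count_cons]
    by_cases hy : y % 2 = 1
    · rw [if_pos hy, if_neg, if_pos hy]
      rw [beq_iff_eq, tw2]
      split_ifs <;> omega
    · rw [if_neg hy, if_neg hy]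
      by_cases hm : m % 2 = 1
      · have e1 : tw2 m = 2 * m := if_pos hm
        have e2 : (if (m == y) = true then 1 else 0) = 0 := if_neg (by rw [beq_iff_eq]; omega)
        rw [e1, e2]
        by_cases hy2 : y / 2 % 2 = 1
        · rw [if_pos hy2, if_pos hy2]
          have e3 : (if (2 * m == y) = true then 1 else 0) =
              (if (m == y / 2) = true then 1 else 0) := by
            by_cases h3 : m = y / 2
            · rw [if_pos (by rw [beq_iff_eq]; omega), if_pos (by rw [beq_iff_eq]; exact h3)]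
            · rw [if_neg (by rw [beq_iff_eq]; omega), if_neg (by rw [beq_iff_eq]; exact h3)]
          rw [e3]
          ring
        · rw [if_neg hy2, if_neg hy2, if_neg (by rw [beq_iff_eq]; omega)]
      · have e1 : tw2 m = m := if_neg hm
        rw [e1]
        by_cases hy2 : y / 2 % 2 = 1
        · rw [if_pos hy2, if_pos hy2]
          have e3 : (if (m == y / 2) = true then 1 else 0) = 0 :=
            if_neg (by rw [beq_iff_eq]; omega)
          rw [e3]
          ring
        · rw [if_neg hy2, if_neg hy2]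
          ring

theorem count_odd (l : List ℕ) (y : ℕ) : (l.filter fun m => m % 2 = 1).count y =
    if y % 2 = 1 then l.count y else 0 := by
  split_ifs with h
  · exact List.count_filter (by simpa using h)
  · rw [List.count_eq_zero]
    intro hm
    have := (List.mem_filter.1 hm).2
    exact h (by simpa using this)

/-- Two products of hyperbolic sines and cosines which agree to a high order are equal. -/
theorem fp_close {l l' : List ℕ} (h : ∀ m ∈ l, 1 ≤ m) (h' : ∀ m ∈ l', 1 ≤ m) {c : ℚ} {K : ℕ}
    (hK : 5 * (l.length + l'.length) + 1 ≤ K)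
    (e : X ^ K ∣ (l.map fp).prod - C c * (l'.map fp).prod) : l.Perm l' := by
  have h1 : (l.map tw2 ++ l'.filter fun m => m % 2 = 1).Perm
      (l'.map tw2 ++ l.filter fun m => m % 2 = 1) := by
    refine perm_of_close (c := c) (K := K) ?_ ?_ ?_
    · intro m hm
      rcases List.mem_append.1 hm with hm | hm
      · obtain ⟨k, hk, rfl⟩ := List.mem_map.1 hm
        have := h k hk
        rw [tw2]
        split_ifs <;> omega
      · exact h' m (List.mem_filter.1 hm).1
    · rw [List.length_append, List.length_map]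
      have := List.length_filter_le (fun m => decide (m % 2 = 1)) l'
      omega
    · have h2 : ((l.map tw2 ++ l'.filter fun m => m % 2 = 1).map Sp).prod -
          C c * ((l'.map tw2 ++ l.filter fun m => m % 2 = 1).map Sp).prod =
          ((l.map fp).prod - C c * (l'.map fp).prod) *
          (((l.filter fun m => m % 2 = 1).map Sp).prod *
            ((l'.filter fun m => m % 2 = 1).map Sp).prod) := by
        rw [List.map_append, List.prod_append, List.map_append, List.prod_append, ← fp_prod,
          ← fp_prod]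
        ring
      rw [h2]
      exact e.mul_right _
  rw [List.perm_iff_count] at h1 ⊢
  have h3 : ∀ y, y % 2 = 1 → l.count y = l'.count y := by
    intro y hy
    have := h1 y
    rw [List.count_append, List.count_append, count_tw2, count_tw2, count_odd, count_odd,
      if_pos hy, if_pos hy, if_pos hy, if_pos hy] at this
    omega
  intro y
  by_cases hy : y % 2 = 1
  · exact h3 y hy
  · have := h1 y
    rw [List.count_append, List.count_append, count_tw2, count_tw2, count_odd, count_odd,
      if_neg hy, if_neg hy, if_neg hy, if_neg hy] at this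
    by_cases hy2 : y / 2 % 2 = 1
    · rw [if_pos hy2, if_pos hy2, h3 _ hy2] at this
      omega
    · rw [if_neg hy2, if_neg hy2] at this
      omega

end

end Run7.h849.SC
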