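import Pool.Agent.Run7.h849.SC.Sf

/-!
# The number of the Seifert circles of a diagram of signed chains
-/

set_option autoImplicit false

namespace Run7.h849.SC

open Pool.Agent.Helper454.Wh (insD delD swpD noD OPiece OWord below forget OClosed OStep OIsotopic)
open Pool.Agent.Helper454.Wh.OPiece (birth death pos neg)
open Pool.Agent.Helper454.Wh.Homf hiding X
open Run7.h849 (cc cwd alt alt_zero alt_lt alt_anti ins_alt del_alt par par_succ z0 N Pc smw
  smw_append smw_rep ParW ParW_append rep_par rep_below cx ins_at ins_at1 del_ins' seif seif_le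
  le_seif good_cc rs)
open Finset

noncomputable section

theorem smw_band (n : ℤ) (i : ℕ) : smw (band n i) = [] := by
  obtain ⟨k, rfl | rfl⟩ := n.eq_nat_or_neg
  · rw [band_nat, smw_rep]
  · rw [band_neg, smw_rep]

theorem N_chain {l : List ℤ} (hl : l ≠ []) (i : ℕ) (b : Bool) (y : List Pc)
    (u : ℕ → Bool) : N (smw (chain l i b) ++ y) u = 2 ^ (l.length - 1) * N y u := by
  induction l generalizing i b y u with
  | nil => exact absurd rfl hl
  | cons n l ih =>
    cases l with
    | nil =>
      rw [chain, smw_band]
      simp
    | cons m l =>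
      have ih' := ih (by simp) (i + 2) (!b) (.d (i + 1) :: y)
      rw [chain, smw, smw_append, smw_append, smw_band, List.nil_append, List.cons_append,
        List.append_assoc]
      have e : smw [death (i + 1)] ++ y = .d (i + 1) :: y := rfl
      rw [e, N, ih', ih']
      simp only [N, ins_at, ins_at1, del_ins', if_true, List.length_cons, Nat.add_sub_cancel,
        pow_succ]
      ring

theorem N_expand {w : List Bz} (h : Evn w) (t : ℕ) (u : ℕ → Bool) :
    2 ^ nch w * N (smw (expand w)) u = 2 ^ (bands w).length * N (stA ∅ t w) u := by
  induction w generalizing u t with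
  | nil => rfl
  | cons p w ih =>
    cases p with
    | b i =>
      have h1 := ih h t (Run7.h849.ins i false u)
      have h2 := ih h t (Run7.h849.ins i true u)
      rw [expand, smw, N, stA, N, nch, bands, mul_add, mul_add, h1, h2]
    | d i =>
      have h1 := ih h t (Run7.h849.del i u)
      rw [expand, smw, N, stA, N, nch, bands]
      split_ifs
      · exact h1
      · simp
    | c i ns =>
      have hne : ns ≠ [] := by
        rintro rfl
        exact absurd h.1.1 (by simp)
      have hlen : 1 ≤ ns.length := List.length_pos_iff.2 hne
      have h1 := ih h.2 (t + 1) u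
      rw [expand, smw_append, N_chain hne, stA, decide_eq_false (notMem_empty t), nch, bands,
        List.length_append, pow_succ, pow_add]
      have e1 : rs false i = [] := rfl
      have e2 : 2 ^ ns.length = 2 ^ (ns.length - 1) * 2 := by
        rw [← pow_succ]
        congr 1
        omega
      rw [e1, List.nil_append, e2]
      calc 2 ^ nch w * 2 * (2 ^ (ns.length - 1) * N (smw (expand w)) u) =
          2 ^ (ns.length - 1) * 2 * (2 ^ nch w * N (smw (expand w)) u) := by ring
        _ = _ := by rw [h1]; ring

theorem band_par {i : ℕ} {d : ℕ → Bool} (hd : d i = d (i + 1)) (k : ℤ) :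
    ParW (band k i) d := by
  obtain ⟨k, rfl | rfl⟩ := k.eq_nat_or_neg
  · rw [band_nat]
    exact rep_par hd k
  · rw [band_neg]
    exact rep_par hd k

theorem chain_par {l : List ℤ} (hl : l ≠ []) {i n : ℕ} {b : Bool} (hi : i + 2 ≤ n)
    {d : ℕ → Bool} (hd : d i = b) (hd' : d (i + 1) = dr2 l b) : ParW (chain l i b) d := by
  induction l generalizing i n b d with
  | nil => exact absurd rfl hl
  | cons k l ih =>
    cases l with
    | nil =>
      refine band_par ?_ k
      rw [hd, hd']
      rfl
    | cons k' l =>
      have hp : insD (i + 1) b d i = insD (i + 1) b d (i + 1) := by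
        rw [ins_l, ins_lt (by omega), hd]
      have h1 : insD (i + 1) b d (i + 2) = !b := by
        rw [show i + 2 = (i + 1) + 1 by omega, ins_r]
      have h2 : insD (i + 1) b d (i + 2 + 1) = dr2 (k' :: l) (!b) := by
        rw [show i + 2 + 1 = (i + 1) + 2 by omega, ins_ge (le_refl _), hd']
        simp only [dr2, List.length_cons]
        rcases Nat.mod_two_eq_zero_or_one l.length with h | h
        · rw [if_pos (by omega), if_neg (by omega)]
        · rw [if_neg (by omega), if_pos (by omega), Bool.not_not]
      rw [chain]
      show ParW _ (insD (i + 1) b d)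
      refine ParW_append (n := n + 2) (band_below (by omega) hp k) (band_par hp k) ?_
      exact ParW_append (n := n + 2) (chain_below (by simp) (by omega) h1 h2)
        (ih (by simp) (n := n + 2) (by omega) h1 h2) trivial

theorem expand_par {w : List Bz} {m : ℕ} (hw : Fits (2 * m) w) (ha : Evn w) :
    ParW (expand w) (alt m) := by
  induction w generalizing m with
  | nil => trivial
  | cons p w ih =>
    cases p with
    | b i =>
      obtain ⟨h1, h2⟩ := hw
      rw [show 2 * m + 2 = 2 * (m + 1) by ring] at h2
      have := ih h2 ha
      rw [← ins_alt h1] at this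
      exact this
    | d i =>
      obtain ⟨h1, h2⟩ := hw
      obtain ⟨m1, rfl⟩ : ∃ m1, m = m1 + 1 := ⟨m - 1, by omega⟩
      rw [show 2 * (m1 + 1) - 2 = 2 * m1 by omega] at h2
      have := ih h2 ha
      rw [← del_alt (m := m1) (i := i) (by omega)] at this
      exact this
    | c i ns =>
      obtain ⟨h1, h2⟩ := hw
      have hne : ns ≠ [] := by
        rintro rfl
        exact absurd ha.1.1 (by simp)
      have e : alt m (i + 1) = dr2 ns (par i) := by
        rw [alt_lt (by omega), par_succ, dr2, if_pos ha.1.2]
      exact ParW_append (n := 2 * m) (chain_below hne h1 (alt_lt (by omega)) e)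
        (chain_par hne h1 (alt_lt (by omega)) e) (ih h2 ha.2)

/-- the number of the Seifert circles -/
theorem seif_expand {w : List Bz} (hw : Chained w) :
    seif (expand w) + nch w = (bands w).length + bc w := by
  have ha := evn_of hw.even
  have h1 := expand_below (m := 0) hw.fits ha
  have h2 := expand_par (m := 0) hw.fits ha
  rw [alt_zero] at h1 h2
  have h3 := N_expand ha 0 z0
  rw [(good_cc (R := LN 0) (stA_wd hw.fits ∅ 0)).1, ← pow_add] at h3
  have h4 := nch_le ha
  have h5 : N (smw (expand w)) z0 = 2 ^ ((bands w).length + bc w - nch w) := by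
    apply Nat.eq_of_mul_eq_mul_left (show 0 < 2 ^ nch w by positivity)
    rw [h3, ← pow_add]
    congr 1
    rw [bc]
    omega
  have h6 := seif_le h2 h1 h5
  have h7 := le_seif h2 h1 h5
  omega

end

end Run7.h849.SC
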