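import Pool.Agent.Run7.h849.Mz
import Pool.Agent.Run7.h849.SC.Sfx

/-!
# Closed braids with few strands
-/

set_option autoImplicit false

namespace Run7.h849.SC

open Pool.Agent.Helper454.Wh (insD delD swpD noD OPiece OWord below forget OClosed OStep OIsotopic)
open Pool.Agent.Helper454.Wh.OPiece (birth death pos neg)
open Pool.Agent.Helper454.Wh.Homf hiding X
open Pool.Agent.Helper454.Wh.Homf.Par
open Run7.h849 (seif clo BraidWord)

noncomputable section

/-- Laurent polynomials in `a` with exponents between `-m` and `m` -/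
def Rg (m : ℕ) : AddSubgroup La where
  carrier := {p | (∃ c, Tc p m c) ∧ ∃ c, Tc (rv p) m c}
  zero_mem' := ⟨⟨0, Tc.zero _⟩, ⟨0, by rw [map_zero]; exact Tc.zero _⟩⟩
  add_mem' := by
    rintro x y ⟨⟨c1, h1⟩, c2, h2⟩ ⟨⟨c3, h3⟩, c4, h4⟩
    exact ⟨⟨_, h1.add h3⟩, _, by rw [map_add]; exact h2.add h4⟩
  neg_mem' := by
    rintro x ⟨⟨c1, h1⟩, c2, h2⟩
    exact ⟨⟨_, h1.neg⟩, _, by rw [map_neg]; exact h2.neg⟩

theorem ev_clo_range {m : ℕ} {α : List (ℕ × Bool)} (h : BraidWord m α) :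
    ev La (clo m α) ∈ Rg m := by
  refine Z.ev_clo (R := La) (S := Rg) ?_ ?_ ?_ ?_ h
  · exact ⟨⟨1, Tc.one⟩, 1, by rw [map_one]; exact Tc.one⟩
  · rintro m r ⟨⟨c1, h1⟩, c2, h2⟩
    refine ⟨⟨zz * c1, ?_⟩, zz * c2, ?_⟩
    · have := (Tc.C zz).mul h1
      rwa [zero_add] at this
    · have := (Tc.C zz).mul h2
      rw [zero_add] at this
      have e : rv ((z : La) * r) = LaurentPolynomial.C zz * rv r := by
        rw [map_mul]
        congr 1
        exact LaurentPolynomial.invert_C zz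
      rw [e]
      exact this
  · rintro m r ⟨⟨c1, h1⟩, c2, h2⟩
    refine ⟨⟨zz⁻¹ * c1, ?_⟩, -zz⁻¹ * c2, ?_⟩
    · have := side_top.dl.mul h1
      have e : (1 : ℤ) + m = ((m + 1 : ℕ) : ℤ) := by push_cast; ring
      rw [e] at this
      exact this
    · have := side_bot.dl.mul h2
      have e : (1 : ℤ) + m = ((m + 1 : ℕ) : ℤ) := by push_cast; ring
      rw [e] at this
      have e2 : rv ((dl : La) * r) = rv dl * rv r := map_mul _ _ _
      rw [e2]
      exact this
  · rintro m r ⟨⟨c1, h1⟩, c2, h2⟩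
    refine ⟨⟨1 * c1, ?_⟩, 0, ?_⟩
    · have := (Tc.T 1).mul h1
      have e : (1 : ℤ) + m = ((m + 1 : ℕ) : ℤ) := by push_cast; ring
      rw [e] at this
      exact this
    · have h3 := (Tc.T (-1)).mul h2
      have e : rv ((a : La) * r) = LaurentPolynomial.T (-1) * rv r := by
        rw [map_mul]
        congr 1
        exact LaurentPolynomial.invert_T 1
      rw [e]
      exact h3.low (by push_cast; omega)

theorem ld_clo {m : ℕ} {α : List (ℕ × Bool)} (h : BraidWord m α) :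
    ∃ P P', Ld (clo m α) 0 m (wr (clo m α) noD) P P' := by
  obtain ⟨⟨c1, h1⟩, c2, h2⟩ := ev_clo_range h
  refine ⟨zz ^ m * c1, (-zz) ^ m * c2, ?_, ?_⟩
  · have h3 := (Tc.T (-wr (clo m α) noD)).mul h1
    rw [pow_zero, one_mul, hatq, lq_La]
    have e1 : -wr (clo m α) noD + (m : ℤ) = m - wr (clo m α) noD := by ring
    have e2 : zz⁻¹ ^ m * (zz ^ m * c1) = 1 * c1 := by
      rw [← mul_assoc, ← mul_pow, inv_mul_cancel₀ zz_ne, one_pow]
    rw [e1, ← e2] at h3
    exact h3
  · have h3 := (Tc.T (wr (clo m α) noD)).mul h2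
    rw [pow_zero, one_mul, hatq, lq_La, map_mul rv]
    have e0 : rv (LaurentPolynomial.T (-wr (clo m α) noD)) =
        LaurentPolynomial.T (wr (clo m α) noD) := by
      show LaurentPolynomial.invert (LaurentPolynomial.T (-wr (clo m α) noD)) = _
      rw [LaurentPolynomial.invert_T, neg_neg]
    have e1 : wr (clo m α) noD + (m : ℤ) = m + wr (clo m α) noD := by ring
    have e2 : (-zz⁻¹) ^ m * ((-zz) ^ m * c2) = 1 * c2 := by
      rw [← mul_assoc, ← mul_pow, neg_mul_neg, inv_mul_cancel₀ zz_ne, one_pow]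
    rw [e0]
    rw [e1, ← e2] at h3
    exact h3

theorem cmp_gt {A B : La} {c1 c2 : ℕ} {t t' : ℤ} {u v P Q : Kq} (huv : v * u = 1)
    (hv : Hd 1 v) (hA : Tc A (c1 - t) (u ^ c1 * P)) (hB : Tc B (c2 - t') (u ^ c2 * Q)) {m K : ℕ}
    (hall : ∀ d, Hd m (SC.hh ^ K * (A - B).coeff d)) (hm : K ≤ m)
    (hP : ¬ Hd (m + c1 - K) P) : (c1 : ℤ) - t ≤ c2 - t' := by
  by_contra h
  apply hP
  have hvp : ∀ k : ℕ, Hd k (v ^ k) := by
    intro k
    induction k with
    | zero => rw [pow_zero]; exact Hd.of_SS SS.one_mem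
    | succ k ih => rw [pow_succ]; exact ih.mul hv
  have h1 := hall (c1 - t)
  rw [AddMonoidAlgebra.coeff_sub, Finsupp.sub_apply, hA.1, hB.2 _ (by omega), sub_zero] at h1
  have h2 := (h1.mul (hvp c1))
  have h3 : SC.hh ^ K * (u ^ c1 * P) * v ^ c1 = SC.hh ^ K * P := by
    have : v ^ c1 * u ^ c1 = 1 := by rw [← mul_pow, huv, one_pow]
    linear_combination (SC.hh ^ K * P) * this
  rw [h3, show m + c1 = K + (m + c1 - K) by omega] at h2
  exact h2.cancel

/-- A diagram which is not separated from another one has the smaller span. -/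
theorem Ld.le {D D' : OWord} {g c1 c2 : ℕ} {t t' : ℤ} {P P' Q Q' : Kq} (h : Ld D g c1 t P P')
    (h' : Ld D' g c2 t' Q Q') {n : ℕ} (hn : ¬ Separated n D D') (hm : 2 * (c1 + c2) + 1 ≤ n)
    (hP : ¬ Hd (c1 + 1) P) (hP' : ¬ Hd (c1 + 1) P') : c1 ≤ c2 := by
  have hall := h.all h' hn
  have hz1 : Hd 1 zz := by
    obtain ⟨u, h1, h2⟩ := zz_form
    rw [h1]
    have := (Hd.hh 1).mulS h2.1
    rwa [pow_one] at this
  have k1 := cmp_gt (u := zz⁻¹) (v := zz) (mul_inv_cancel₀ zz_ne) hz1 h.top h'.top hall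
    (by omega) (fun h1 => hP (h1.mono (by omega)))
  have h3 : ∀ d, Hd (n + 1) (SC.hh ^ (2 * (c1 + c2) + 1) *
      (rv ((dl : La) ^ g * hatq La D) - rv ((dl : La) ^ g * hatq La D')).coeff d) := by
    intro d
    rw [← map_sub, rv_coeff]
    exact hall (-d)
  have k2 := cmp_gt (u := -zz⁻¹) (v := -zz) (t := -t) (t' := -t') (by
    rw [neg_mul_neg]
    exact mul_inv_cancel₀ zz_ne) hz1.neg
    (by rw [sub_neg_eq_add]; exact h.bot) (by rw [sub_neg_eq_add]; exact h'.bot) h3
    (by omega) (fun h1 => hP' (h1.mono (by omega)))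
  omega

/-- A diagram of signed chains without bands with a single crossing is separated from all closed
braids with fewer strands than the number of its Seifert circles. -/
theorem sep_braid {w : List Bz} (hw : Chained w) (h : ∀ n ∈ bands w, n ≠ 1 ∧ n ≠ -1) {m : ℕ}
    (hm : m < seif (expand w)) {α : List (ℕ × Bool)} (hα : BraidWord m α) :
    Separated (8 * seif (expand w)) (expand w) (clo m α) := by
  by_contra hs
  obtain ⟨P, P', h1⟩ := ld_clo hα
  have h2 := h1.more (nch w)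
  rw [zero_add] at h2
  have h3 := nch_le (evn_of hw.even)
  have h4 := seif_expand hw
  have hl1 : ∀ j ∈ (bands w).map (fun n => n + 1), j ≠ 0 := by
    intro j hj
    obtain ⟨i, hi, rfl⟩ := List.mem_map.1 hj
    have := h i hi
    omega
  have hl2 : ∀ j ∈ (bands w).map (fun n => n - 1), j ≠ 0 := by
    intro j hj
    obtain ⟨i, hi, rfl⟩ := List.mem_map.1 hj
    have := h i hi
    omega
  have h5 := (ld_chained hw).le h2 hs (by omega)
    (pk_not' hl1 (by rw [List.length_map]; omega)) (pk_not' hl2 (by rw [List.length_map]; omega))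
  omega

end

end Run7.h849.SC
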