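import Pool.Agent.Helper454.Wh.Defs

/-!
# Signed chains and Vassiliev invariants: definitions

Oriented link diagrams are the sliced diagrams of `Pool.Agent.Helper454.Wh.Defs`: lists of maxima
`birth i b`, minima `death i` and crossings `pos i`, `neg i`, read from top to bottom (`OWord`);
`OClosed`: the pieces fit together, without endpoints; `OIsotopic`: planar isotopy and Reidemeister
moves.
-/

set_option autoImplicit false

namespace Run7.h849.SC

open Pool.Agent.Helper454.Wh (OPiece OWord OClosed OIsotopic)
open Pool.Agent.Helper454.Wh.OPiece (birth death pos neg)

/-! ### Vassiliev invariants -/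

/-- the piece is a crossing -/
def IsCross (p : OPiece) : Prop := ∃ i, p = pos i ∨ p = neg i

/-- A crossing is switched: the upper strand becomes the lower strand. -/
def sw : OPiece → OPiece
  | pos i => neg i
  | neg i => pos i
  | birth i b => birth i b
  | death i => death i

/-- The extension of `v` to diagrams with double points. The diagram is `x` followed by `w`; the
marked pieces `(p, true)` of `w` are crossings which stand for double points, and
`v(with double point) = v(with the crossing p) - v(with the switched crossing)`. (This is the usual
rule up to the sign.) -/
def ext (v : OWord → ℚ) : OWord → List (OPiece × Bool) → ℚ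
  | x, [] => v x
  | x, (p, m) :: w =>
    if m then ext v (x ++ [p]) w - ext v (x ++ [sw p]) w else ext v (x ++ [p]) w

/-- `v` is a rational valued Vassiliev invariant of order at most `n` of oriented links: it has equal
values on the diagrams of isotopic links, and its extension is zero on all diagrams with more than
`n` double points. -/
structure Vassiliev (n : ℕ) (v : OWord → ℚ) : Prop where
  invariant : ∀ D E, OClosed D → OIsotopic D E → v D = v E
  order : ∀ w : List (OPiece × Bool), OClosed (w.map Prod.fst) →
    (∀ p ∈ w, p.2 = true → IsCross p.1) → n < w.countP (fun p => p.2) → ext v [] w = 0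

/-- Some Vassiliev invariant of order at most `n` has different values on `D` and `E`. -/
def Separated (n : ℕ) (D E : OWord) : Prop := ∃ v, Vassiliev n v ∧ v D ≠ v E

/-- `r` circles without crossings, one below the other -/
def unlink : ℕ → OWord
  | 0 => []
  | r + 1 => birth 0 true :: death 0 :: unlink r

/-! ### chains of twisted bands -/

/-- `n` twists of the strands `i` and `i + 1`: a row of `|n|` crossings, all of them `pos i` for
`n ≥ 0` and `neg i` for `n < 0`. If the two strands have the same direction, then the crossings of
`band n i` have the sign of `n`. -/
def band (n : ℤ) (i : ℕ) : OWord := List.replicate n.natAbs (if 0 ≤ n then pos i else neg i)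

/-- The strands `i` and `i + 1`, with the direction `b` for the first one, joined by a chain of
bands, one for each number in the list; between two consecutive bands there is a small circle
(`birth (i + 1)` ... `death (i + 1)`). All crossings join strands with the same direction. -/
def chain : List ℤ → ℕ → Bool → OWord
  | [], _, _ => []
  | [n], i, _ => band n i
  | n :: m :: l, i, b => birth (i + 1) b :: (band n i ++
      (chain (m :: l) (i + 2) (!b) ++ [death (i + 1)]))

/-- Base diagrams, read from top to bottom: `b i` is a maximum with the new strands `i` and
`i + 1`, `d i` is a minimum which joins the strands `i` and `i + 1`, and `c i ns` stands for a chain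
between the strands `i` and `i + 1`. The base circles are the curves made of the maxima and
minima. -/
inductive Bz : Type
  | b (i : ℕ) : Bz
  | d (i : ℕ) : Bz
  | c (i : ℕ) (ns : List ℤ) : Bz

/-- the base diagram fits below `n` strands, and has no strands at its bottom -/
def Fits : ℕ → List Bz → Prop
  | n, [] => n = 0
  | n, .b i :: w => i ≤ n ∧ Fits (n + 2) w
  | n, .d i :: w => i + 2 ≤ n ∧ Fits (n - 2) w
  | n, .c i _ :: w => i + 2 ≤ n ∧ Fits n w

/-- The diagram given by a base diagram: the base strands in even positions are directed
downwards, the others upwards. -/
def expand : List Bz → OWord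
  | [] => []
  | .b i :: w => birth i (i % 2 == 0) :: expand w
  | .d i :: w => death i :: expand w
  | .c i ns :: w => chain ns i (i % 2 == 0) ++ expand w

/-- two new strands of the colour `x` -/
def ins (i : ℕ) (x : Bool) (s : ℕ → Bool) : ℕ → Bool := fun k =>
  if k < i then s k else if k < i + 2 then x else s (k - 2)

/-- two strands disappear -/
def del (i : ℕ) (s : ℕ → Bool) : ℕ → Bool := fun k => if k < i then s k else s (k + 2)

/-- The base circles (and the open arcs, if a part of a base diagram is considered) can be coloured
with two colours such that the strands have the colours `s` at the top and `s'` at the bottom. -/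
def Colour : List Bz → (ℕ → Bool) → (ℕ → Bool) → Prop
  | [], s, s' => s' = s
  | .b i :: w, s, s' => ∃ x, Colour w (ins i x s) s'
  | .d i :: w, s, s' => s i = s (i + 1) ∧ Colour w (del i s) s'
  | .c _ _ :: w, s, s' => Colour w s s'

/-- The conditions on the diagram:
* it fits together, without strands at the bottom;
* every chain has an even number of bands (at least two);
* a chain with exactly two bands joins two different base circles: in some colouring of the base
  circles its two strands have different colours. -/
structure Chained (w : List Bz) : Prop where
  fits : Fits 0 w
  even : ∀ i ns, Bz.c i ns ∈ w → 2 ≤ ns.length ∧ ns.length % 2 = 0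
  loopless : ∀ (x : List Bz) (i : ℕ) (ns : List ℤ) (y : List Bz), w = x ++ .c i ns :: y →
    ns.length = 2 → ∃ u s, Colour x (fun _ => false) u ∧ Colour y u s ∧ u i ≠ u (i + 1)

/-- the numbers of all the bands of the diagram -/
def bands : List Bz → List ℤ
  | [] => []
  | .b _ :: w => bands w
  | .d _ :: w => bands w
  | .c _ ns :: w => ns ++ bands w

/-- Every band has at least two crossings: all the numbers satisfy `2 ≤ |n|`. -/
def Heavy (w : List Bz) : Prop := ∀ n ∈ bands w, 2 ≤ |n|

/-- the number of the maxima of the base circles -/
def maxima : List Bz → ℕ
  | [] => 0
  | .b _ :: w => maxima w + 1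
  | .d _ :: w => maxima w
  | .c _ _ :: w => maxima w

end Run7.h849.SC
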