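import Pool.Agent.Run7.h849.Blk
import Pool.Agent.Run7.h849.SC.Dfn

/-!
# The operator of a chain of bands with arbitrary signs
-/

set_option autoImplicit false

namespace Run7.h849.SC

open Pool.Agent.Helper454.Wh (insD delD swpD noD OPiece OWord below forget OClosed OStep OIsotopic)
open Pool.Agent.Helper454.Wh.OPiece (birth death pos neg)
open Pool.Agent.Helper454.Wh.Homf
open Pool.Agent.Helper454.Wh.Homf.Par
open Run7.h849 (fA fB ze ka X_pow X_par D_B curlL curlR clasp zz zx rep_below rep_lv cx fA_succ
  swp_same)

noncomputable section

set_option linter.unusedSectionVars false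

/-- the direction of the second strand -/
def dr2 (l : List ℤ) (b : Bool) : Bool := if l.length % 2 = 0 then !b else b

section
variable (R : Type) [CommRing R] [Par R]

/-- the coefficient of the crossing in the powers of a crossing -/
def pz : ℤ → R
  | .ofNat n => fA R true n
  | .negSucc n => fA R false (n + 1)

/-- the coefficient of the identity -/
def qz (n : ℤ) : R := pz R (n - 1)

/-- a band with one closed strand -/
def wz (n : ℤ) : R := dl * qz R n + a * pz R n

/-- the coefficients of a chain: of the identity, and of the crossing or the reconnection -/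
def cf3 : List ℤ → R × R
  | [] => (0, 0)
  | [n] => (qz R n, pz R n)
  | n :: m :: l =>
    let c := cf3 (m :: l)
    if (m :: l).length % 2 = 0 then
      (c.1 * (dl * qz R n + a * pz R n) + c.2 * qz R n, c.2 * pz R n)
    else
      (dl * qz R n * c.1 + a * qz R n * c.2 + a * pz R n * c.1 +
        z * a * pz R n * c.2, pz R n * c.2)

end

section
variable {R : Type} [CommRing R] [Par R] {m : ℕ}

theorem pz_nat (n : ℕ) : pz R (n : ℤ) = fA R true n := rfl

theorem pz_neg (n : ℕ) : pz R (-(n : ℤ)) = fA R false n := by
  cases n with
  | zero => rfl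
  | succ n => rfl

theorem ze_false : ze R false = -ze R true := rfl

theorem fA_alt (n : ℕ) : fA R false n = (-1) ^ (n + 1) * fA R true n := by
  have h : ∀ n : ℕ, fA R false n = (-1) ^ (n + 1) * fA R true n ∧
      fA R false (n + 1) = (-1) ^ (n + 1 + 1) * fA R true (n + 1) := by
    intro n
    induction n with
    | zero => simp [fA]
    | succ n ih =>
      refine ⟨ih.2, ?_⟩
      have e1 : fA R false (n + 1 + 1) = ze R false * fA R false (n + 1) + fA R false n := rfl
      have e2 : fA R true (n + 1 + 1) = ze R true * fA R true (n + 1) + fA R true n := rfl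
      rw [e1, e2, ih.1, ih.2, ze_false]
      ring
  exact (h n).1

theorem pz_rec (n : ℤ) : pz R (n + 1) = z * pz R n + pz R (n - 1) := by
  obtain ⟨k, rfl | rfl⟩ := n.eq_nat_or_neg
  · cases k with
    | zero =>
      have e1 : pz R ((0 : ℕ) + 1 : ℤ) = 1 := rfl
      have e2 : pz R ((0 : ℕ) - 1 : ℤ) = 1 := rfl
      have e3 : pz R ((0 : ℕ) : ℤ) = 0 := rfl
      rw [e1, e2, e3]
      ring
    | succ k =>
      have e1 : ((k + 1 : ℕ) + 1 : ℤ) = ((k + 2 : ℕ) : ℤ) := by push_cast; ring
      have e2 : ((k + 1 : ℕ) - 1 : ℤ) = ((k : ℕ) : ℤ) := by push_cast; ring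
      rw [e1, e2, pz_nat, pz_nat, pz_nat]
      rfl
  · cases k with
    | zero =>
      have e1 : pz R (-((0 : ℕ) : ℤ) + 1) = 1 := rfl
      have e2 : pz R (-((0 : ℕ) : ℤ) - 1) = 1 := rfl
      have e3 : pz R (-((0 : ℕ) : ℤ)) = 0 := rfl
      rw [e1, e2, e3]
      ring
    | succ k =>
      have e1 : (-((k + 1 : ℕ) : ℤ) + 1) = -((k : ℕ) : ℤ) := by push_cast; ring
      have e2 : (-((k + 1 : ℕ) : ℤ) - 1) = -((k + 2 : ℕ) : ℤ) := by push_cast; ring
      rw [e1, e2, pz_neg, pz_neg, pz_neg]
      have e3 : fA R false (k + 2) = ze R false * fA R false (k + 1) + fA R false k := rfl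
      rw [e3, ze_false]
      simp only [ze, if_true]
      ring

theorem band_nat (n : ℕ) (i : ℕ) : band n i = List.replicate n (cx true i) := by
  rw [band, if_pos (by omega), Int.natAbs_natCast]
  rfl

theorem band_neg (n : ℕ) (i : ℕ) : band (-(n : ℤ)) i = List.replicate n (cx false i) := by
  cases n with
  | zero => rfl
  | succ n =>
    rw [band, if_neg (by push_cast; omega), Int.natAbs_neg, Int.natAbs_natCast]
    rfl

theorem band_op {i : ℕ} (hi : i ≤ 2 * m) {d : ℕ → Bool} (hd : d (i + 1) = d i) {v : V R}
    (hv : v ∈ W (R := R) (m + 1) d) (n : ℤ) :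
    opW R (m + 1) (band n i) v = qz R n • v + pz R n • X (m + 1) true i v := by
  obtain ⟨k, rfl | rfl⟩ := n.eq_nat_or_neg
  · rw [band_nat, X_pow hi hd hv, pz_nat]
    congr 2
    cases k with
    | zero => rfl
    | succ k =>
      rw [qz, show (((k + 1 : ℕ) : ℤ) - 1) = (k : ℤ) by push_cast; ring, pz_nat]
      rfl
  · have e := X_par (R := R) (m := m) (s := false) hi hd hv
    rw [band_neg, X_pow hi hd hv, pz_neg, e, Bool.not_false, ze_false]
    have e1 : qz R (-(k : ℤ)) = fB R false k - z * fA R false k := by
      have e2 := pz_rec (R := R) (-(k : ℤ))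
      rw [pz_neg] at e2
      have e3 : pz R (-(k : ℤ) + 1) = fB R false k := by
        cases k with
        | zero => rfl
        | succ k =>
          rw [show (-((k + 1 : ℕ) : ℤ) + 1) = -((k : ℕ) : ℤ) by push_cast; ring, pz_neg]
          rfl
      rw [e3] at e2
      rw [qz]
      linear_combination -e2
    rw [e1]
    simp only [ze, if_true]
    module

theorem band_below {i n : ℕ} (hi : i + 2 ≤ n) {d : ℕ → Bool} (hd : d i = d (i + 1))
    (k : ℤ) : below (band k i) n d = some (n, d) := by
  obtain ⟨k, rfl | rfl⟩ := k.eq_nat_or_neg
  · rw [band_nat]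
    exact rep_below hi hd k
  · rw [band_neg]
    exact rep_below hi hd k

theorem band_lv {i n : ℕ} {k : ℤ} : lv n (band k i) = n := by
  obtain ⟨k, rfl | rfl⟩ := k.eq_nat_or_neg
  · rw [band_nat]
    exact rep_lv
  · rw [band_neg]
    exact rep_lv

/-- the strands below a chain -/
theorem chain_below {l : List ℤ} (hl : l ≠ []) {i n : ℕ} {b : Bool} (hi : i + 2 ≤ n)
    {d : ℕ → Bool} (hd : d i = b) (hd' : d (i + 1) = dr2 l b) :
    below (chain l i b) n d = some (n, d) := by
  induction l generalizing i n b d with
  | nil => exact absurd rfl hl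
  | cons k l ih =>
    cases l with
    | nil =>
      simp only [chain, dr2, List.length_cons, List.length_nil] at hd' ⊢
      refine band_below hi ?_ k
      rw [hd, hd']
      rfl
    | cons k' l =>
      rw [chain]
      refine bl_cons_of (s' := (n + 2, insD (i + 1) b d)) ?_ ?_
      · simp only [OPiece.below]
        rw [if_pos (by omega)]
      · refine bl_append_of (s' := (n + 2, insD (i + 1) b d)) ?_ ?_
        · refine band_below (by simp only; omega) ?_ k
          show insD (i + 1) b d i = insD (i + 1) b d (i + 1)
          rw [ins_l, ins_lt (by omega), hd]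
        · refine bl_append_of (s' := (n + 2, insD (i + 1) b d))
            (ih (by simp) (by simp only; omega) ?_ ?_) ?_
          · show insD (i + 1) b d (i + 1 + 1) = !b
            rw [ins_r]
          · show insD (i + 1) b d (i + 1 + 2) = dr2 (k' :: l) (!b)
            rw [ins_ge (le_refl _), hd']
            simp only [dr2, List.length_cons]
            rcases Nat.mod_two_eq_zero_or_one l.length with h | h
            · rw [if_pos (by omega), if_neg (by omega)]
            · rw [if_neg (by omega), if_pos (by omega), Bool.not_not]
          · refine bl_cons_of (s' := (n, d)) ?_ rfl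
            simp only [OPiece.below]
            rw [if_pos ⟨by omega, by rw [ins_r, ins_l]⟩]
            simp only [Option.some.injEq, Prod.mk.injEq, Nat.add_sub_cancel, true_and]
            funext j
            simp only [delD, insD]
            split_ifs <;> first | rfl | omega

theorem chain_lv {l : List ℤ} {i n : ℕ} {b : Bool} : lv n (chain l i b) = n := by
  induction l generalizing i n b with
  | nil => rfl
  | cons k l ih =>
    cases l with
    | nil => exact band_lv
    | cons k' l =>
      rw [chain, lv, lv_append, band_lv, lv_append, ih]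
      rfl

/-- the operator of a chain -/
theorem chain_op {l : List ℤ} (hl : l ≠ []) {i : ℕ} {b : Bool} (hi : i + 2 ≤ 2 * m)
    {d : ℕ → Bool} (hd : d i = b) (hd' : d (i + 1) = dr2 l b) {v : V R}
    (hv : v ∈ W (R := R) m d) :
    opW R m (chain l i b) v = (cf3 R l).1 • v + (cf3 R l).2 •
      (if l.length % 2 = 0 then B i b (D (m - 1) i v) else X m true i v) := by
  have hka : ka R true = a := rfl
  have hze : ze R true = z := rfl
  induction l generalizing i m b d v with
  | nil => exact absurd rfl hl
  | cons k l ih =>
    obtain ⟨m, rfl⟩ : ∃ m', m = m' + 1 := ⟨m - 1, by omega⟩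
    cases l with
    | nil =>
      simp only [chain, dr2, List.length_cons, List.length_nil, cf3] at hd' ⊢
      exact band_op (by omega) (by rw [hd, hd']; rfl) hv k
    | cons k' l =>
      have hB : B (i + 1) b v ∈ W (R := R) (m + 1 + 1) (insD (i + 1) b d) :=
        B_memW hv (by omega) b
      have hXB : X (m + 1 + 1) true i (B (i + 1) b v) ∈ W (R := R) (m + 1 + 1)
          (insD (i + 1) b d) := by
        have := crmem true (i := i) (by omega) hB
        rwa [swp_same (by rw [ins_l, ins_lt (by omega), hd])] at this
      have e1 : opW R (m + 1) (chain (k :: k' :: l) i b) v = D (m + 1) (i + 1)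
          (opW R (m + 1 + 1) (chain (k' :: l) (i + 2) (!b))
            (opW R (m + 1 + 1) (band k i) (B (i + 1) b v))) := by
        rw [chain, opW_cons, opW_append, opW_append]
        show opW R (lv (lv (m + 1 + 1) (band k i))
          (chain (k' :: l) (i + 2) (!b))) [death (i + 1)]
          (opW R (lv (m + 1 + 1) (band k i)) (chain (k' :: l) (i + 2) (!b))
            (opW R (m + 1 + 1) (band k i) (B (i + 1) b v))) = _
        rw [band_lv, chain_lv]
        rfl
      have d1 : insD (i + 1) b d (i + 2) = !b := by
        rw [show i + 2 = (i + 1) + 1 by omega, ins_r]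
      have d2 : insD (i + 1) b d (i + 2 + 1) = dr2 (k' :: l) (!b) := by
        rw [show i + 2 + 1 = (i + 1) + 2 by omega, ins_ge (le_refl _), hd']
        simp only [dr2, List.length_cons]
        rcases Nat.mod_two_eq_zero_or_one l.length with h | h
        · rw [if_pos (by omega), if_neg (by omega)]
        · rw [if_neg (by omega), if_pos (by omega), Bool.not_not]
      rw [e1, band_op (by omega) (by rw [ins_l, ins_lt (by omega), hd]) hB, map_add, map_smul,
        map_smul, ih (by simp) (by omega) d1 d2 hB, ih (by simp) (by omega) d1 d2 hXB]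
      simp only [Nat.add_sub_cancel]
      rw [cf3]
      simp only [List.length_cons] at hd' ⊢
      rcases Nat.mod_two_eq_zero_or_one l.length with h | h
      · -- the rest has odd length
        have h1 : (l.length + 1) % 2 = 1 := by omega
        have h2 : (l.length + 1 + 1) % 2 = 0 := by omega
        have hdd : d (i + 1) = !b := by
          rw [hd', dr2]
          simp only [List.length_cons]
          rw [if_pos h2]
        simp only [h1, h2, if_true, one_ne_zero, if_false, map_add, map_smul]
        rw [D_B (by omega) b hv, curlL (by omega) hd hv, curlR (by omega) hdd hv,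
          clasp (by omega) hd hdd hv, hka, hze]
        module
      · have h1 : (l.length + 1) % 2 = 0 := by omega
        have h2 : (l.length + 1 + 1) % 2 = 1 := by omega
        have hdd : d (i + 1) = b := by
          rw [hd', dr2]
          simp only [List.length_cons]
          rw [if_neg (by omega)]
        simp only [h1, h2, if_true, one_ne_zero, if_false, map_add, map_smul]
        rw [D_B (by omega) b hv, curlL (by omega) hd hv, zz (by omega) hdd hv,
          zx (by omega) hd hdd hv, hka]
        module

theorem cf3_snd {l : List ℤ} (hl : l ≠ []) : (cf3 R l).2 = (l.map (pz R)).prod := by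
  induction l with
  | nil => exact absurd rfl hl
  | cons k l ih =>
    cases l with
    | nil => simp [cf3]
    | cons k' l =>
      have := ih (by simp)
      rw [cf3, List.map_cons, List.prod_cons, ← this]
      split_ifs
      · ring
      · ring

theorem dl_za : (dl : R) * z * a = a * a - 1 := by
  have e := h2 (R := R)
  have e1 := h1 (R := R)
  linear_combination (a : R) * e - e1

theorem cf3_fst {l : List ℤ} (hl : l ≠ []) :
    (dl : R) * (cf3 R l).1 + (if l.length % 2 = 0 then 1 else a) * (cf3 R l).2 =
      (l.map (wz R)).prod := by
  induction l with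
  | nil => exact absurd rfl hl
  | cons k l ih =>
    cases l with
    | nil => simp [cf3, wz]
    | cons k' l =>
      have e := ih (by simp)
      have e2 := dl_za (R := R)
      rw [cf3, List.map_cons, List.prod_cons, ← e, wz]
      simp only [List.length_cons]
      rcases Nat.mod_two_eq_zero_or_one l.length with h | h
      · have h1 : (l.length + 1) % 2 = 1 := by omega
        have h2 : (l.length + 1 + 1) % 2 = 0 := by omega
        simp only [h1, h2, if_true, one_ne_zero, if_false]
        linear_combination (pz R k * (cf3 R (k' :: l)).2) * e2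
      · have h1 : (l.length + 1) % 2 = 0 := by omega
        have h2 : (l.length + 1 + 1) % 2 = 1 := by omega
        simp only [h1, h2, if_true, one_ne_zero, if_false]
        ring

/-- a band with one closed strand -/
theorem z_wz (n : ℤ) : (z : R) * wz R n = a * pz R (n + 1) - ai * pz R (n - 1) := by
  have e := h2 (R := R)
  rw [wz, qz, pz_rec]
  linear_combination (pz R (n - 1)) * e

end

end

end Run7.h849.SC
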