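import Pool.Agent.Run7.h849.SC.Ord

/-!
# Comparison of leading coefficients
-/

set_option autoImplicit false

namespace Run7.h849.SC

open Pool.Agent.Helper454.Wh (insD delD swpD noD OPiece OWord below forget OClosed OStep OIsotopic)
open Pool.Agent.Helper454.Wh.Homf hiding X
open Pool.Agent.Helper454.Wh.Homf.Par
open PowerSeries (X)

noncomputable section

/-! ### products of the `pk` -/

theorem cc_fp {m : ℕ} (hm : m ≠ 0) : ∃ j ≤ 1, ∃ u : PowerSeries ℚ, fp m = X ^ j * u ∧
    PowerSeries.constantCoeff u ≠ 0 := by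
  by_cases h : m % 2 = 1
  · refine ⟨0, by omega, fp m, by rw [pow_zero, one_mul], ?_⟩
    have h1 : (-1 : PowerSeries ℚ) ^ m = -1 := Odd.neg_one_pow (Nat.odd_iff.2 h)
    rw [← PowerSeries.coeff_zero_eq_constantCoeff_apply, fp, h1, neg_one_mul, sub_neg_eq_add,
      map_add, coeff_EE, coeff_EE]
    norm_num
  · obtain ⟨u, h1, h2⟩ := Sp_form (a := m) (by omega)
    refine ⟨1, le_rfl, u, ?_, h2⟩
    have h3 : (-1 : PowerSeries ℚ) ^ m = 1 := Even.neg_one_pow (Nat.even_iff.2 (by omega))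
    rw [pow_one, ← h1, fp, h3, Sp, one_mul]

theorem qq_fp : qq = ι (fp 1) := by
  have h3 : (-1 : PowerSeries ℚ) ^ 1 = -1 := pow_one _
  rw [fp, h3, neg_one_mul, sub_neg_eq_add, map_add]
  rfl

theorem Un_qq : Un qq := by
  rw [qq_fp]
  refine Un.of ?_
  have h1 : (-1 : PowerSeries ℚ) ^ 1 = -1 := pow_one _
  rw [← PowerSeries.coeff_zero_eq_constantCoeff_apply, fp, h1, neg_one_mul, sub_neg_eq_add,
    map_add, coeff_EE, coeff_EE]
  norm_num

theorem pk_fp (n : ℤ) : ∃ s : ℚ, s ≠ 0 ∧
    pk n * qq = ι (PowerSeries.C s * fp n.natAbs) := by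
  have key : ∀ k : ℕ, pk k * qq = ι (fp k) := by
    intro k
    have e : E k * E (-2 * k) = E (-k) := by
      rw [← E_add]
      congr 1
      ring
    rw [pk_nat, vv_pow, fp, map_sub, map_mul, map_pow, map_neg, map_one]
    have e1 : ι (EE k) = E k := rfl
    have e2 : ι (EE (-k)) = E (-k) := rfl
    rw [e1, e2, ← e]
    ring
  obtain ⟨k, rfl | rfl⟩ := n.eq_nat_or_neg
  · exact ⟨1, one_ne_zero, by rw [map_one, one_mul, Int.natAbs_natCast]; exact key k⟩
  · refine ⟨(-1) ^ (k + 1), pow_ne_zero _ (by norm_num), ?_⟩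
    rw [Int.natAbs_neg, Int.natAbs_natCast, pk_neg, mul_assoc, key]
    simp only [map_mul, map_pow, map_neg, map_one]

theorem pk_fp_list (l : List ℤ) : ∃ s : ℚ, s ≠ 0 ∧ (l.map pk).prod * qq ^ l.length =
    ι (PowerSeries.C s * ((l.map Int.natAbs).map fp).prod) := by
  induction l with
  | nil => exact ⟨1, one_ne_zero, by simp⟩
  | cons n l ih =>
    obtain ⟨s, h1, h2⟩ := ih
    obtain ⟨s', h3, h4⟩ := pk_fp n
    refine ⟨s' * s, mul_ne_zero h3 h1, ?_⟩
    have e : ι (PowerSeries.C (s' * s) * (((n :: l).map Int.natAbs).map fp).prod) =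
        ι (PowerSeries.C s' * fp n.natAbs) *
          ι (PowerSeries.C s * ((l.map Int.natAbs).map fp).prod) := by
      rw [← map_mul ι, List.map_cons, List.map_cons, List.prod_cons, map_mul PowerSeries.C]
      congr 1
      ring
    rw [e, ← h2, ← h4, List.map_cons, List.prod_cons, List.length_cons]
    ring

/-- Two products of the `pk` which agree to a high order. -/
theorem pk_close {l l' : List ℤ} (h : ∀ n ∈ l, n ≠ 0) (h' : ∀ n ∈ l', n ≠ 0) {x y : ℚ}
    (hx : x ≠ 0) {L : ℕ} (hL : 10 * (l.length + l'.length) + 1 ≤ L)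
    (e : Hd L (ι (PowerSeries.C x) * (l.map pk).prod - ι (PowerSeries.C y) * (l'.map pk).prod))
    {m : ℕ} (hm : 2 ≤ m) :
    (l.map Int.natAbs).count m = (l'.map Int.natAbs).count m := by
  obtain ⟨s, hs, h1⟩ := pk_fp_list l
  obtain ⟨s', hs', h2⟩ := pk_fp_list l'
  set F := ((l.map Int.natAbs ++ List.replicate l'.length 1).map fp).prod with hF
  set G := ((l'.map Int.natAbs ++ List.replicate l.length 1).map fp).prod with hG
  have hrep : ∀ k : ℕ, ((List.replicate k 1).map fp).prod = fp 1 ^ k := by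
    intro k
    rw [List.map_replicate, List.prod_replicate]
  have e1 : ι (PowerSeries.C (x * s) * F - PowerSeries.C (y * s') * G) =
      (ι (PowerSeries.C x) * (l.map pk).prod - ι (PowerSeries.C y) * (l'.map pk).prod) *
        (qq ^ l.length * qq ^ l'.length) := by
    have h3 : ι (PowerSeries.C (x * s) * F) = ι (PowerSeries.C x) * (l.map pk).prod *
        (qq ^ l.length * qq ^ l'.length) := by
      have : ι (PowerSeries.C (x * s) * F) = ι (PowerSeries.C x) *
          ι (PowerSeries.C s * ((l.map Int.natAbs).map fp).prod) * (ι (fp 1)) ^ l'.length := by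
        rw [hF, List.map_append, List.prod_append, hrep, ← map_pow, ← map_mul, ← map_mul]
        congr 1
        rw [map_mul]
        ring
      rw [this, ← h1, ← qq_fp]
      ring
    have h4 : ι (PowerSeries.C (y * s') * G) = ι (PowerSeries.C y) * (l'.map pk).prod *
        (qq ^ l.length * qq ^ l'.length) := by
      have : ι (PowerSeries.C (y * s') * G) = ι (PowerSeries.C y) *
          ι (PowerSeries.C s' * ((l'.map Int.natAbs).map fp).prod) * (ι (fp 1)) ^ l.length := by
        rw [hG, List.map_append, List.prod_append, hrep, ← map_pow, ← map_mul, ← map_mul]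
        congr 1
        rw [map_mul]
        ring
      rw [this, ← h2, ← qq_fp]
      ring
    rw [map_sub, h3, h4]
    ring
  have h5 := e.mulS (y := qq ^ l.length * qq ^ l'.length)
    (SS.mul_mem (SS.pow_mem Un_qq.1 _) (SS.pow_mem Un_qq.1 _))
  rw [← e1] at h5
  obtain ⟨r, hr⟩ := h5
  have h6 : X ^ L ∣ PowerSeries.C (x * s) * F - PowerSeries.C (y * s') * G := ⟨r, ι_inj hr⟩
  have h7 : X ^ L ∣ F - PowerSeries.C ((x * s)⁻¹ * (y * s')) * G := by
    have h8 := h6.mul_left (PowerSeries.C ((x * s)⁻¹))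
    have h9 : PowerSeries.C ((x * s)⁻¹) *
        (PowerSeries.C (x * s) * F - PowerSeries.C (y * s') * G) =
        F - PowerSeries.C ((x * s)⁻¹ * (y * s')) * G := by
      have h10 : (PowerSeries.C ((x * s)⁻¹) : PowerSeries ℚ) * PowerSeries.C (x * s) = 1 := by
        rw [← map_mul, inv_mul_cancel₀ (mul_ne_zero hx hs), map_one]
      rw [map_mul PowerSeries.C (x * s)⁻¹ (y * s')]
      linear_combination F * h10
    rwa [h9] at h8
  have h8 := fp_close (l := l.map Int.natAbs ++ List.replicate l'.length 1)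
    (l' := l'.map Int.natAbs ++ List.replicate l.length 1) (by
      intro m hm
      rcases List.mem_append.1 hm with k | k
      · obtain ⟨n, k1, rfl⟩ := List.mem_map.1 k
        have := h n k1
        omega
      · rw [List.eq_of_mem_replicate k]) (by
      intro m hm
      rcases List.mem_append.1 hm with k | k
      · obtain ⟨n, k1, rfl⟩ := List.mem_map.1 k
        have := h' n k1
        omega
      · rw [List.eq_of_mem_replicate k]) (c := (x * s)⁻¹ * (y * s')) (K := L) (by
      simp only [List.length_append, List.length_map, List.length_replicate]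
      omega) h7
  have h9 := (List.perm_iff_count.1 h8) m
  rw [List.count_append, List.count_append, List.count_replicate, List.count_replicate] at h9
  have h1m : (1 == m) = false := by
    rw [beq_eq_false_iff_ne]
    omega
  rw [h1m] at h9
  simpa using h9

/-- the order of a product of the `pk` -/
theorem pk_ord {l : List ℤ} (h : ∀ n ∈ l, n ≠ 0) :
    ∃ j ≤ l.length, ∃ u, Un u ∧ (l.map pk).prod = SC.hh ^ j * u := by
  induction l with
  | nil => exact ⟨0, le_rfl, 1, Un.one, by simp⟩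
  | cons n l ih =>
    obtain ⟨j, h1, u, h2, h3⟩ := ih fun k hk => h k (List.mem_cons_of_mem _ hk)
    obtain ⟨s, h4, h5⟩ := pk_fp n
    obtain ⟨i, h6, v, h7, h8⟩ := cc_fp (m := n.natAbs) (by
      have := h n List.mem_cons_self
      omega)
    obtain ⟨-, q, hq, hq2⟩ := Un_qq
    have h9 : Un (ι (PowerSeries.C s)) := Un.of (by
      rw [PowerSeries.constantCoeff_C]
      exact h4)
    have h10 : Un q := ⟨hq, qq, Un_qq.1, by rw [mul_comm]; exact hq2⟩
    refine ⟨i + j, by rw [List.length_cons]; omega, ι (PowerSeries.C s) * ι v * q * u,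
      (((h9.mul (Un.of h8)).mul h10).mul h2), ?_⟩
    have h11 : pk n = SC.hh ^ i * (ι (PowerSeries.C s) * ι v * q) := by
      have h12 : pk n = ι (PowerSeries.C s * fp n.natAbs) * q := by
        rw [← h5, mul_assoc, hq2, mul_one]
      rw [h12, h7, map_mul, map_mul, hh_pow]
      ring
    rw [List.map_cons, List.prod_cons, h3, h11, pow_add]
    ring

theorem Un_not {u : Kq} (hu : Un u) : ¬ Hd 1 u := by
  intro h
  obtain ⟨-, y, hy, h1⟩ := hu
  have h2 := h.mulS hy
  rw [h1] at h2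
  obtain ⟨r, hr⟩ := h2
  have h3 : (1 : PowerSeries ℚ) = X ^ 1 * r := ι_inj (by rw [map_one]; exact hr)
  have h4 := congrArg PowerSeries.constantCoeff h3
  rw [map_mul, map_pow, map_one, PowerSeries.constantCoeff_X, pow_one, zero_mul] at h4
  exact one_ne_zero h4

theorem pk_not {l : List ℤ} (h : ∀ n ∈ l, n ≠ 0) : ¬ Hd (l.length + 1) (l.map pk).prod := by
  obtain ⟨j, h1, u, h2, h3⟩ := pk_ord h
  intro h4
  rw [h3] at h4
  exact Un_not h2 (Hd.cancel (h4.mono (show j + 1 ≤ l.length + 1 by omega)))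

/-! ### comparison -/

theorem Tc.coeff {p : La} {d : ℤ} {c : Kq} (h : Tc p d c) (k : ℤ) (hk : d ≤ k) :
    p.coeff k = if k = d then c else 0 := by
  split_ifs with h1
  · rw [h1]
    exact h.1
  · exact h.2 k (by omega)

theorem cmp_aux {A B : La} {c1 c2 : ℕ} {t t' : ℤ} {u v P Q : Kq} (huv : v * u = 1)
    (hv : Hd 1 v) (hA : Tc A (c1 - t) (u ^ c1 * P)) (hB : Tc B (c2 - t') (u ^ c2 * Q)) {m K : ℕ}
    (hall : ∀ d, Hd m (SC.hh ^ K * (A - B).coeff d)) (hm : K ≤ m)
    (hP : ¬ Hd (m + c1 - K) P) (hQ : ¬ Hd (m + c2 - K) Q) :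
    (c1 : ℤ) - t = c2 - t' ∧ Hd (m + (c1 + c2) - K) (v ^ c2 * P - v ^ c1 * Q) := by
  have hvp : ∀ k : ℕ, Hd k (v ^ k) := by
    intro k
    induction k with
    | zero => rw [pow_zero]; exact Hd.of_SS SS.one_mem
    | succ k ih => rw [pow_succ]; exact ih.mul hv
  have huvp : ∀ k : ℕ, v ^ k * u ^ k = 1 := fun k => by rw [← mul_pow, huv, one_pow]
  have hsub : ∀ d, (A - B).coeff d = A.coeff d - B.coeff d := by
    intro d
    rw [AddMonoidAlgebra.coeff_sub, Finsupp.sub_apply]
  rcases lt_trichotomy ((c1 : ℤ) - t) (c2 - t') with h | h | h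
  · exfalso
    apply hQ
    have h1 := hall (c2 - t')
    rw [hsub, hA.2 _ h, hB.1, zero_sub] at h1
    have h2 := (h1.mul (hvp c2)).neg
    have h3 : -(SC.hh ^ K * -(u ^ c2 * Q) * v ^ c2) = SC.hh ^ K * Q := by
      linear_combination (SC.hh ^ K * Q) * huvp c2
    rw [h3, show m + c2 = K + (m + c2 - K) by omega] at h2
    exact h2.cancel
  · refine ⟨h, ?_⟩
    have h1 := hall (c1 - t)
    have h4 : B.coeff (c1 - t) = u ^ c2 * Q := by rw [h]; exact hB.1
    rw [hsub, hA.1, h4] at h1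
    have h2 := (h1.mul ((hvp c1).mul (hvp c2)))
    have h3 : SC.hh ^ K * (u ^ c1 * P - u ^ c2 * Q) * (v ^ c1 * v ^ c2) =
        SC.hh ^ K * (v ^ c2 * P - v ^ c1 * Q) := by
      linear_combination (SC.hh ^ K * v ^ c2 * P) * huvp c1 - (SC.hh ^ K * v ^ c1 * Q) * huvp c2
    rw [h3, show m + (c1 + c2) = K + (m + (c1 + c2) - K) by omega] at h2
    exact h2.cancel
  · exfalso
    apply hP
    have h1 := hall (c1 - t)
    rw [hsub, hA.1, hB.2 _ h, sub_zero] at h1
    have h2 := (h1.mul (hvp c1))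
    have h3 : SC.hh ^ K * (u ^ c1 * P) * v ^ c1 = SC.hh ^ K * P := by
      linear_combination (SC.hh ^ K * P) * huvp c1
    rw [h3, show m + c1 = K + (m + c1 - K) by omega] at h2
    exact h2.cancel

/-- the inversion of `a` -/
def rv : La →+* La := ((LaurentPolynomial.invert (R := Kq) : La ≃ₐ[Kq] La) : La →+* La)

theorem rv_coeff (A : La) (d : ℤ) : (rv A).coeff d = A.coeff (-d) :=
  LaurentPolynomial.invert_apply A d

/-- Leading data: after the multiplication by `dl ^ g`, the value of the diagram has the leading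
coefficients `zz⁻¹ ^ s * P` and `(-zz⁻¹) ^ s * P'`, at the exponents `s - t` and `-(s + t)`. -/
structure Ld (D : OWord) (g s : ℕ) (t : ℤ) (P P' : Kq) : Prop where
  top : Tc ((dl : La) ^ g * hatq La D) (s - t) (zz⁻¹ ^ s * P)
  bot : Tc (rv ((dl : La) ^ g * hatq La D)) (s + t) ((-zz⁻¹) ^ s * P')

theorem Ld.more {D : OWord} {g s : ℕ} {t : ℤ} {P P' : Kq} (h : Ld D g s t P P') (j : ℕ) :
    Ld D (g + j) (s + j) t P P' := by
  constructor
  · have h1 := (side_top.dl.pow j).mul h.top
    have e : (RingHom.id La dl) ^ j * ((dl : La) ^ g * hatq La D) =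
        (dl : La) ^ (g + j) * hatq La D := by
      rw [RingHom.id_apply, pow_add]
      ring
    have e2 : (j : ℤ) * 1 + (s - t) = ((s + j : ℕ) : ℤ) - t := by push_cast; ring
    have e3 : zz⁻¹ ^ j * (zz⁻¹ ^ s * P) = zz⁻¹ ^ (s + j) * P := by ring
    rwa [e, e2, e3] at h1
  · have h1 := (side_bot.dl.pow j).mul h.bot
    have e : ((LaurentPolynomial.invert (R := Kq) : La ≃ₐ[Kq] La) : La →+* La) dl ^ j *
        rv ((dl : La) ^ g * hatq La D) = rv ((dl : La) ^ (g + j) * hatq La D) := by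
      show rv dl ^ j * _ = _
      rw [← map_pow, ← map_mul]
      congr 1
      ring
    have e2 : (j : ℤ) * 1 + (s + t) = ((s + j : ℕ) : ℤ) + t := by push_cast; ring
    have e3 : (-zz⁻¹) ^ j * ((-zz⁻¹) ^ s * P') = (-zz⁻¹) ^ (s + j) * P' := by ring
    rwa [e, e2, e3] at h1

/-- the value of a circle -/
def dv (N : ℕ) : Kq := (dl : LN N)

/-- all coefficients of the difference are divisible by a high power of `h` -/
theorem Ld.all {D D' : OWord} {g c1 c2 : ℕ} {t t' : ℤ} {P P' Q Q' : Kq} (h : Ld D g c1 t P P')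
    (h' : Ld D' g c2 t' Q Q') {n : ℕ} (hn : ¬ Separated n D D') (d : ℤ) :
    Hd (n + 1) (SC.hh ^ (2 * (c1 + c2) + 1) *
      ((dl : La) ^ g * hatq La D - (dl : La) ^ g * hatq La D').coeff d) := by
  classical
  have hout : ∀ {D : OWord} {c : ℕ} {t : ℤ} {P P' : Kq}, Ld D g c t P P' →
      ∀ d, d ∉ Finset.Icc (-(c + t) : ℤ) (c - t) → ((dl : La) ^ g * hatq La D).coeff d = 0 := by
    intro D c t P P' h d hd
    rw [Finset.mem_Icc, not_and_or, not_le, not_le] at hd
    rcases hd with hd | hd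
    · have := h.bot.2 (-d) (by omega)
      rwa [rv_coeff, neg_neg] at this
    · exact h.top.2 d hd
  refine vand (T := Finset.Icc (-(c1 + t) : ℤ) (c1 - t) ∪ Finset.Icc (-(c2 + t') : ℤ) (c2 - t'))
    (fun d hd => ?_) ?_ (fun N _ => ?_) d
  · rw [Finset.mem_union, not_or] at hd
    rw [AddMonoidAlgebra.coeff_sub, Finsupp.sub_apply, hout h d hd.1, hout h' d hd.2, sub_zero]
  · refine (Finset.card_union_le _ _).trans ?_
    rw [Int.card_Icc, Int.card_Icc]
    omega
  · have h1 := Hd_sep hn N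
    have h2 : fv N ((dl : La) ^ g * hatq La D - (dl : La) ^ g * hatq La D') =
        dv N ^ g * (hv N D - hv N D') := by
      rw [← φ_hat, ← φ_hat, fv, map_sub, map_mul, map_mul, map_pow, φ_dl]
      exact (mul_sub _ _ _).symm
    rw [h2]
    exact h1.smul (SS.pow_mem (dl_mem N) _)

/-- Two diagrams which are not separated: the leading data agree. -/
theorem Ld.cmp {D D' : OWord} {g c1 c2 : ℕ} {t t' : ℤ} {P P' Q Q' : Kq} (h : Ld D g c1 t P P')
    (h' : Ld D' g c2 t' Q Q') {n : ℕ} (hn : ¬ Separated n D D') (hm : 2 * (c1 + c2) + 1 ≤ n) :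
    (¬ Hd (c1 + 1) P → ¬ Hd (c2 + 1) Q → ((c1 : ℤ) - t = c2 - t' ∧
      Hd (n - (c1 + c2)) (zz ^ c2 * P - zz ^ c1 * Q))) ∧
    (¬ Hd (c1 + 1) P' → ¬ Hd (c2 + 1) Q' → ((c1 : ℤ) + t = c2 + t' ∧
      Hd (n - (c1 + c2)) ((-zz) ^ c2 * P' - (-zz) ^ c1 * Q'))) := by
  have hall := h.all h' hn
  have hz1 : Hd 1 zz := by
    obtain ⟨u, h1, h2⟩ := zz_form
    rw [h1]
    have := (Hd.hh 1).mulS h2.1
    rwa [pow_one] at this
  constructor
  · intro hP hQ
    have := cmp_aux (u := zz⁻¹) (v := zz) (mul_inv_cancel₀ zz_ne) hz1 h.top h'.top hall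
      (by omega) (fun h1 => hP (h1.mono (by omega))) (fun h1 => hQ (h1.mono (by omega)))
    exact ⟨this.1, this.2.mono (by omega)⟩
  · intro hP hQ
    have h3 : ∀ d, Hd (n + 1) (SC.hh ^ (2 * (c1 + c2) + 1) *
        (rv ((dl : La) ^ g * hatq La D) - rv ((dl : La) ^ g * hatq La D')).coeff d) := by
      intro d
      rw [← map_sub, rv_coeff]
      exact hall (-d)
    have := cmp_aux (u := -zz⁻¹) (v := -zz) (t := -t) (t' := -t') (by
      rw [neg_mul_neg]
      exact mul_inv_cancel₀ zz_ne) hz1.neg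
      (by rw [sub_neg_eq_add]; exact h.bot) (by rw [sub_neg_eq_add]; exact h'.bot) h3
      (by omega) (fun h1 => hP (h1.mono (by omega))) (fun h1 => hQ (h1.mono (by omega)))
    refine ⟨?_, this.2.mono (by omega)⟩
    have := this.1
    omega

end

end Run7.h849.SC
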