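import Pool.Agent.Run7.h849.SC.Hfl

/-!
# Crossing changes in diagrams of signed chains
-/

set_option autoImplicit false

namespace Run7.h849.SC

open Pool.Agent.Helper454.Wh (insD delD swpD noD OPiece OWord below forget OClosed OStep OIsotopic
  IsHomfly Rlm)
open Pool.Agent.Helper454.Wh.OPiece (birth death pos neg)
open Pool.Agent.Helper454.Wh.Homf hiding X
open Pool.Agent.Helper454.Wh.Homf.Par
open Run7.h849 (cc hatq hatq_isotopy)

noncomputable section

/-! ### one band is changed -/

/-- the diagrams agree, except for the numbers of twists -/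
def Sim : List Bz → List Bz → Prop
  | [], [] => True
  | .b i :: w, .b j :: w' => i = j ∧ Sim w w'
  | .d i :: w, .d j :: w' => i = j ∧ Sim w w'
  | .c i l :: w, .c j l' :: w' => i = j ∧ l.length = l'.length ∧ Sim w w'
  | _, _ => False

theorem Sim.refl (w : List Bz) : Sim w w := by
  induction w with
  | nil => trivial
  | cons p w ih => cases p <;> simp [Sim, ih]

theorem Sim.fits {w w' : List Bz} (h : Sim w w') {n : ℕ} (hf : Fits n w) : Fits n w' := by
  induction w generalizing w' n with
  | nil =>
    cases w' with
    | nil => exact hf
    | cons q w' => cases q <;> exact absurd h id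
  | cons p w ih =>
    cases w' with
    | nil => cases p <;> exact absurd h id
    | cons q w' =>
      cases p <;> cases q <;> try exact absurd h id
      · obtain ⟨rfl, h⟩ := h
        exact ⟨hf.1, ih h hf.2⟩
      · obtain ⟨rfl, h⟩ := h
        exact ⟨hf.1, ih h hf.2⟩
      · obtain ⟨rfl, -, h⟩ := h
        exact ⟨hf.1, ih h hf.2⟩

theorem Sim.colour {w w' : List Bz} (h : Sim w w') {s s' : ℕ → Bool} (hc : Colour w s s') :
    Colour w' s s' := by
  induction w generalizing w' s s' with
  | nil =>
    cases w' with
    | nil => exact hc
    | cons q w' => cases q <;> exact absurd h id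
  | cons p w ih =>
    cases w' with
    | nil => cases p <;> exact absurd h id
    | cons q w' =>
      cases p <;> cases q <;> try exact absurd h id
      · obtain ⟨rfl, h⟩ := h
        obtain ⟨x, hx⟩ := hc
        exact ⟨x, ih h hx⟩
      · obtain ⟨rfl, h⟩ := h
        exact ⟨hc.1, ih h hc.2⟩
      · obtain ⟨rfl, -, h⟩ := h
        exact ih h hc

theorem Sim.mem {w w' : List Bz} (h : Sim w w') {i : ℕ} {ns : List ℤ} (hm : Bz.c i ns ∈ w') :
    ∃ ms, Bz.c i ms ∈ w ∧ ms.length = ns.length := by
  induction w generalizing w' with
  | nil =>
    cases w' with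
    | nil => simp at hm
    | cons q w' => cases q <;> exact absurd h id
  | cons p w ih =>
    cases w' with
    | nil => simp at hm
    | cons q w' =>
      cases p <;> cases q <;> try exact absurd h id
      · obtain ⟨rfl, h⟩ := h
        have hm' : Bz.c i ns ∈ w' := by simpa using hm
        obtain ⟨ms, h1, h2⟩ := ih h hm'
        exact ⟨ms, List.mem_cons_of_mem _ h1, h2⟩
      · obtain ⟨rfl, h⟩ := h
        have hm' : Bz.c i ns ∈ w' := by simpa using hm
        obtain ⟨ms, h1, h2⟩ := ih h hm'
        exact ⟨ms, List.mem_cons_of_mem _ h1, h2⟩
      · rename_i j l j' l'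
        obtain ⟨rfl, hl, h⟩ := h
        rcases List.mem_cons.1 hm with e | hm'
        · injection e with e1 e2
          subst e1 e2
          exact ⟨l, List.mem_cons_self, hl⟩
        · obtain ⟨ms, h1, h2⟩ := ih h hm'
          exact ⟨ms, List.mem_cons_of_mem _ h1, h2⟩

theorem Sim.split {w w' : List Bz} (h : Sim w w') {x y : List Bz} {i : ℕ} {ns : List ℤ}
    (e : w' = x ++ .c i ns :: y) :
    ∃ x' ms y', w = x' ++ .c i ms :: y' ∧ ms.length = ns.length ∧ Sim x' x ∧ Sim y' y := by
  induction w generalizing w' x with
  | nil =>
    cases w' with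
    | nil => simp at e
    | cons q w' => cases q <;> exact absurd h id
  | cons p w ih =>
    cases w' with
    | nil => simp at e
    | cons q w' =>
      cases x with
      | nil =>
        rw [List.nil_append] at e
        injection e with e1 e2
        subst e1 e2
        cases p <;> try exact absurd h id
        obtain ⟨rfl, hl, h⟩ := h
        exact ⟨[], _, w, rfl, hl, trivial, h⟩
      | cons p' x =>
        rw [List.cons_append] at e
        injection e with e1 e2
        subst e1
        cases p <;> cases q <;> try exact absurd h id
        · obtain ⟨rfl, h⟩ := h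
          obtain ⟨x', ms, y', h1, h2, h3, h4⟩ := ih h e2
          exact ⟨Bz.b _ :: x', ms, y', by rw [h1]; rfl, h2, And.intro rfl h3, h4⟩
        · obtain ⟨rfl, h⟩ := h
          obtain ⟨x', ms, y', h1, h2, h3, h4⟩ := ih h e2
          exact ⟨Bz.d _ :: x', ms, y', by rw [h1]; rfl, h2, And.intro rfl h3, h4⟩
        · obtain ⟨rfl, hl, h⟩ := h
          obtain ⟨x', ms, y', h1, h2, h3, h4⟩ := ih h e2
          exact ⟨Bz.c _ _ :: x', ms, y', by rw [h1]; rfl, h2, And.intro rfl (And.intro hl h3), h4⟩

theorem Sim.chained {w w' : List Bz} (h : Sim w w') (hw : Chained w) : Chained w' where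
  fits := h.fits hw.fits
  even := by
    intro i ns hm
    obtain ⟨ms, h1, h2⟩ := h.mem hm
    rw [← h2]
    exact hw.even i ms h1
  loopless := by
    intro x i ns y e h2
    obtain ⟨x', ms, y', h3, h4, h5, h6⟩ := h.split e
    obtain ⟨u, s, h7, h8, h9⟩ := hw.loopless x' i ms y' h3 (h4.trans h2)
    exact ⟨u, s, h5.colour h7, h6.colour h8, h9⟩

theorem Sim.nch {w w' : List Bz} (h : Sim w w') : nch w = nch w' := by
  induction w generalizing w' with
  | nil =>
    cases w' with
    | nil => rfl
    | cons q w' => cases q <;> exact absurd h id
  | cons p w ih =>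
    cases w' with
    | nil => cases p <;> exact absurd h id
    | cons q w' =>
      cases p <;> cases q <;> try exact absurd h id
      · obtain ⟨-, h⟩ := h
        have := ih h
        simpa [SC.nch] using this
      · obtain ⟨-, h⟩ := h
        have := ih h
        simpa [SC.nch] using this
      · obtain ⟨-, -, h⟩ := h
        have := ih h
        simpa [SC.nch] using this

theorem Sim.stA {w w' : List Bz} (h : Sim w w') (A : Finset ℕ) (t : ℕ) :
    stA A t w = stA A t w' := by
  induction w generalizing w' t with
  | nil =>
    cases w' with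
    | nil => rfl
    | cons q w' => cases q <;> exact absurd h id
  | cons p w ih =>
    cases w' with
    | nil => cases p <;> exact absurd h id
    | cons q w' =>
      cases p <;> cases q <;> try exact absurd h id
      · obtain ⟨rfl, h⟩ := h
        simp only [SC.stA, ih h]
      · obtain ⟨rfl, h⟩ := h
        simp only [SC.stA, ih h]
      · obtain ⟨rfl, -, h⟩ := h
        simp only [SC.stA, ih h]

theorem Sim.bc {w w' : List Bz} (h : Sim w w') : bc w = bc w' := by
  rw [SC.bc, SC.bc, h.stA]

/-! ### removing two parallel crossings -/

/-- two twists less -/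
def red (n : ℤ) : ℤ := if 0 ≤ n then n - 2 else n + 2

theorem first_expand {w : List Bz} {n : ℕ} (hf : Fits n w) (ha : Evn w) {p : OPiece} {s : OWord}
    (e : expand w = p :: s) (hp : IsCross p) : False := by
  cases w with
  | nil => simp [expand] at e
  | cons q w =>
    obtain ⟨i, hi⟩ := hp
    cases q with
    | b j =>
      rw [expand] at e
      injection e with e1 e2
      subst e1
      rcases hi with hi | hi <;> simp at hi
    | d j =>
      rw [expand] at e
      injection e with e1 e2
      subst e1
      rcases hi with hi | hi <;> simp at hi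
    | c j ns =>
      have h2 : 2 ≤ ns.length := ha.1.1
      match ns, h2 with
      | n :: m :: l, _ =>
        rw [expand, chain, List.cons_append] at e
        injection e with e1 e2
        subst e1
        rcases hi with hi | hi <;> simp at hi

theorem band_split {n : ℤ} {i : ℕ} {x s : OWord} {p : OPiece}
    (e : band n i = x ++ p :: p :: s) : 2 ≤ |n| ∧ x ++ s = band (red n) i := by
  have hlen : n.natAbs = x.length + (s.length + 2) := by
    have := congrArg List.length e
    simpa [band] using this
  have hall : ∀ q ∈ x ++ p :: p :: s, q = if 0 ≤ n then pos i else neg i := by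
    intro q hq
    rw [← e, band] at hq
    exact List.eq_of_mem_replicate hq
  have h2 : 2 ≤ |n| := by
    rw [Int.abs_eq_natAbs]
    omega
  refine ⟨h2, ?_⟩
  have h3 : x ++ s = List.replicate (x ++ s).length (if 0 ≤ n then pos i else neg i) := by
    rw [List.eq_replicate_iff]
    refine ⟨rfl, fun q hq => hall q ?_⟩
    rcases List.mem_append.1 hq with h | h
    · exact List.mem_append_left _ h
    · exact List.mem_append_right _ (List.mem_cons_of_mem _ (List.mem_cons_of_mem _ h))
  rw [h3, band]
  by_cases hn : 0 ≤ n
  · rw [abs_of_nonneg hn] at h2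
    have h4 : red n = n - 2 := if_pos hn
    have h5 : (red n).natAbs = (x ++ s).length := by
      rw [h4, List.length_append]
      omega
    rw [h5, if_pos hn, if_pos (by rw [h4]; omega)]
  · have hn' : n < 0 := by omega
    rw [abs_of_neg hn'] at h2
    have h4 : red n = n + 2 := if_neg hn
    have h5 : (red n).natAbs = (x ++ s).length := by
      rw [h4, List.length_append]
      omega
    rw [h5, if_neg hn]
    by_cases h6 : n = -2
    · have h7 : (x ++ s).length = 0 := by
        rw [List.length_append]
        omega
      rw [h7]
      rfl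
    · rw [if_neg (by rw [h4]; omega)]

theorem chain_first {l : List ℤ} {i j k : ℕ} {b : Bool} {p : OPiece} {s t : OWord}
    (hp : p = pos j ∨ p = neg j) (hj : j < i) (e : chain l i b ++ death k :: t = p :: s) :
    False := by
  match l with
  | [] =>
    rw [chain, List.nil_append] at e
    injection e with e1 e2
    rcases hp with rfl | rfl <;> simp at e1
  | [n] =>
    rw [chain] at e
    cases hb : band n i with
    | nil =>
      rw [hb, List.nil_append] at e
      injection e with e1 e2
      rcases hp with rfl | rfl <;> simp at e1
    | cons q r =>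
      rw [hb, List.cons_append] at e
      injection e with e1 e2
      have hq : q ∈ band n i := by rw [hb]; exact List.mem_cons_self
      rw [band] at hq
      have := List.eq_of_mem_replicate hq
      subst e1
      split_ifs at this <;> subst this <;> rcases hp with h | h <;> simp at h <;> omega
  | n :: m :: l =>
    rw [chain, List.cons_append] at e
    injection e with e1 e2
    rcases hp with rfl | rfl <;> simp at e1

theorem cross_ne_death {p : OPiece} (hp : IsCross p) {k : ℕ} : p ≠ death k := by
  rintro rfl
  obtain ⟨i, hi | hi⟩ := hp <;> simp at hi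

theorem cross_ne_birth {p : OPiece} (hp : IsCross p) {k : ℕ} {b : Bool} : p ≠ birth k b := by
  rintro rfl
  obtain ⟨i, hi | hi⟩ := hp <;> simp at hi

theorem chain_cons {L : List ℤ} (h : L ≠ []) (n : ℤ) (i : ℕ) (b : Bool) :
    chain (n :: L) i b = birth (i + 1) b :: (band n i ++
      (chain L (i + 2) (!b) ++ [death (i + 1)])) := by
  cases L with
  | nil => exact absurd rfl h
  | cons m l => rfl

theorem chain_split {l : List ℤ} {i : ℕ} {b : Bool} {x s : OWord} {p : OPiece} (hp : IsCross p)
    (e : chain l i b = x ++ p :: p :: s) :
    ∃ l1 n l2, l = l1 ++ n :: l2 ∧ 2 ≤ |n| ∧ chain (l1 ++ red n :: l2) i b = x ++ s := by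
  induction l generalizing i b x s with
  | nil => simp [chain] at e
  | cons n l ih =>
    cases l with
    | nil =>
      rw [chain] at e
      obtain ⟨h1, h2⟩ := band_split e
      exact ⟨[], n, [], rfl, h1, h2.symm⟩
    | cons m l =>
      rw [chain] at e
      cases x with
      | nil =>
        rw [List.nil_append] at e
        injection e with e1 e2
        exact absurd e1.symm (cross_ne_birth hp)
      | cons q x =>
        rw [List.cons_append] at e
        injection e with e1 e2
        subst e1
        have key : ∀ a : OWord, x = band n i ++ a →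
            chain (m :: l) (i + 2) (!b) ++ [death (i + 1)] = a ++ p :: p :: s →
            ∃ l1 n' l2, n :: m :: l = l1 ++ n' :: l2 ∧ 2 ≤ |n'| ∧
              chain (l1 ++ red n' :: l2) i b = birth (i + 1) b :: x ++ s := by
          intro a ha h2
          rcases List.append_eq_append_iff.1 h2 with ⟨a', h3, h4⟩ | ⟨b', h3, h4⟩
          · have := congrArg List.length h4
            simp at this
            omega
          · match b', h3, h4 with
            | [], _, h4 =>
              have := congrArg List.length h4
              simp at this
            | [q], _, h4 =>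
              rw [List.cons_append, List.nil_append] at h4
              injection h4 with h5 h6
              injection h6 with h7 h8
              exact absurd h7 (cross_ne_death hp)
            | q :: q' :: c, h3, h4 =>
              rw [List.cons_append, List.cons_append] at h4
              injection h4 with h5 h6
              injection h6 with h7 h8
              subst h5 h7
              obtain ⟨l1, n', l2, h9, h10, h11⟩ := ih h3
              refine ⟨n :: l1, n', l2, by rw [h9]; rfl, h10, ?_⟩
              rw [List.cons_append, chain_cons (by simp), h11, h8, ha]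
              simp
        rcases List.append_eq_append_iff.1 e2 with ⟨a, h1, h2⟩ | ⟨a, h1, h2⟩
        · exact key a h1 h2
        · match a, h1, h2 with
          | [], h1, h2 =>
            refine key [] (by rw [List.append_nil] at h1 ⊢; exact h1.symm) ?_
            rw [List.nil_append] at h2 ⊢
            exact h2.symm
          | [q], h1, h2 =>
            rw [List.cons_append, List.nil_append] at h2
            injection h2 with h3 h4
            subst h3
            have h5 : p ∈ band n i := by rw [h1]; simp
            rw [band] at h5
            have h6 := List.eq_of_mem_replicate h5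
            have h7 : p = pos i ∨ p = neg i := by
              split_ifs at h6
              · exact Or.inl h6
              · exact Or.inr h6
            exact absurd h4.symm (fun h8 => chain_first h7 (by omega) h8)
          | q :: q' :: c, h1, h2 =>
            rw [List.cons_append, List.cons_append] at h2
            injection h2 with h3 h4
            injection h4 with h5 h6
            subst h3 h5
            obtain ⟨h7, h8⟩ := band_split h1
            refine ⟨[], n, m :: l, rfl, h7, ?_⟩
            rw [List.nil_append, chain_cons (by simp), ← h8, h6]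
            simp

theorem expand_split {w : List Bz} {n : ℕ} (hf : Fits n w) (ha : Evn w) {x s : OWord}
    {p : OPiece} (hp : IsCross p) (e : expand w = x ++ p :: p :: s) :
    ∃ w' l1 k l2, Sim w w' ∧ expand w' = x ++ s ∧ bands w = l1 ++ k :: l2 ∧
      bands w' = l1 ++ red k :: l2 ∧ 2 ≤ |k| := by
  induction w generalizing n x with
  | nil => simp [expand] at e
  | cons q w ih =>
    cases q with
    | b i =>
      rw [expand] at e
      cases x with
      | nil =>
        rw [List.nil_append] at e
        injection e with e1 e2
        exact absurd e1.symm (cross_ne_birth hp)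
      | cons q x =>
        rw [List.cons_append] at e
        injection e with e1 e2
        subst e1
        obtain ⟨w', l1, k, l2, h1, h2, h3, h4, h5⟩ := ih hf.2 ha e2
        exact ⟨.b i :: w', l1, k, l2, And.intro rfl h1, by rw [expand, h2]; rfl, h3, h4, h5⟩
    | d i =>
      rw [expand] at e
      cases x with
      | nil =>
        rw [List.nil_append] at e
        injection e with e1 e2
        exact absurd e1.symm (cross_ne_death hp)
      | cons q x =>
        rw [List.cons_append] at e
        injection e with e1 e2
        subst e1
        obtain ⟨w', l1, k, l2, h1, h2, h3, h4, h5⟩ := ih hf.2 ha e2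
        exact ⟨.d i :: w', l1, k, l2, And.intro rfl h1, by rw [expand, h2]; rfl, h3, h4, h5⟩
    | c i ns =>
      rw [expand] at e
      rcases List.append_eq_append_iff.1 e with ⟨a, h1, h2⟩ | ⟨a, h1, h2⟩
      · obtain ⟨w', l1, k, l2, h3, h4, h5, h6, h7⟩ := ih hf.2 ha.2 h2
        refine ⟨.c i ns :: w', ns ++ l1, k, l2, And.intro rfl (And.intro rfl h3), ?_, ?_, ?_, h7⟩
        · rw [expand, h4, h1, List.append_assoc]
        · rw [bands, h5, List.append_assoc]
        · rw [bands, h6, List.append_assoc]
      · match a, h1, h2 with
        | [], h1, h2 =>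
          exact (first_expand hf.2 ha.2 h2.symm hp).elim
        | [q], h1, h2 =>
          rw [List.cons_append, List.nil_append] at h2
          injection h2 with h3 h4
          exact (first_expand hf.2 ha.2 h4.symm hp).elim
        | q :: q' :: c, h1, h2 =>
          rw [List.cons_append, List.cons_append] at h2
          injection h2 with h3 h4
          injection h4 with h5 h6
          subst h3 h5
          obtain ⟨l1, k, l2, h7, h8, h9⟩ := chain_split hp h1
          refine ⟨.c i (l1 ++ red k :: l2) :: w, l1, k, l2 ++ bands w,
            And.intro rfl (And.intro ?_ (Sim.refl w)), ?_, ?_, ?_, h8⟩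
          · rw [h7]
            simp
          · rw [expand, h9, h6, List.append_assoc]
          · rw [bands, h7]
            simp
          · rw [bands]
            simp

/-! ### comparison of the polynomials -/

theorem hat_ne {w w' : List Bz} (hw : Chained w) (hs : Sim w w') {l1 l2 : List ℤ} {k : ℤ}
    (h1 : bands w = l1 ++ k :: l2) (h2 : bands w' = l1 ++ red k :: l2) (hk : 2 ≤ |k|)
    (h : (∀ n ∈ bands w, n ≠ -1) ∨ (∀ n ∈ bands w, n ≠ 1)) :
    hatq La (expand w) ≠ hatq La (expand w') := by
  intro e
  have hw' := hs.chained hw
  have a := ld_chained hw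
  have a' := ld_chained hw'
  have elen : (bands w').length = (bands w).length := by
    rw [h1, h2]
    simp
  have et : wrt w = l1.sum + (k + l2.sum) := by
    rw [wrt_sum hw, h1]
    simp
  have et' : wrt w' = l1.sum + (red k + l2.sum) := by
    rw [wrt_sum hw', h2]
    simp
  rw [elen, ← hs.bc, ← hs.nch] at a'
  have T := a.top
  have T' := a'.top
  have B := a.bot
  have B' := a'.bot
  rw [← e] at T' B'
  have hzz : zz⁻¹ ^ ((bands w).length + bc w) ≠ 0 := pow_ne_zero _ (inv_ne_zero zz_ne)
  have hzz' : (-zz⁻¹) ^ ((bands w).length + bc w) ≠ 0 :=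
    pow_ne_zero _ (neg_ne_zero.2 (inv_ne_zero zz_ne))
  have hmem : ∀ n ∈ bands w', n ∈ bands w ∨ n = red k := by
    intro n hn
    rw [h2] at hn
    rw [h1]
    simp only [List.mem_append, List.mem_cons] at hn ⊢
    tauto
  rcases h with h | h
  · have hP : (((bands w).map fun n => n + 1).map pk).prod ≠ 0 := pkp_ne (by
      intro n hn
      obtain ⟨j, hj, rfl⟩ := List.mem_map.1 hn
      have := h j hj
      omega)
    rcases le_or_gt 0 k with hk0 | hk0
    · have hr : red k = k - 2 := if_pos hk0
      rw [abs_of_nonneg hk0] at hk
      have hP' : (((bands w').map fun n => n + 1).map pk).prod ≠ 0 := pkp_ne (by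
        intro n hn
        obtain ⟨j, hj, rfl⟩ := List.mem_map.1 hn
        rcases hmem j hj with h3 | h3
        · have := h j h3
          omega
        · omega)
      exact (mul_ne_zero hzz hP') (T'.1.symm.trans (T.2 _ (by omega)))
    · have hr : red k = k + 2 := if_neg (by omega)
      exact (mul_ne_zero hzz hP) (T.1.symm.trans (T'.2 _ (by omega)))
  · have hP : (((bands w).map fun n => n - 1).map pk).prod ≠ 0 := pkp_ne (by
      intro n hn
      obtain ⟨j, hj, rfl⟩ := List.mem_map.1 hn
      have := h j hj
      omega)
    rcases le_or_gt 0 k with hk0 | hk0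
    · have hr : red k = k - 2 := if_pos hk0
      exact (mul_ne_zero hzz' hP) (B.1.symm.trans (B'.2 _ (by omega)))
    · have hr : red k = k + 2 := if_neg (by omega)
      rw [abs_of_neg hk0] at hk
      have hP' : (((bands w').map fun n => n - 1).map pk).prod ≠ 0 := pkp_ne (by
        intro n hn
        obtain ⟨j, hj, rfl⟩ := List.mem_map.1 hn
        rcases hmem j hj with h3 | h3
        · have := h j h3
          omega
        · omega)
      exact (mul_ne_zero hzz' hP') (B'.1.symm.trans (B.2 _ (by omega)))

/-! ### the second Reidemeister move -/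

theorem below_app (u v : OWord) (n : ℕ) (d : ℕ → Bool) :
    below (u ++ v) n d = (below u n d).bind fun s => below v s.1 s.2 := by
  induction u generalizing n d with
  | nil => simp [below]
  | cons p u ih =>
    simp only [List.cons_append, below]
    cases h : p.below n d with
    | none => rfl
    | some s => exact ih _ _

theorem swpD_swpD (i : ℕ) (d : ℕ → Bool) : swpD i (swpD i d) = d := by
  funext k
  unfold swpD
  by_cases h1 : k = i
  · subst h1
    simp
  · by_cases h2 : k = i + 1
    · subst h2
      simp
    · simp [h1, h2]

theorem r2 {x s : OWord} {p : OPiece} (hp : IsCross p) (hc : OClosed (x ++ p :: p :: s)) :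
    (OClosed (x ++ sw p :: p :: s) ∧ OIsotopic (x ++ sw p :: p :: s) (x ++ s)) ∧
    (OClosed (x ++ p :: sw p :: s) ∧ OIsotopic (x ++ p :: sw p :: s) (x ++ s)) := by
  obtain ⟨i, hi⟩ := hp
  rw [OClosed, below_app] at hc
  cases hx : below x 0 noD with
  | none =>
    rw [hx] at hc
    simp at hc
  | some nd =>
    obtain ⟨n, d⟩ := nd
    rw [hx] at hc
    have hin : i + 2 ≤ n := by
      by_contra hcon
      rcases hi with rfl | rfl <;> simp [below, OPiece.below, hcon] at hc
    have hq : ∀ q q' : OPiece, (q = pos i ∨ q = neg i) → (q' = pos i ∨ q' = neg i) →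
        below [q, q'] n d = below [] n d := by
      rintro q q' (rfl | rfl) (rfl | rfl) <;>
        simp [below, OPiece.below, hin, swpD_swpD]
    have hs : (below s n d).map Prod.fst = some 0 := by
      rcases hi with rfl | rfl <;>
        simpa [below, OPiece.below, hin, swpD_swpD] using hc
    have hc0 : OClosed (x ++ [] ++ s) := by
      rw [OClosed, List.append_nil, below_app, hx]
      exact hs
    have hc2 : ∀ q q' : OPiece, (q = pos i ∨ q = neg i) → (q' = pos i ∨ q' = neg i) →
        OClosed (x ++ [q, q'] ++ s) := by
      rintro q q' (rfl | rfl) (rfl | rfl) <;>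
        · rw [OClosed, List.append_assoc, below_app, hx]
          simpa [below, OPiece.below, hin, swpD_swpD] using hs
    have hsw : sw p = pos i ∨ sw p = neg i := by
      rcases hi with rfl | rfl
      · exact Or.inr rfl
      · exact Or.inl rfl
    have key : ∀ q q' : OPiece, (q = pos i ∨ q = neg i) → (q' = pos i ∨ q' = neg i) →
        Pool.Agent.Helper454.Kauf.LocalMove (forget [q, q']) (forget []) →
        OClosed (x ++ q :: q' :: s) ∧ OIsotopic (x ++ q :: q' :: s) (x ++ s) := by
      intro q q' h1 h2 h3
      have h4 := OStep.mk x [q, q'] [] s n d (Or.inl h3) hx (hq q q' h1 h2) (hc2 q q' h1 h2) hc0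
      have h5 : x ++ [q, q'] ++ s = x ++ q :: q' :: s := by simp
      have h6 : x ++ [] ++ s = x ++ s := by simp
      have h7 := hc2 q q' h1 h2
      rw [h5, h6] at h4
      rw [h5] at h7
      exact ⟨h7, Relation.EqvGen.rel _ _ h4⟩
    refine ⟨key _ _ hsw hi ?_, key _ _ hi hsw ?_⟩
    · rcases hi with rfl | rfl
      · exact Pool.Agent.Helper454.Kauf.LocalMove.second₂ i
      · exact Pool.Agent.Helper454.Kauf.LocalMove.second₁ i
    · rcases hi with rfl | rfl
      · exact Pool.Agent.Helper454.Kauf.LocalMove.second₁ i
      · exact Pool.Agent.Helper454.Kauf.LocalMove.second₂ i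

/-- Crossing changes at parallel crossings change the polynomial. -/
theorem main_change {w : List Bz} (hw : Chained w)
    (h : (∀ n ∈ bands w, n ≠ -1) ∨ (∀ n ∈ bands w, n ≠ 1)) {x y : OWord} {p : OPiece}
    (hp : IsCross p) (e : expand w = x ++ p :: p :: y) {E : OWord}
    (hE : E = x ++ sw p :: p :: y ∨ E = x ++ p :: sw p :: y) :
    OClosed E ∧ hatq La (expand w) ≠ hatq La E := by
  have hc := closed_expand hw
  obtain ⟨w', l1, k, l2, h1, h2, h3, h4, h5⟩ := expand_split hw.fits (evn_of hw.even) hp e
  have h6 := hat_ne hw h1 h3 h4 h5 h
  rw [e] at hc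
  obtain ⟨⟨h7, h8⟩, h9, h10⟩ := r2 hp hc
  rw [h2] at h6
  rcases hE with rfl | rfl
  · exact ⟨h7, by rwa [hatq_isotopy h8]⟩
  · exact ⟨h9, by rwa [hatq_isotopy h10]⟩

theorem homfly_change {P : OWord → Rlm} (hP : IsHomfly P) {w : List Bz} (hw : Chained w)
    (h : (∀ n ∈ bands w, n ≠ -1) ∨ (∀ n ∈ bands w, n ≠ 1)) {x y : OWord} {p : OPiece}
    (hp : IsCross p) (e : expand w = x ++ p :: p :: y) {E : OWord}
    (hE : E = x ++ sw p :: p :: y ∨ E = x ++ p :: sw p :: y) :
    OClosed E ∧ P (expand w) ≠ P E := by
  obtain ⟨h1, h2⟩ := main_change hw h hp e hE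
  refine ⟨h1, fun h3 => h2 ?_⟩
  have hne : expand w ≠ [] := by
    rw [e]
    simp
  have hne' : E ≠ [] := by
    rcases hE with rfl | rfl <;> simp
  rw [← hat_of hP (closed_expand hw) hne, ← hat_of hP h1 hne', h3]

end

end Run7.h849.SC
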