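import Pool.Agent.Run7.h849.SC.Csm

/-!
# Full twists along the crossing disk of a crossing
-/

set_option autoImplicit false

namespace Run7.h849.SC

open Pool.Agent.Helper454.Wh (insD delD swpD noD OPiece OWord below forget OClosed OStep OIsotopic
  IsHomfly Rlm dirs)
open Pool.Agent.Helper454.Wh.OPiece (birth death pos neg)
open Pool.Agent.Helper454.Wh.Homf
open Pool.Agent.Helper454.Wh.Homf.Par
open Run7.h849 (cc hatq hatq_isotopy hatq_split lq lq_add lq_zero lq_one ParW alt alt_zero)

noncomputable section

/-- a row of `|m|` crossings side by side, `pos` for `m > 0`, `neg` for `m < 0` -/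
def row (m : ℤ) (i : ℕ) (b : Bool) : OWord := chain (List.replicate m.natAbs m.sign) i b

theorem row_one (i : ℕ) (b : Bool) : row 1 i b = [pos i] := rfl

theorem row_neg_one (i : ℕ) (b : Bool) : row (-1) i b = [neg i] := rfl

theorem ParW_right {u v : OWord} {n : ℕ} {d : ℕ → Bool} {s : ℕ × (ℕ → Bool)}
    (hb : below u n d = some s) (h : ParW (u ++ v) d) : ParW v s.2 := by
  induction u generalizing n d with
  | nil =>
    rw [below] at hb
    injection hb with hb
    subst hb
    exact h
  | cons p u ih =>
    rw [below] at hb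
    cases hp : p.below n d with
    | none =>
      rw [hp] at hb
      simp at hb
    | some t =>
      rw [hp, Option.bind_some] at hb
      have ht := nd_of hp
      refine ih hb ?_
      rw [ht]
      cases p with
      | birth i b => exact h
      | death i => exact h
      | pos i => exact h.2
      | neg i => exact h.2

section
variable {R : Type} [CommRing R] [Par R]

theorem rep_prod_one {l : List ℤ} (h : ∀ n ∈ l, n = 1 ∨ n = -1) : (l.map (pz R)).prod = 1 := by
  induction l with
  | nil => rfl
  | cons k l ih =>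
    rw [List.map_cons, List.prod_cons, ih fun n hn => h n (List.mem_cons_of_mem _ hn), mul_one]
    rcases h k List.mem_cons_self with rfl | rfl
    · show fA R true 1 = 1
      simp [fA]
    · show fA R false (0 + 1) = 1
      simp [fA]

theorem wz_one : wz R 1 = a := by
  have h := z_wz (R := R) 1
  have e1 : pz R (1 + 1) = z := by
    rw [pz_rec (R := R) 1]
    have e2 : pz R 1 = 1 := by
      show fA R true 1 = 1
      simp [fA]
    have e3 : pz R (1 - 1) = 0 := by
      show fA R true 0 = 0
      simp [fA]
    rw [e2, e3]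
    ring
  have e4 : wz R 1 = dl * qz R 1 + a * pz R 1 := rfl
  have e5 : qz R 1 = 0 := by
    show fA R true 0 = 0
    simp [fA]
  have e6 : pz R 1 = 1 := by
    show fA R true 1 = 1
    simp [fA]
  rw [e4, e5, e6]
  ring

theorem pz_m1 : pz R (-1) = 1 := by
  show fA R false (0 + 1) = 1
  simp [fA]

theorem wz_neg_one : wz R (-1) = ai := by
  have e1 : qz R (-1) = -z := by
    show fA R false (1 + 1) = -z
    simp only [fA]
    rw [ze_false]
    show -z * 1 + 0 = (-z : R)
    ring
  have e := h2 (R := R)
  rw [wz, e1, pz_m1]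
  linear_combination -e

theorem lq_nat (k : ℕ) : lq R (k : ℤ) = ai ^ k := by
  induction k with
  | zero => rw [Nat.cast_zero, lq_zero, pow_zero]
  | succ k ih =>
    rw [Nat.cast_succ, lq_add, ih, lq_one, pow_succ]

theorem lq_nat_neg (k : ℕ) : lq R (-(k : ℤ)) = a ^ k := by
  induction k with
  | zero => rw [Nat.cast_zero, neg_zero, lq_zero, pow_zero]
  | succ k ih =>
    rw [Nat.cast_succ, neg_add, lq_add, ih, lq_neg, pow_succ]

theorem row_cf {m : ℤ} (hm : m % 2 = 1) :
    (dl : R) * (cf3 R (List.replicate m.natAbs m.sign)).1 = lq R (-m) - a ∧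
      (cf3 R (List.replicate m.natAbs m.sign)).2 = 1 := by
  have hne : List.replicate m.natAbs m.sign ≠ [] := by
    intro h
    rw [List.replicate_eq_nil_iff] at h
    omega
  have h2 : (cf3 R (List.replicate m.natAbs m.sign)).2 = 1 := by
    rw [cf3_snd hne]
    apply rep_prod_one
    intro n hn
    rw [List.eq_of_mem_replicate hn]
    rcases lt_trichotomy m 0 with h | h | h
    · exact Or.inr (Int.sign_eq_neg_one_of_neg h)
    · omega
    · exact Or.inl (Int.sign_eq_one_of_pos h)
  have h1 := cf3_fst (R := R) hne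
  have hodd : ¬ (List.replicate m.natAbs m.sign).length % 2 = 0 := by
    rw [List.length_replicate]
    omega
  rw [if_neg hodd, h2, mul_one, List.map_replicate, List.prod_replicate] at h1
  refine ⟨?_, h2⟩
  rcases lt_trichotomy m 0 with h | h | h
  · rw [Int.sign_eq_neg_one_of_neg h, wz_neg_one, ← lq_nat] at h1
    have h3 : ((m.natAbs : ℕ) : ℤ) = -m := by omega
    rw [h3] at h1
    rw [Int.sign_eq_neg_one_of_neg h]
    linear_combination h1
  · omega
  · rw [Int.sign_eq_one_of_pos h, wz_one, ← lq_nat_neg] at h1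
    have h3 : ((m.natAbs : ℕ) : ℤ) = m := by omega
    rw [h3] at h1
    rw [Int.sign_eq_one_of_pos h]
    linear_combination h1

theorem row_sum (m : ℤ) : (List.replicate m.natAbs m.sign).sum = m := by
  rw [List.sum_replicate, nsmul_eq_mul, mul_comm]
  exact Int.sign_mul_natAbs m

theorem row_hat {x y : OWord} {n i : ℕ} {d : ℕ → Bool} {b : Bool}
    (hx : below x 0 noD = some (n, d)) (hi : i + 2 ≤ n) (hb : d i = b) (hb' : d (i + 1) = b)
    {m : ℤ} (hm : m % 2 = 1) :
    below (row m i b) n d = some (n, d) ∧
    (dl : R) * hatq R (x ++ row m i b ++ y) = lq R (wr x noD + wr y d) *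
      (opW R (lv 0 x) y (opW R 0 x (v0 R)) [] + lq R m *
        (dl * opW R (lv 0 x) y (Pool.Agent.Helper454.Wh.Homf.X (lv 0 x) true i
          (opW R 0 x (v0 R))) [] - a * opW R (lv 0 x) y (opW R 0 x (v0 R)) [])) := by
  have hne : List.replicate m.natAbs m.sign ≠ [] := by
    intro h
    rw [List.replicate_eq_nil_iff] at h
    omega
  have hodd : ¬ (List.replicate m.natAbs m.sign).length % 2 = 0 := by
    rw [List.length_replicate]
    omega
  have hd' : d (i + 1) = dr2 (List.replicate m.natAbs m.sign) b := by
    rw [dr2, if_neg hodd, hb']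
  have hbl : below (row m i b) n d = some (n, d) := chain_below hne hi hb hd'
  refine ⟨hbl, ?_⟩
  have hx0 : below x (2 * 0) noD = some (n, d) := hx
  obtain ⟨h3, h4⟩ := opW_mem (R := R) (m := 0) hx0 v0_mem
  have h3' : n = 2 * lv 0 x := h3
  have hwr : wr (row m i b) d = m := by
    have := chain_wr hne hi hb hd'
    rw [row_sum] at this
    exact this
  have hlv : lv (lv 0 x) (row m i b) = lv 0 x := chain_lv
  have hop := chain_op (R := R) hne (by omega : i + 2 ≤ 2 * lv 0 x) hb hd' h4
  rw [if_neg hodd] at hop
  obtain ⟨h5, h6⟩ := row_cf (R := R) hm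
  have hs := hatq_split (R := R) (y := y) hx hbl
  rw [hs]
  simp only []
  rw [hwr, hlv]
  have hop' : opW R (lv 0 x) (row m i b) (opW R 0 x (v0 R)) =
      (cf3 R (List.replicate m.natAbs m.sign)).1 • opW R 0 x (v0 R) +
      (cf3 R (List.replicate m.natAbs m.sign)).2 •
        Pool.Agent.Helper454.Wh.Homf.X (lv 0 x) true i (opW R 0 x (v0 R)) := hop
  rw [hop', h6, one_smul, map_smul, map_add, map_smul]
  simp only [Finsupp.smul_apply, Finsupp.add_apply, smul_eq_mul]
  have h7 : lq R m * lq R (-m) = 1 := by
    rw [← lq_add, add_neg_cancel, lq_zero]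
  set e0 := opW R (lv 0 x) y (opW R 0 x (v0 R)) []
  set e1 := opW R (lv 0 x) y (Pool.Agent.Helper454.Wh.Homf.X (lv 0 x) true i
    (opW R 0 x (v0 R))) []
  linear_combination (lq R (wr x noD + wr y d) * lq R m * e0) * h5 +
    (lq R (wr x noD + wr y d) * e0) * h7

end

end

end Run7.h849.SC
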