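import Pool.Agent.Run7.h849.SC.Csn

/-!
# Full twists along the crossing disk of a crossing: conclusion
-/

set_option autoImplicit false

namespace Run7.h849.SC

open Pool.Agent.Helper454.Wh (insD delD swpD noD OPiece OWord below forget OClosed OStep OIsotopic
  IsHomfly Rlm dirs)
open Pool.Agent.Helper454.Wh.OPiece (birth death pos neg)
open Pool.Agent.Helper454.Wh.Homf
open Pool.Agent.Helper454.Wh.Homf.Par
open Run7.h849 (cc hatq hatq_isotopy hatq_split lq lq_add lq_zero lq_one ParW alt alt_zero)

noncomputable section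

theorem T_inj {m n : ℤ} (h : (LaurentPolynomial.T m : La) = LaurentPolynomial.T n) : m = n := by
  have h1 : (Finsupp.single m (1 : Kq)) = Finsupp.single n 1 := congrArg (fun p : La => p.coeff) h
  rw [Finsupp.single_left_inj one_ne_zero] at h1
  exact h1

theorem dl_ne : (dl : La) ≠ 0 := by
  intro h
  have e := h2 (R := La)
  rw [h, mul_zero] at e
  have e2 : (a : La) = ai := by linear_combination -e
  have e3 : (LaurentPolynomial.T 1 : La) = LaurentPolynomial.T (-1) := e2
  have := T_inj e3
  omega

theorem twist_all {x y : OWord} {n i : ℕ} {d : ℕ → Bool}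
    (hx : below x 0 noD = some (n, d)) (hi : i + 2 ≤ n) (hd : d i = d (i + 1))
    (hne : hatq La (x ++ [pos i] ++ y) ≠ hatq La (x ++ [neg i] ++ y)) {m m' : ℤ}
    (hm : m % 2 = 1) (hm' : m' % 2 = 1) (hmm : m ≠ m') :
    hatq La (x ++ row m i (d i) ++ y) ≠ hatq La (x ++ row m' i (d i) ++ y) := by
  intro e
  apply hne
  have h1 := (row_hat (R := La) (y := y) hx hi rfl hd.symm hm).2
  have h2 := (row_hat (R := La) (y := y) hx hi rfl hd.symm hm').2
  have h3 := (row_hat (R := La) (y := y) hx hi rfl hd.symm (m := 1) (by norm_num)).2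
  have h4 := (row_hat (R := La) (y := y) hx hi rfl hd.symm (m := -1) (by norm_num)).2
  rw [e, h2] at h1
  rw [row_one] at h3
  rw [row_neg_one] at h4
  set u := lq La (wr x noD + wr y d)
  have hu : u * lq La (-(wr x noD + wr y d)) = 1 := by
    rw [← lq_add, add_neg_cancel, lq_zero]
  have hu0 : u ≠ 0 := left_ne_zero_of_mul_eq_one hu
  set e0 := opW La (lv 0 x) y (opW La 0 x (v0 La)) []
  set Δ := dl * opW La (lv 0 x) y (Pool.Agent.Helper454.Wh.Homf.X (lv 0 x) true i
          (opW La 0 x (v0 La))) [] - a * e0
  have h5 : (lq La m' - lq La m) * Δ = 0 := by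
    have h6 := mul_left_cancel₀ hu0 h1
    linear_combination h6
  have h7 : lq La m' - lq La m ≠ 0 := by
    intro h8
    rw [sub_eq_zero, lq_La, lq_La] at h8
    have := T_inj h8
    omega
  have h8 : Δ = 0 := (mul_eq_zero.1 h5).resolve_left h7
  rw [h8, mul_zero, add_zero] at h3 h4
  exact mul_left_cancel₀ dl_ne (h3.trans h4.symm)

theorem dirs_of {x : OWord} {n : ℕ} {d : ℕ → Bool} (hx : below x 0 noD = some (n, d)) :
    dirs x = d := by
  rw [dirs, hx]
  rfl

/-- The crossing disks of the crossings in bands with at least two crossings. -/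
theorem main_twist {w : List Bz} (hw : Chained w)
    (h : (∀ n ∈ bands w, n ≠ -1) ∨ (∀ n ∈ bands w, n ≠ 1)) {x y : OWord} {p : OPiece} {i : ℕ}
    (hp : p = pos i ∨ p = neg i) (e : expand w = x ++ p :: y)
    (ht : p ∈ x.getLast? ∨ p ∈ y.head?) :
    (∀ m : ℤ, m % 2 = 1 → OClosed (x ++ row m i (dirs x i) ++ y)) ∧
    ∀ m m' : ℤ, m % 2 = 1 → m' % 2 = 1 → m ≠ m' →
      hatq La (x ++ row m i (dirs x i) ++ y) ≠ hatq La (x ++ row m' i (dirs x i) ++ y) := by
  have hcr : IsCross p := ⟨i, hp⟩
  have key : hatq La (expand w) ≠ hatq La (x ++ sw p :: y) := by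
    rcases ht with ht | ht
    · obtain ⟨x', rfl⟩ : ∃ x', x = x' ++ [p] := by
        rw [Option.mem_def, List.getLast?_eq_some_iff] at ht
        exact ht
      have e' : expand w = x' ++ p :: p :: y := by
        rw [e]
        simp
      have := (main_change hw h hcr e' (Or.inr rfl)).2
      rwa [List.append_assoc]
    · obtain ⟨y', rfl⟩ : ∃ y', y = p :: y' := by
        cases y with
        | nil => simp at ht
        | cons q y' =>
          simp at ht
          exact ⟨y', by rw [ht]⟩
      exact (main_change hw h hcr e (Or.inl rfl)).2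
  have hc := closed_expand hw
  have hpar := expand_par (m := 0) hw.fits (evn_of hw.even)
  rw [alt_zero] at hpar
  rw [e] at hc hpar key
  rw [OClosed, below_app] at hc
  cases hx : below x 0 noD with
  | none =>
    rw [hx] at hc
    simp at hc
  | some nd =>
    obtain ⟨n, d⟩ := nd
    rw [hx] at hc
    have hin : i + 2 ≤ n := by
      by_contra hcon
      rcases hp with rfl | rfl <;> simp [below, OPiece.below, hcon] at hc
    have hpr := ParW_right hx hpar
    have hd : d i = d (i + 1) := by
      rcases hp with rfl | rfl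
      · exact hpr.1
      · exact hpr.1
    have hy : (below y n d).map Prod.fst = some 0 := by
      have hsw : swpD i d = d := swp_same hd
      rcases hp with rfl | rfl <;>
        simpa [below, OPiece.below, hin, hsw] using hc
    have hne : hatq La (x ++ [pos i] ++ y) ≠ hatq La (x ++ [neg i] ++ y) := by
      have e1 : ∀ q : OPiece, x ++ [q] ++ y = x ++ q :: y := fun q => by simp
      rw [e1, e1]
      rcases hp with rfl | rfl
      · exact key
      · exact key.symm
    rw [dirs_of hx]
    refine ⟨fun m hm => ?_, fun m m' hm hm' hmm => twist_all hx hin hd hne hm hm' hmm⟩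
    have hb := (row_hat (R := La) (y := y) hx hin rfl hd.symm hm).1
    rw [OClosed, List.append_assoc, below_app, hx, Option.bind_some, below_app]
    show (Option.bind (below (row m i (d i)) n d) fun s => below y s.1 s.2).map Prod.fst = some 0
    rw [hb]
    exact hy

theorem main_final {w : List Bz} (hw : Chained w)
    (h : (∀ n ∈ bands w, n ≠ -1) ∨ (∀ n ∈ bands w, n ≠ 1)) {x y : OWord} {p : OPiece} {i : ℕ}
    (hp : p = pos i ∨ p = neg i) (e : expand w = x ++ p :: y)
    (ht : p ∈ x.getLast? ∨ p ∈ y.head?) :
    (∀ m : ℤ, m % 2 = 1 → OClosed (x ++ row m i (dirs x i) ++ y)) ∧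
    ∀ P : OWord → Rlm, IsHomfly P → ∀ m m' : ℤ, m % 2 = 1 → m' % 2 = 1 → m ≠ m' →
      P (x ++ row m i (dirs x i) ++ y) ≠ P (x ++ row m' i (dirs x i) ++ y) := by
  obtain ⟨h1, h2⟩ := main_twist hw h hp e ht
  refine ⟨h1, fun P hP m m' hm hm' hmm e3 => h2 m m' hm hm' hmm ?_⟩
  have hne : ∀ m : ℤ, m % 2 = 1 → x ++ row m i (dirs x i) ++ y ≠ [] := by
    intro m hm h4
    have h5 : row m i (dirs x i) = [] := by
      have := congrArg List.length h4
      simp only [List.length_append, List.length_nil] at this
      exact List.eq_nil_of_length_eq_zero (by omega)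
    have h6 : hatq La (x ++ row m i (dirs x i) ++ y) = hatq La (x ++ y) := by rw [h5]; simp
    cases hk : m.natAbs with
    | zero => omega
    | succ k =>
      rw [row, hk, List.replicate_succ] at h5
      cases k with
      | zero =>
        rw [List.replicate_zero, chain, band] at h5
        have h7 := congrArg List.length h5
        rw [List.length_replicate, List.length_nil] at h7
        have : m.sign.natAbs = 0 := h7
        rw [Int.natAbs_eq_zero, Int.sign_eq_zero_iff_zero] at this
        omega
      | succ k =>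
        rw [List.replicate_succ, chain] at h5
        simp at h5
  rw [← hat_of hP (h1 m hm) (hne m hm), ← hat_of hP (h1 m' hm') (hne m' hm'), e3]

theorem main_dirs {w : List Bz} (hw : Chained w) {x y : OWord} {p : OPiece} {i : ℕ}
    (hp : p = pos i ∨ p = neg i) (e : expand w = x ++ p :: y) : dirs x i = dirs x (i + 1) := by
  have hc := closed_expand hw
  have hpar := expand_par (m := 0) hw.fits (evn_of hw.even)
  rw [alt_zero] at hpar
  rw [e] at hc hpar
  rw [OClosed, below_app] at hc
  cases hx : below x 0 noD with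
  | none =>
    rw [hx] at hc
    simp at hc
  | some nd =>
    obtain ⟨n, d⟩ := nd
    have hpr := ParW_right hx hpar
    rw [dirs_of hx]
    rcases hp with rfl | rfl
    · exact hpr.1
    · exact hpr.1

end

end Run7.h849.SC
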