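import Pool.Agent.Run7.h849.SC.Gs

/-!
# The numbers of the bands from the leading coefficients
-/

set_option autoImplicit false

namespace Run7.h849.SC

open Pool.Agent.Helper454.Wh.Homf hiding X
open Pool.Agent.Helper454.Wh.Homf.Par
open Run7.h849 (fA ze)
open Polynomial

noncomputable section

/-! ### products of `1 - X ^ m` -/

/-- the product of the `1 - X ^ m` -/
def cyc (l : List ℕ) : ℤ[X] := (l.map fun m => 1 - X ^ m).prod

theorem cyc_append (l l' : List ℕ) : cyc (l ++ l') = cyc l * cyc l' := by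
  rw [cyc, List.map_append, List.prod_append]
  rfl

theorem cyc_perm {l l' : List ℕ} (h : l.Perm l') : cyc l = cyc l' :=
  (h.map _).prod_eq

theorem cyc_zero {l : List ℕ} (h : ∀ m ∈ l, 1 ≤ m) : (cyc l).eval 0 = 1 := by
  induction l with
  | nil => simp [cyc]
  | cons m l ih =>
    have h1 := h m List.mem_cons_self
    have h2 := ih fun k hk => h k (List.mem_cons_of_mem _ hk)
    rw [cyc] at h2 ⊢
    rw [List.map_cons, List.prod_cons, eval_mul, h2, eval_sub, eval_pow, eval_X, eval_one,
      zero_pow (by omega)]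
    ring

theorem cyc_ne {l : List ℕ} (h : ∀ m ∈ l, 1 ≤ m) : cyc l ≠ 0 := by
  intro h0
  have := cyc_zero h
  rw [h0, eval_zero] at this
  exact zero_ne_one this

theorem cyc_low {μ : ℕ} (hμ : 1 ≤ μ) {l : List ℕ} (h : ∀ m ∈ l, μ ≤ m) :
    (X : ℤ[X]) ^ (μ + 1) ∣ cyc l - (1 - C (l.count μ : ℤ) * X ^ μ) := by
  induction l with
  | nil => simp [cyc]
  | cons m l ih =>
    obtain ⟨q, hq⟩ := ih fun k hk => h k (List.mem_cons_of_mem _ hk)
    have hm := h m List.mem_cons_self
    have e : cyc (m :: l) = (1 - X ^ m) * cyc l := by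
      rw [cyc, List.map_cons, List.prod_cons]
      rfl
    have e2 : cyc l = 1 - C (l.count μ : ℤ) * X ^ μ + X ^ (μ + 1) * q := by
      rw [← hq]
      ring
    obtain ⟨j, rfl⟩ : ∃ j, m = μ + j := ⟨m - μ, by omega⟩
    obtain ⟨ν, rfl⟩ : ∃ ν, μ = ν + 1 := ⟨μ - 1, by omega⟩
    cases j with
    | zero =>
      rw [e, e2, add_zero, List.count_cons_self]
      refine ⟨q * (1 - X ^ (ν + 1)) + C (l.count (ν + 1) : ℤ) * X ^ ν, ?_⟩
      push_cast
      simp only [map_add, map_one]
      ring
    | succ j =>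
      rw [e, e2, List.count_cons_of_ne (by omega)]
      refine ⟨q * (1 - X ^ (ν + 1 + (j + 1))) - X ^ j * (1 - C (l.count (ν + 1) : ℤ) * X ^ (ν + 1)), ?_⟩
      ring

/-- the product determines the numbers -/
theorem cyc_count {l l' : List ℕ} (h : ∀ m ∈ l, 1 ≤ m) (h' : ∀ m ∈ l', 1 ≤ m)
    (e : cyc l = cyc l') (μ : ℕ) : l.count μ = l'.count μ := by
  induction μ using Nat.strong_induction_on with
  | _ μ ih =>
    rcases Nat.eq_zero_or_pos μ with rfl | hμ
    · rw [List.count_eq_zero.2, List.count_eq_zero.2]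
      · intro h0
        have := h' 0 h0
        omega
      · intro h0
        have := h 0 h0
        omega
    · have hsplit : ∀ l : List ℕ, cyc l = cyc (l.filter fun m => decide (m < μ)) *
          cyc (l.filter fun m => !decide (m < μ)) := by
        intro l
        rw [← cyc_append]
        exact cyc_perm (List.filter_append_perm _ l).symm
      have hp : (l.filter fun m => decide (m < μ)).Perm (l'.filter fun m => decide (m < μ)) := by
        rw [List.perm_iff_count]
        intro m
        by_cases hm : m < μ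
        · rw [List.count_filter (by simpa using hm), List.count_filter (by simpa using hm)]
          exact ih m hm
        · rw [List.count_eq_zero.2, List.count_eq_zero.2]
          · intro h0
            have := (List.mem_filter.1 h0).2
            exact hm (by simpa using this)
          · intro h0
            have := (List.mem_filter.1 h0).2
            exact hm (by simpa using this)
      rw [hsplit l, hsplit l', cyc_perm hp] at e
      have e2 := mul_left_cancel₀ (cyc_ne (l := l'.filter fun m => decide (m < μ))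
        fun m hm => h' m (List.mem_filter.1 hm).1) e
      have k1 := cyc_low hμ (l := l.filter fun m => !decide (m < μ)) (fun m hm => by
        have := (List.mem_filter.1 hm).2
        simpa using this)
      have k2 := cyc_low hμ (l := l'.filter fun m => !decide (m < μ)) (fun m hm => by
        have := (List.mem_filter.1 hm).2
        simpa using this)
      rw [e2] at k1
      have k3 := dvd_sub k1 k2
      rw [List.count_filter (by simp), List.count_filter (by simp)] at k3
      have e3 : cyc (l'.filter fun m => !decide (m < μ)) - (1 - C (l.count μ : ℤ) * X ^ μ) -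
          (cyc (l'.filter fun m => !decide (m < μ)) - (1 - C (l'.count μ : ℤ) * X ^ μ)) =
          (C ((l.count μ : ℤ) - (l'.count μ : ℤ)) * X ^ μ : ℤ[X]) := by
        rw [C_sub]
        ring
      rw [e3] at k3
      have k4 := (X_pow_dvd_iff.1 k3) μ (by omega)
      rw [coeff_C_mul, coeff_X_pow_self, mul_one] at k4
      omega

/-! ### the element `vv` -/

def qq : Kq := E 1 + E (-1)

def vv : Kq := -E (-2)

theorem pk_nat (n : ℕ) : pk n * qq = E n * (1 - vv ^ n) := by
  have hxy : E 1 * E (-1) = 1 := E_neg 1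
  have h : ∀ n : ℕ, pk n * qq = E n * (1 - vv ^ n) ∧
      pk (n + 1 : ℕ) * qq = E (n + 1 : ℕ) * (1 - vv ^ (n + 1)) := by
    intro n
    induction n with
    | zero =>
      refine ⟨?_, ?_⟩
      · have : pk ((0 : ℕ) : ℤ) = 0 := rfl
        rw [this, pow_zero, sub_self, zero_mul, mul_zero]
      · have e1 : pk ((0 + 1 : ℕ) : ℤ) = 1 := rfl
        have e2 : E (-2) = E (-1) * E (-1) := by rw [← E_add]; rfl
        rw [e1, zero_add, pow_one, vv, qq, e2, Nat.cast_one]
        linear_combination (-E (-1)) * hxy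
    | succ n ih =>
      refine ⟨ih.2, ?_⟩
      have e1 : pk ((n + 1 + 1 : ℕ) : ℤ) = zz * pk ((n + 1 : ℕ) : ℤ) + pk (n : ℤ) := rfl
      have e2 : E (-2) = E (-1) * E (-1) := by rw [← E_add]; rfl
      have e3 : E ((n + 1 : ℕ) : ℤ) = E n * E 1 := by rw [← E_add]; push_cast; rfl
      have e4 : E ((n + 1 + 1 : ℕ) : ℤ) = E n * E 1 * E 1 := by
        rw [← E_add, ← E_add]
        push_cast
        rfl
      have e5 : (zz : Kq) = E 1 - E (-1) := rfl
      have i1 := ih.1
      have i2 := ih.2
      rw [e3] at i2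
      rw [e1, e4, add_mul, mul_assoc, i1, i2, e5]
      have ev : vv = -(E (-1) * E (-1)) := by rw [vv, e2]
      rw [pow_succ vv (n + 1), pow_succ vv n, ev]
      generalize E (n : ℤ) = A at *
      generalize (-(E (-1) * E (-1))) ^ n = B at *
      generalize E 1 = x at *
      generalize E (-1) = y at *
      have h2 : x * x * (y * y) = 1 := by linear_combination (x * y + 1) * hxy
      linear_combination (-A - A * y ^ 2 * B) * hxy + (A * B + A * B * y ^ 2) * h2
  exact (h n).1

theorem pk_neg (n : ℕ) : pk (-(n : ℤ)) = (-1) ^ (n + 1) * pk n := by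
  rw [pk, pz_neg, fA_alt]
  rfl

theorem qq_eq : qq = E 1 * (1 - vv) := by
  have := pk_nat 1
  rw [pow_one] at this
  have e : pk ((1 : ℕ) : ℤ) = 1 := rfl
  rw [e, one_mul] at this
  exact this

theorem E_ne (n : ℤ) : E n ≠ 0 := by
  intro h
  have := E_neg n
  rw [h, zero_mul] at this
  exact zero_ne_one this

theorem vv_pow (n : ℕ) : vv ^ n = (-1) ^ n * E (-2 * n) := by
  induction n with
  | zero => simp [E_zero]
  | succ n ih =>
    rw [pow_succ, ih, vv, pow_succ]
    have : E (-2 * ((n + 1 : ℕ) : ℤ)) = E (-2 * (n : ℤ)) * E (-2) := by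
      rw [← E_add]
      congr 1
      push_cast
      ring
    rw [this]
    ring

/-- the value of an integer polynomial at `vv` -/
def vh : ℤ[X] →+* Kq := eval₂RingHom (Int.castRingHom Kq) vv

theorem vh_X : vh X = vv := by
  show eval₂ _ _ X = vv
  rw [eval₂_X]

theorem vh_sum (P : ℤ[X]) : vh P = ∑ i ∈ Finset.range (P.natDegree + 1),
    (P.coeff i : Kq) * vv ^ i := by
  show eval₂ _ _ P = _
  rw [eval₂_eq_sum_range]
  rfl

/-- `vv` is transcendental -/
theorem vv_trans {P : ℤ[X]} (h : vh P = 0) : P = 0 := by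
  classical
  have h1 : vh P = ι (∑ i ∈ Finset.range (P.natDegree + 1),
      PowerSeries.C ((P.coeff i : ℚ) * (-1) ^ i) * EE (-2 * i)) := by
    rw [vh_sum, map_sum]
    refine Finset.sum_congr rfl fun i _ => ?_
    have hC : PowerSeries.C ((P.coeff i : ℚ) * (-1) ^ i) =
        ((P.coeff i : ℤ) : PowerSeries ℚ) * (-1) ^ i := by
      rw [map_mul, map_pow, map_neg, map_one, map_intCast]
    rw [vv_pow, hC, map_mul, map_mul, map_pow, map_neg, map_one, map_intCast, E, mul_assoc]
  rw [h1] at h
  have h2 : ∀ k : ℕ, ∑ i ∈ Finset.range (P.natDegree + 1),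
      (P.coeff i : ℚ) * (-1) ^ i * ((-2 * i : ℤ) : ℚ) ^ k = 0 := by
    intro k
    have h3 := congrArg (fun x : Kq => x.coeff (k : ℤ)) h
    rw [ι_coeff, map_sum] at h3
    have e : ∀ i ∈ Finset.range (P.natDegree + 1), PowerSeries.coeff k
        (PowerSeries.C ((P.coeff i : ℚ) * (-1) ^ i) * EE (-2 * i)) =
        ((P.coeff i : ℚ) * (-1) ^ i * ((-2 * i : ℤ) : ℚ) ^ k) * (1 / (k.factorial : ℚ)) := by
      intro i _
      rw [PowerSeries.coeff_C_mul, coeff_EE]
      ring
    rw [Finset.sum_congr rfl e, ← Finset.sum_mul] at h3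
    rcases mul_eq_zero.1 h3 with h5 | h5
    · exact h5
    · exfalso
      have : (k.factorial : ℚ) ≠ 0 := by exact_mod_cast k.factorial_ne_zero
      rw [one_div, inv_eq_zero] at h5
      exact this h5
  have hinj : Function.Injective (fun i : ℕ => (-2 * (i : ℤ) : ℤ)) := by
    intro i j hij
    simp only at hij
    omega
  have hna : ∀ i : ℕ, (-2 * (i : ℤ) : ℤ).natAbs / 2 = i := by
    intro i
    omega
  have h3 := vander ((Finset.range (P.natDegree + 1)).image fun i : ℕ => (-2 * (i : ℤ) : ℤ))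
    (fun n => (P.coeff (n.natAbs / 2) : ℚ) * (-1) ^ (n.natAbs / 2)) (fun k _ => by
      rw [Finset.sum_image fun i _ j _ hij => hinj hij]
      simp only [hna]
      exact h2 k)
  ext i
  rw [coeff_zero]
  by_cases hi : i < P.natDegree + 1
  · have := h3 (-2 * (i : ℤ)) (Finset.mem_image_of_mem _ (Finset.mem_range.2 hi))
    rw [hna] at this
    rcases mul_eq_zero.1 this with h4 | h4
    · exact_mod_cast h4
    · exact absurd h4 (pow_ne_zero _ (by norm_num))
  · exact coeff_eq_zero_of_natDegree_lt (by omega)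

theorem vv_inj {P Q : ℤ[X]} (h : vh P = vh Q) : P = Q := by
  rw [← sub_eq_zero]
  refine vv_trans ?_
  rw [map_sub, h, sub_self]

theorem one_vv : (1 - vv : Kq) ≠ 0 := by
  intro h
  have h1 : vh (1 - X : ℤ[X]) = 0 := by
    rw [map_sub, map_one, vh_X]
    exact h
  have h2 := vv_trans h1
  have h3 := congrArg (fun p : ℤ[X] => p.eval 0) h2
  simp at h3

theorem qq_ne : qq ≠ 0 := by
  rw [qq_eq]
  exact mul_ne_zero (E_ne 1) one_vv

theorem pk_ne {n : ℤ} (hn : n ≠ 0) : pk n ≠ 0 := by
  have key : ∀ k : ℕ, k ≠ 0 → pk k ≠ 0 := by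
    intro k hk h
    have h1 := pk_nat k
    rw [h, zero_mul] at h1
    rcases mul_eq_zero.1 h1.symm with h2 | h2
    · exact E_ne _ h2
    · have h3 : vh (1 - X ^ k : ℤ[X]) = 0 := by
        rw [map_sub, map_one, map_pow, vh_X]
        exact h2
      have h4 := congrArg (fun p : ℤ[X] => p.eval 0) (vv_trans h3)
      simp [zero_pow hk] at h4
  obtain ⟨k, rfl | rfl⟩ := n.eq_nat_or_neg
  · exact key k (by omega)
  · rw [pk_neg]
    exact mul_ne_zero (pow_ne_zero _ (by norm_num)) (key k (by omega))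

/-- one factor -/
theorem pk_form (n : ℤ) : ∃ (e : ℤ) (s : Kq), s ^ 2 = 1 ∧
    pk n * (1 - vv) = s * E e * (1 - vv ^ n.natAbs) := by
  have key : ∀ k : ℕ, pk k * (1 - vv) = 1 * E (k - 1) * (1 - vv ^ k) := by
    intro k
    have h1 := pk_nat k
    rw [qq_eq] at h1
    have h2 : E (k : ℤ) = E (k - 1) * E 1 := by rw [← E_add]; congr 1; ring
    rw [h2] at h1
    apply mul_left_cancel₀ (E_ne 1)
    linear_combination h1
  obtain ⟨k, rfl | rfl⟩ := n.eq_nat_or_neg
  · exact ⟨k - 1, 1, one_pow 2, by rw [Int.natAbs_natCast]; exact key k⟩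
  · refine ⟨k - 1, (-1) ^ (k + 1), by rw [← pow_mul, mul_comm, pow_mul]; norm_num, ?_⟩
    rw [pk_neg, Int.natAbs_neg, Int.natAbs_natCast]
    linear_combination ((-1) ^ (k + 1)) * key k

theorem pk_list (l : List ℤ) : ∃ (e : ℤ) (s : Kq), s ^ 2 = 1 ∧
    (l.map pk).prod * (1 - vv) ^ l.length = s * E e * vh (cyc (l.map Int.natAbs)) := by
  induction l with
  | nil => exact ⟨0, 1, one_pow 2, by simp [cyc, E_zero]⟩
  | cons n l ih =>
    obtain ⟨e, s, h1, h2⟩ := ih
    obtain ⟨e', s', h3, h4⟩ := pk_form n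
    refine ⟨e' + e, s' * s, by rw [mul_pow, h1, h3, one_mul], ?_⟩
    have h5 : cyc ((n :: l).map Int.natAbs) = (1 - X ^ n.natAbs) * cyc (l.map Int.natAbs) := by
      rw [cyc, List.map_cons, List.map_cons, List.prod_cons]
      rfl
    rw [h5, map_mul, map_sub, map_one, map_pow, vh_X, List.map_cons, List.prod_cons,
      List.length_cons, pow_succ, E_add]
    linear_combination (s * E e * vh (cyc (l.map Int.natAbs))) * h4 +
      (pk n * (1 - vv)) * h2

/-- equal products have equal numbers of factors of each size at least two -/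
theorem pk_count {l l' : List ℤ} (h : ∀ n ∈ l, n ≠ 0) (h' : ∀ n ∈ l', n ≠ 0)
    (e : (l.map pk).prod = (l'.map pk).prod) {m : ℕ} (hm : 2 ≤ m) :
    (l.map Int.natAbs).count m = (l'.map Int.natAbs).count m := by
  obtain ⟨e1, s1, h1, h2⟩ := pk_list l
  obtain ⟨e2, s2, h3, h4⟩ := pk_list l'
  set f := cyc (l.map Int.natAbs ++ List.replicate l'.length 1) with hf
  set g := cyc (l'.map Int.natAbs ++ List.replicate l.length 1) with hg
  have hrep : ∀ k : ℕ, cyc (List.replicate k 1) = (1 - X) ^ k := by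
    intro k
    rw [cyc, List.map_replicate, List.prod_replicate, pow_one]
  have hone : vh (1 - X : ℤ[X]) = 1 - vv := by rw [map_sub, map_one, vh_X]
  have hf1 : ∀ m ∈ l.map Int.natAbs ++ List.replicate l'.length 1, 1 ≤ m := by
    intro m hm
    rcases List.mem_append.1 hm with k | k
    · obtain ⟨n, k1, rfl⟩ := List.mem_map.1 k
      have := h n k1
      omega
    · rw [List.eq_of_mem_replicate k]
  have hg1 : ∀ m ∈ l'.map Int.natAbs ++ List.replicate l.length 1, 1 ≤ m := by
    intro m hm
    rcases List.mem_append.1 hm with k | k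
    · obtain ⟨n, k1, rfl⟩ := List.mem_map.1 k
      have := h' n k1
      omega
    · rw [List.eq_of_mem_replicate k]
  have hfv : vh f = vh (cyc (l.map Int.natAbs)) * (1 - vv) ^ l'.length := by
    rw [hf, cyc_append, map_mul, hrep, map_pow, hone]
  have hgv : vh g = vh (cyc (l'.map Int.natAbs)) * (1 - vv) ^ l.length := by
    rw [hg, cyc_append, map_mul, hrep, map_pow, hone]
  have key : s1 * E e1 * vh f = s2 * E e2 * vh g := by
    rw [hfv, hgv, ← mul_assoc, ← mul_assoc, ← h2, ← h4, e]
    ring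
  have key2 : E (2 * e1) * vh f ^ 2 = E (2 * e2) * vh g ^ 2 := by
    have h5 : ∀ e : ℤ, E (2 * e) = E e ^ 2 := by
      intro e
      rw [sq, ← E_add]
      congr 1
      ring
    rw [h5, h5]
    have h6 := congrArg (fun x => x ^ 2) key
    simp only [mul_pow, h1, h3, one_mul] at h6
    exact h6
  have hEv : ∀ k : ℕ, E (-2 * k) = vh ((-X) ^ k : ℤ[X]) := by
    intro k
    rw [map_pow, map_neg, vh_X, neg_pow, vv_pow, ← mul_assoc, ← mul_pow]
    norm_num
  have hsq : f ^ 2 = g ^ 2 := by
    have main : ∀ (f g : ℤ[X]) (k : ℕ), f.eval 0 = 1 → g.eval 0 = 1 →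
        vh ((-X) ^ k : ℤ[X]) * vh f ^ 2 = vh g ^ 2 → f ^ 2 = g ^ 2 := by
      intro f g k h0 h0' hk
      rw [← map_pow, ← map_pow, ← map_mul] at hk
      have h6 := vv_inj hk
      have h7 := congrArg (fun p : ℤ[X] => p.eval 0) h6
      simp only [eval_mul, eval_pow, eval_neg, eval_X, neg_zero, h0, h0', one_pow, mul_one] at h7
      have h8 : k = 0 := by
        by_contra hne
        rw [zero_pow hne] at h7
        exact zero_ne_one h7
      rw [h8, pow_zero, one_mul] at h6
      exact h6
    rcases le_total e1 e2 with h5 | h5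
    · obtain ⟨k, hk⟩ := Int.eq_ofNat_of_zero_le (sub_nonneg.2 h5)
      refine main f g k (cyc_zero hf1) (cyc_zero hg1) ?_
      rw [← hEv]
      have h6 : E (-2 * k) * E (2 * e2) = E (2 * e1) := by
        rw [← E_add]
        congr 1
        have : (k : ℤ) = e2 - e1 := hk.symm
        rw [this]
        ring
      apply mul_left_cancel₀ (E_ne (2 * e2))
      rw [← key2, ← h6]
      ring
    · obtain ⟨k, hk⟩ := Int.eq_ofNat_of_zero_le (sub_nonneg.2 h5)
      refine (main g f k (cyc_zero hg1) (cyc_zero hf1) ?_).symm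
      rw [← hEv]
      have h6 : E (-2 * k) * E (2 * e1) = E (2 * e2) := by
        rw [← E_add]
        congr 1
        have : (k : ℤ) = e1 - e2 := hk.symm
        rw [this]
        ring
      apply mul_left_cancel₀ (E_ne (2 * e1))
      rw [key2, ← h6]
      ring
  have hfg : f = g := by
    rcases sq_eq_sq_iff_eq_or_eq_neg.1 hsq with h5 | h5
    · exact h5
    · exfalso
      have h6 := congrArg (fun p : ℤ[X] => p.eval 0) h5
      simp only [eval_neg] at h6
      rw [cyc_zero hf1, cyc_zero hg1] at h6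
      norm_num at h6
  have := cyc_count hf1 hg1 hfg m
  rw [List.count_append, List.count_append, List.count_replicate, List.count_replicate] at this
  have h1m : (1 == m) = false := by
    rw [beq_eq_false_iff_ne]
    omega
  rw [h1m] at this
  simpa using this

/-! ### the multiset of the numbers -/

theorem count_map_natAbs (l : List ℤ) (s : ℤ) {m : ℕ} (hm : 1 ≤ m) :
    ((l.map fun n => n + s).map Int.natAbs).count m =
      l.count ((m : ℤ) - s) + l.count (-(m : ℤ) - s) := by
  induction l with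
  | nil => simp
  | cons n l ih =>
    rw [List.map_cons, List.map_cons, List.count_cons, List.count_cons, List.count_cons, ih]
    have : (if ((n + s).natAbs == m) = true then 1 else 0) =
        (if (n == (m : ℤ) - s) = true then 1 else 0) + (if (n == -(m : ℤ) - s) = true then 1 else 0) := by
      by_cases h1 : n = (m : ℤ) - s
      · have h2 : ¬ n = -(m : ℤ) - s := by omega
        rw [if_pos (by rw [beq_iff_eq]; omega), if_pos (by rw [beq_iff_eq]; exact h1),
          if_neg (by rw [beq_iff_eq]; exact h2)]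
      · by_cases h2 : n = -(m : ℤ) - s
        · rw [if_pos (by rw [beq_iff_eq]; omega), if_neg (by rw [beq_iff_eq]; exact h1),
            if_pos (by rw [beq_iff_eq]; exact h2)]
        · rw [if_neg (by rw [beq_iff_eq]; omega), if_neg (by rw [beq_iff_eq]; exact h1),
            if_neg (by rw [beq_iff_eq]; exact h2)]
    omega

theorem perm_counts {l l' : List ℤ} (h : ∀ n ∈ l, 2 ≤ |n|) (h' : ∀ n ∈ l', 2 ≤ |n|)
    (e1 : ∀ m : ℕ, 2 ≤ m → ((l.map fun n => n + 1).map Int.natAbs).count m =
      ((l'.map fun n => n + 1).map Int.natAbs).count m)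
    (e2 : ∀ m : ℕ, 2 ≤ m → ((l.map fun n => n - 1).map Int.natAbs).count m =
      ((l'.map fun n => n - 1).map Int.natAbs).count m) : l.Perm l' := by
  have P1 : ∀ m : ℕ, 2 ≤ m → l.count ((m : ℤ) - 1) + l.count (-(m : ℤ) - 1) =
      l'.count ((m : ℤ) - 1) + l'.count (-(m : ℤ) - 1) := by
    intro m hm
    have := e1 m hm
    rwa [count_map_natAbs l 1 (by omega), count_map_natAbs l' 1 (by omega)] at this
  have P2 : ∀ m : ℕ, 2 ≤ m → l.count ((m : ℤ) - -1) + l.count (-(m : ℤ) - -1) =
      l'.count ((m : ℤ) - -1) + l'.count (-(m : ℤ) - -1) := by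
    intro m hm
    have := e2 m hm
    have e : ∀ l : List ℤ, (l.map fun n => n - 1) = l.map fun n => n + -1 := fun l => rfl
    rwa [e, e, count_map_natAbs l (-1) (by omega), count_map_natAbs l' (-1) (by omega)] at this
  -- large numbers do not occur
  obtain ⟨M, hM⟩ : ∃ M : ℕ, ∀ n : ℤ, (M : ℤ) < |n| → l.count n = 0 ∧ l'.count n = 0 := by
    refine ⟨(l.map Int.natAbs).sum + (l'.map Int.natAbs).sum, fun n hn => ⟨?_, ?_⟩⟩
    · rw [List.count_eq_zero]
      intro hm
      have := List.single_le_sum (l := l.map Int.natAbs) (fun _ _ => Nat.zero_le _) _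
        (List.mem_map_of_mem hm)
      rw [Int.abs_eq_natAbs] at hn
      omega
    · rw [List.count_eq_zero]
      intro hm
      have := List.single_le_sum (l := l'.map Int.natAbs) (fun _ _ => Nat.zero_le _) _
        (List.mem_map_of_mem hm)
      rw [Int.abs_eq_natAbs] at hn
      omega
  -- positive numbers
  have stepP : ∀ n : ℕ, 1 ≤ n → (l.count (n : ℤ) : ℤ) - l'.count (n : ℤ) =
      l.count ((n + 4 : ℕ) : ℤ) - l'.count ((n + 4 : ℕ) : ℤ) := by
    intro n hn
    have a1 := P1 (n + 1) (by omega)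
    have a2 := P2 (n + 3) (by omega)
    have b1 : ((n + 1 : ℕ) : ℤ) - 1 = n := by push_cast; ring
    have b2 : -((n + 1 : ℕ) : ℤ) - 1 = -(n + 2 : ℤ) := by push_cast; ring
    have b3 : ((n + 3 : ℕ) : ℤ) - -1 = ((n + 4 : ℕ) : ℤ) := by push_cast; ring
    have b4 : -((n + 3 : ℕ) : ℤ) - -1 = -(n + 2 : ℤ) := by push_cast; ring
    rw [b1, b2] at a1
    rw [b3, b4] at a2
    omega
  have stepN : ∀ n : ℕ, 1 ≤ n → (l.count (-(n : ℤ)) : ℤ) - l'.count (-(n : ℤ)) =
      l.count (-((n + 4 : ℕ) : ℤ)) - l'.count (-((n + 4 : ℕ) : ℤ)) := by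
    intro n hn
    have a1 := P2 (n + 1) (by omega)
    have a2 := P1 (n + 3) (by omega)
    have b1 : ((n + 1 : ℕ) : ℤ) - -1 = (n + 2 : ℤ) := by push_cast; ring
    have b2 : -((n + 1 : ℕ) : ℤ) - -1 = -(n : ℤ) := by push_cast; ring
    have b3 : ((n + 3 : ℕ) : ℤ) - 1 = (n + 2 : ℤ) := by push_cast; ring
    have b4 : -((n + 3 : ℕ) : ℤ) - 1 = -((n + 4 : ℕ) : ℤ) := by push_cast; ring
    rw [b1, b2] at a1
    rw [b3, b4] at a2
    omega
  have iterP : ∀ k n : ℕ, 1 ≤ n → (l.count (n : ℤ) : ℤ) - l'.count (n : ℤ) =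
      l.count ((n + 4 * k : ℕ) : ℤ) - l'.count ((n + 4 * k : ℕ) : ℤ) := by
    intro k n hn
    induction k with
    | zero => rfl
    | succ k ih =>
      rw [ih, stepP (n + 4 * k) (by omega), show n + 4 * k + 4 = n + 4 * (k + 1) by ring]
  have iterN : ∀ k n : ℕ, 1 ≤ n → (l.count (-(n : ℤ)) : ℤ) - l'.count (-(n : ℤ)) =
      l.count (-((n + 4 * k : ℕ) : ℤ)) - l'.count (-((n + 4 * k : ℕ) : ℤ)) := by
    intro k n hn
    induction k with
    | zero => rfl
    | succ k ih =>
      rw [ih, stepN (n + 4 * k) (by omega), show n + 4 * k + 4 = n + 4 * (k + 1) by ring]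
  rw [List.perm_iff_count]
  intro n
  rcases lt_trichotomy n 0 with hn | rfl | hn
  · obtain ⟨k, rfl⟩ : ∃ k : ℕ, n = -(k : ℤ) := ⟨n.natAbs, by omega⟩
    have := iterN (M + 1) k (by omega)
    have hz := hM (-((k + 4 * (M + 1) : ℕ) : ℤ)) (by
      rw [abs_neg, Nat.abs_cast]
      push_cast
      omega)
    rw [hz.1, hz.2] at this
    omega
  · have h1 : l.count 0 = 0 := by
      rw [List.count_eq_zero]
      intro hm
      have := h 0 hm
      norm_num at this
    have h2 : l'.count 0 = 0 := by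
      rw [List.count_eq_zero]
      intro hm
      have := h' 0 hm
      norm_num at this
    rw [h1, h2]
  · obtain ⟨k, rfl⟩ : ∃ k : ℕ, n = (k : ℤ) := ⟨n.natAbs, by omega⟩
    have := iterP (M + 1) k (by omega)
    have hz := hM ((k + 4 * (M + 1) : ℕ) : ℤ) (by
      rw [Nat.abs_cast]
      push_cast
      omega)
    rw [hz.1, hz.2] at this
    omega

end

end Run7.h849.SC
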