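import Pool.Agent.Run7.h849.Base

/-!
# Comparison of the HOMFLY operators for two sets of parameters

`Γ` is a subring of `R × R'` which contains the pairs of the parameters. The operators respect the
relation that all pairs of coefficients are in `Γ`.
-/

set_option autoImplicit false

namespace Run7.h849.SC

open Pool.Agent.Helper454.Wh (insD delD swpD noD OPiece OWord below forget OClosed OStep OIsotopic)
open Pool.Agent.Helper454.Wh.OPiece (birth death pos neg)
open Pool.Agent.Helper454.Wh.Homf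
open Pool.Agent.Helper454.Wh.Homf.Par

noncomputable section

set_option linter.unusedSectionVars false

section
variable {R R' : Type} [CommRing R] [CommRing R'] (Γ : Subring (R × R'))

/-- all pairs of coefficients are in `Γ` -/
def Vr (v : V R) (v' : V R') : Prop := ∀ t, (v t, v' t) ∈ Γ

/-- the operators respect `Γ` -/
def Or (F : V R →ₗ[R] V R) (F' : V R' →ₗ[R'] V R') : Prop :=
  ∀ t, Vr Γ (F (Finsupp.single t 1)) (F' (Finsupp.single t 1))

variable {Γ}

theorem Vr.add {u v : V R} {u' v' : V R'} (h : Vr Γ u u') (k : Vr Γ v v') :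
    Vr Γ (u + v) (u' + v') := fun t => Γ.add_mem (h t) (k t)

theorem Vr.sub {u v : V R} {u' v' : V R'} (h : Vr Γ u u') (k : Vr Γ v v') :
    Vr Γ (u - v) (u' - v') := fun t => Γ.sub_mem (h t) (k t)

theorem Vr.smul {c : R} {c' : R'} (hc : (c, c') ∈ Γ) {u : V R} {u' : V R'} (h : Vr Γ u u') :
    Vr Γ (c • u) (c' • u') := fun t => Γ.mul_mem hc (h t)

theorem Vr.zero : Vr Γ (0 : V R) (0 : V R') := fun _ => Γ.zero_mem

theorem Vr.single (t : List (ℕ × Bool)) {c : R} {c' : R'} (hc : (c, c') ∈ Γ) :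
    Vr Γ (Finsupp.single t c) (Finsupp.single t c') := by
  intro s
  by_cases h : t = s
  · subst h
    simpa using hc
  · rw [Finsupp.single_eq_of_ne' h, Finsupp.single_eq_of_ne' h]
    exact Γ.zero_mem

theorem Or.app {F : V R →ₗ[R] V R} {F' : V R' →ₗ[R'] V R'} (hF : Or Γ F F') {v : V R} {v' : V R'}
    (h : Vr Γ v v') : Vr Γ (F v) (F' v') := by
  classical
  have e : ∀ {A : Type} [CommRing A] (G : V A →ₗ[A] V A) (u : V A) (T : Finset (List (ℕ × Bool))),
      u.support ⊆ T → G u = ∑ t ∈ T, u t • G (Finsupp.single t 1) := by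
    intro A _ G u T hT
    conv_lhs => rw [← Finsupp.sum_single u]
    rw [Finsupp.sum, map_sum, Finset.sum_subset hT]
    · refine Finset.sum_congr rfl fun t _ => ?_
      rw [← map_smul, Finsupp.smul_single, smul_eq_mul, mul_one]
    · intro t _ ht
      rw [Finsupp.notMem_support_iff.1 ht, Finsupp.single_zero, map_zero]
  rw [e F v (v.support ∪ v'.support) Finset.subset_union_left,
    e F' v' (v.support ∪ v'.support) Finset.subset_union_right]
  intro s
  rw [Finsupp.finsetSum_apply, Finsupp.finsetSum_apply]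
  have : ((∑ t ∈ v.support ∪ v'.support, (v t • F (Finsupp.single t 1)) s : R),
      (∑ t ∈ v.support ∪ v'.support, (v' t • F' (Finsupp.single t 1)) s : R')) =
      ∑ t ∈ v.support ∪ v'.support, ((v t • F (Finsupp.single t 1)) s,
        (v' t • F' (Finsupp.single t 1)) s) := by
    rw [Prod.ext_iff, Prod.fst_sum, Prod.snd_sum]
    exact ⟨rfl, rfl⟩
  rw [this]
  exact Γ.sum_mem fun t _ => Γ.mul_mem (h t) (hF t s)

theorem Or.comp {F G : V R →ₗ[R] V R} {F' G' : V R' →ₗ[R'] V R'} (hF : Or Γ F F')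
    (hG : Or Γ G G') : Or Γ (F.comp G) (F'.comp G') := fun t => hF.app (hG t)

theorem Or.id : Or Γ (LinearMap.id : V R →ₗ[R] V R) LinearMap.id :=
  fun t => Vr.single t Γ.one_mem

theorem Or.add {F G : V R →ₗ[R] V R} {F' G' : V R' →ₗ[R'] V R'} (hF : Or Γ F F')
    (hG : Or Γ G G') : Or Γ (F + G) (F' + G') := fun t => (hF t).add (hG t)

theorem Or.sub {F G : V R →ₗ[R] V R} {F' G' : V R' →ₗ[R'] V R'} (hF : Or Γ F F')
    (hG : Or Γ G G') : Or Γ (F - G) (F' - G') := fun t => (hF t).sub (hG t)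

theorem Or.smul {c : R} {c' : R'} (hc : (c, c') ∈ Γ) {F : V R →ₗ[R] V R}
    {F' : V R' →ₗ[R'] V R'} (hF : Or Γ F F') : Or Γ (c • F) (c' • F') :=
  fun t => (hF t).smul hc

theorem Or.P (e : ℕ) (b : Bool) : Or Γ (P e b : V R →ₗ[R] V R) (P e b) := by
  intro t
  rw [P_single, P_single]
  exact Vr.single _ Γ.one_mem

theorem Or.B (l : ℕ) (b : Bool) : Or Γ (B l b : V R →ₗ[R] V R) (B l b) := by
  intro t
  rw [Pool.Agent.Helper454.Wh.Homf.B, Pool.Agent.Helper454.Wh.Homf.B, Finsupp.lmapDomain_apply,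
    Finsupp.lmapDomain_apply, Finsupp.mapDomain_single, Finsupp.mapDomain_single]
  exact Vr.single _ Γ.one_mem

theorem Or.blk {F : ℕ → Bool → V R →ₗ[R] V R} {F' : ℕ → Bool → V R' →ₗ[R'] V R'}
    (h : ∀ e b, Or Γ (F e b) (F' e b)) : Or Γ (blk F) (blk F') := by
  intro t
  rw [Pool.Agent.Helper454.Wh.Homf.blk, Pool.Agent.Helper454.Wh.Homf.blk,
    Finsupp.linearCombination_single, Finsupp.linearCombination_single, one_smul, one_smul]
  cases t with
  | nil => exact Vr.zero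
  | cons p t => exact h p.1 p.2 t

theorem Or.pr (j : ℕ) (c : Bool) : Or Γ (pr j c : V R →ₗ[R] V R) (pr j c) := by
  intro t
  rw [Pool.Agent.Helper454.Wh.Homf.pr, Pool.Agent.Helper454.Wh.Homf.pr,
    Finsupp.linearCombination_single, Finsupp.linearCombination_single, one_smul, one_smul]
  split_ifs
  · exact Vr.single _ Γ.one_mem
  · exact Vr.zero

theorem Or.Nn {Y : ℕ → V R →ₗ[R] V R} {Y' : ℕ → V R' →ₗ[R'] V R'} (h : ∀ j, Or Γ (Y j) (Y' j))
    (s k : ℕ) : Or Γ (Nn Y s k) (Nn Y' s k) := by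
  induction k with
  | zero => exact Or.id
  | succ k ih => exact (h _).comp ih

theorem Or.Ll {Y : ℕ → V R →ₗ[R] V R} {Y' : ℕ → V R' →ₗ[R'] V R'} (h : ∀ j, Or Γ (Y j) (Y' j))
    (k : ℕ) : Or Γ (Ll Y k) (Ll Y' k) := by
  induction k with
  | zero => exact Or.id
  | succ k ih => exact ih.comp (h _)

variable [Par R] [Par R']

/-- the parameters are in `Γ` -/
structure PG (Γ : Subring (R × R')) : Prop where
  ha : ((a : R), (a : R')) ∈ Γ
  hai : ((ai : R), (ai : R')) ∈ Γ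
  hz : ((z : R), (z : R')) ∈ Γ
  hdl : ((dl : R), (dl : R')) ∈ Γ

variable (hΓ : PG Γ)
include hΓ

theorem Or.Xp {Y : Bool → ℕ → V R →ₗ[R] V R} {Y' : Bool → ℕ → V R' →ₗ[R'] V R'}
    (h : ∀ s j, Or Γ (Y s j) (Y' s j)) (s : Bool) (j : ℕ) : Or Γ (Xp Y s j) (Xp Y' s j) := by
  refine Or.blk fun e b => ?_
  split_ifs
  · exact (Or.P _ _).comp (h _ _)
  · exact (Or.P _ _).comp (h _ _)
  · exact (Or.P _ _).add (Or.smul hΓ.hz (((Or.P _ _).comp (Or.pr _ _)).sub
      ((Or.B _ _).comp ((Or.Ll (h true) _).comp (Or.pr _ _)))))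
  · exact Or.P _ _
  · exact Or.P _ _
  · exact (Or.P _ _).sub (Or.smul hΓ.hz (((Or.P _ _).comp (Or.pr _ _)).sub
      (Or.smul hΓ.ha ((Or.B _ _).comp ((Or.Ll (h true) _).comp (Or.pr _ _))))))

theorem Or.X0 {Y : Bool → ℕ → V R →ₗ[R] V R} {Y' : Bool → ℕ → V R' →ₗ[R'] V R'}
    (h : ∀ s j, Or Γ (Y s j) (Y' s j)) (s : Bool) : Or Γ (X0 Y s) (X0 Y' s) := by
  refine Or.blk fun e b => ?_
  split_ifs
  · exact Or.smul hΓ.hai (Or.P _ _)
  · exact Or.smul hΓ.ha (Or.P _ _)
  · exact ((Or.Nn (Or.Xp hΓ h false) _ _).comp (Or.B _ _)).add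
      (Or.smul hΓ.hz (((Or.P _ _).comp (Or.pr _ _)).sub
        (Or.smul hΓ.hai ((Or.P _ _).comp ((Or.Nn (h false) _ _).comp (Or.pr _ _))))))
  · exact (Or.Nn (Or.Xp hΓ h false) _ _).comp (Or.B _ _)

theorem Or.X (m : ℕ) (s : Bool) (j : ℕ) : Or Γ (X m s j : V R →ₗ[R] V R) (X m s j) := by
  induction m generalizing s j with
  | zero =>
    rw [Pool.Agent.Helper454.Wh.Homf.X, Pool.Agent.Helper454.Wh.Homf.X]
    exact Or.id
  | succ m ih =>
    rw [Pool.Agent.Helper454.Wh.Homf.X, Pool.Agent.Helper454.Wh.Homf.X]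
    split_ifs
    · exact Or.X0 hΓ (fun s j => ih s j) s
    · exact Or.Xp hΓ (fun s j => ih s j) s j

theorem Or.D (m j : ℕ) : Or Γ (D m j : V R →ₗ[R] V R) (D m j) := by
  induction m generalizing j with
  | zero =>
    rw [Pool.Agent.Helper454.Wh.Homf.D, Pool.Agent.Helper454.Wh.Homf.D]
    exact Or.blk fun _ _ => Or.smul hΓ.hdl Or.id
  | succ m ih =>
    rw [Pool.Agent.Helper454.Wh.Homf.D, Pool.Agent.Helper454.Wh.Homf.D]
    refine Or.blk fun e b => ?_
    split_ifs
    · exact Or.smul hΓ.hdl Or.id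
    · exact Or.smul hΓ.hai (Or.Nn (fun j => Or.X hΓ _ _ j) _ _)
    · exact (Or.P _ _).comp (ih _)
    · exact (Or.P _ _).comp (ih _)
    · exact Or.Ll (fun j => Or.X hΓ _ _ j) _
    · exact Or.smul hΓ.ha (Or.Ll (fun j => Or.X hΓ _ _ j) _)

theorem Or.pc (m : ℕ) (p : OPiece) : Or Γ (pc R m p) (pc R' m p) := by
  cases p with
  | birth i b => exact Or.B i b
  | death i => exact Or.D hΓ _ _
  | pos i => exact Or.X hΓ _ _ _
  | neg i => exact Or.X hΓ _ _ _

theorem Or.opW (m : ℕ) (w : OWord) : Or Γ (opW R m w) (opW R' m w) := by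
  induction w generalizing m with
  | nil => exact Or.id
  | cons p w ih => exact (ih _).comp (Or.pc hΓ m p)

/-- the values of a diagram -/
theorem ev_rel (w : OWord) : (ev R w, ev R' w) ∈ Γ :=
  (Or.opW hΓ 0 w) [] []

end

end

end Run7.h849.SC
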