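import Pool.Agent.Run7.h849.Bz
import Pool.Agent.Run7.h849.SC.Rel
import Pool.Agent.Run7.h849.SC.Dfn

/-!
# Vassiliev invariants from the HOMFLY operators
-/

set_option autoImplicit false

namespace Run7.h849.SC

open Pool.Agent.Helper454.Wh (insD delD swpD noD OPiece OWord below forget OClosed OStep OIsotopic)
open Pool.Agent.Helper454.Wh.OPiece (birth death pos neg)
open Pool.Agent.Helper454.Wh.Homf
open Pool.Agent.Helper454.Wh.Homf.Par

noncomputable section

set_option linter.unusedSectionVars false

section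
variable {K : Type} [Field K] [Par K]

/-- the value of a diagram with double points -/
def extW : ℕ → (ℕ → Bool) → V K → List (OPiece × Bool) → K
  | _, _, u, [] => u []
  | m, d, u, (p, q) :: w =>
    if q then extW (nx m p) (nd p d) (lq K (sg p d) • pc K m p u -
      lq K (sg (sw p) d) • pc K m (sw p) u) w
    else extW (nx m p) (nd p d) (lq K (sg p d) • pc K m p u) w

theorem nx_sw (m : ℕ) (p : OPiece) : nx m (sw p) = nx m p := by cases p <;> rfl

theorem nd_sw (p : OPiece) (d : ℕ → Bool) : nd (sw p) d = nd p d := by cases p <;> rfl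

theorem extW_sub (m : ℕ) (d : ℕ → Bool) (u v : V K) (w : List (OPiece × Bool)) :
    extW m d (u - v) w = extW m d u w - extW m d v w := by
  induction w generalizing m d u v with
  | nil => rfl
  | cons p w ih =>
    obtain ⟨p, q⟩ := p
    rw [extW, extW, extW]
    split_ifs
    · rw [← ih]
      congr 1
      simp only [map_sub, smul_sub]
      abel
    · rw [← ih]
      congr 1
      simp only [map_sub, smul_sub]

theorem extW_smul (m : ℕ) (d : ℕ → Bool) (c : K) (v : V K) (w : List (OPiece × Bool)) :
    extW m d (c • v) w = c * extW m d v w := by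
  induction w generalizing m d v with
  | nil => rfl
  | cons p w ih =>
    obtain ⟨p, q⟩ := p
    rw [extW, extW]
    split_ifs
    · rw [← ih]
      congr 1
      simp only [map_smul, smul_sub, smul_comm c]
    · rw [← ih]
      congr 1
      simp only [map_smul, smul_comm c]

/-- the directions below a word -/
def dd : OWord → (ℕ → Bool) → (ℕ → Bool)
  | [], d => d
  | p :: w, d => dd w (nd p d)

theorem dd_append (x y : OWord) (d : ℕ → Bool) : dd (x ++ y) d = dd y (dd x d) := by
  induction x generalizing d with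
  | nil => rfl
  | cons p x ih => exact ih _

theorem wr_dd (x y : OWord) (d : ℕ → Bool) : wr (x ++ y) d = wr x d + wr y (dd x d) := by
  induction x generalizing d with
  | nil => simp [wr, dd]
  | cons p x ih =>
    rw [List.cons_append, wr, wr, dd, ih, add_assoc]

/-- the value of a diagram -/
theorem hatq_op (x : OWord) : hatq K x = (lq K (wr x noD) • opW K 0 x (v0 K)) [] := rfl

theorem ext_eq (F : OWord → ℚ) (φ : K → ℚ) (hφ : ∀ x y, φ (x - y) = φ x - φ y)
    (hF : ∀ x, F x = φ (hatq K x)) (x : OWord) (w : List (OPiece × Bool)) :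
    ext F x w = φ (extW (lv 0 x) (dd x noD) (lq K (wr x noD) • opW K 0 x (v0 K)) w) := by
  induction w generalizing x with
  | nil => exact hF x
  | cons p w ih =>
    obtain ⟨p, q⟩ := p
    have key : ∀ p : OPiece, lq K (wr (x ++ [p]) noD) • opW K 0 (x ++ [p]) (v0 K) =
        lq K (sg p (dd x noD)) • pc K (lv 0 x) p (lq K (wr x noD) • opW K 0 x (v0 K)) := by
      intro p
      rw [wr_dd, opW_append, map_smul, smul_smul, ← lq_add]
      have : wr [p] (dd x noD) = sg p (dd x noD) := by
        rw [wr, wr, add_zero]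
      rw [this, add_comm]
      rfl
    have hl : ∀ p : OPiece, lv 0 (x ++ [p]) = nx (lv 0 x) p := by
      intro p
      rw [lv_append]
      rfl
    have hd : ∀ p : OPiece, dd (x ++ [p]) noD = nd p (dd x noD) := by
      intro p
      rw [dd_append]
      rfl
    rw [ext, extW]
    split_ifs
    · rw [ih, ih, key, key, hl, hl, hd, hd, nx_sw, nd_sw, extW_sub, hφ]
    · rw [ih, key, hl, hd]

/-! ### divisibility -/

variable (S : Subring K)

/-- the coefficients are in `S` -/
def VS (u : V K) : Prop := ∀ t, u t ∈ S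

variable {S}

/-- the operators respect `VS` -/
theorem opS (ha : (a : K) ∈ S) (hai : (ai : K) ∈ S) (hz : (z : K) ∈ S) (hdl : (dl : K) ∈ S)
    (m : ℕ) (p : OPiece) {u : V K} (hu : VS S u) : VS S (pc K m p u) := by
  have h : PG (S.prod S) := ⟨⟨ha, ha⟩, ⟨hai, hai⟩, ⟨hz, hz⟩, ⟨hdl, hdl⟩⟩
  have := (Or.pc h m p).app (v := u) (v' := u) (fun t => ⟨hu t, hu t⟩)
  exact fun t => (this t).1

theorem lq_mem (ha : (a : K) ∈ S) (hai : (ai : K) ∈ S) (n : ℤ) : lq K n ∈ S := by
  have h1 : ∀ n : ℕ, lq K n ∈ S := by
    intro n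
    induction n with
    | zero =>
      rw [Nat.cast_zero, lq_zero]
      exact S.one_mem
    | succ n ih =>
      rw [Nat.cast_succ, lq_add, lq_one]
      exact S.mul_mem ih hai
  have h2 : ∀ n : ℕ, lq K (-n) ∈ S := by
    intro n
    induction n with
    | zero =>
      rw [Nat.cast_zero, neg_zero, lq_zero]
      exact S.one_mem
    | succ n ih =>
      rw [Nat.cast_succ, neg_add, lq_add, lq_neg]
      exact S.mul_mem ih ha
  obtain ⟨k, rfl | rfl⟩ := n.eq_nat_or_neg
  · exact h1 k
  · exact h2 k

theorem VS.smul {c : K} (hc : c ∈ S) {u : V K} (h : VS S u) : VS S (c • u) :=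
  fun t => S.mul_mem hc (h t)

theorem VS.add {u v : V K} (h : VS S u) (h' : VS S v) : VS S (u + v) :=
  fun t => S.add_mem (h t) (h' t)

theorem VS.sub {u v : V K} (h : VS S u) (h' : VS S v) : VS S (u - v) :=
  fun t => S.sub_mem (h t) (h' t)

/-- one crossing: `X` and `X'` are the two crossings -/
theorem key_pos (ha : (a : K) ∈ S) (hai : (ai : K) ∈ S) (hz : (z : K) ∈ S) (hdl : (dl : K) ∈ S)
    {h c1 c2 : K} (h0 : h ≠ 0) (hc1 : c1 ∈ S) (hc2 : c2 ∈ S) (hz' : (z : K) = h * c1)
    (haa : (a : K) - ai = h * c2) {m i : ℕ} (hi : i + 2 ≤ 2 * m) {d : ℕ → Bool} {u : V K}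
    (hu : u ∈ W (R := K) m d) (hS : VS S u) :
    ∃ u', u' ∈ W (R := K) m (swpD i d) ∧ VS S u' ∧
      lq K (sg (pos i) d) • X m true i u - lq K (sg (neg i) d) • X m false i u = h • u' := by
  obtain ⟨m, rfl⟩ : ∃ m', m = m' + 1 := ⟨m - 1, by omega⟩
  have hXt := crmem (R := K) true hi hu
  have hXf := crmem (R := K) false hi hu
  have hSt : VS S (X (m + 1) true i u) := opS ha hai hz hdl (m + 1) (pos i) hS
  have hSf : VS S (X (m + 1) false i u) := opS ha hai hz hdl (m + 1) (neg i) hS
  by_cases hd : d (i + 1) = d i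
  · have e := (allRel (R := K) m).2.skp i (by omega) d hd u hu
    have hsg : sg (pos i) d = 1 := by
      rw [sg, eps, if_pos hd.symm]
    have hsg' : sg (neg i) d = -1 := by
      rw [sg, eps, if_pos hd.symm]
    rw [hsg, hsg', lq_one, lq_neg]
    have hd2 : swpD i d = d := swp_par hd.symm
    refine ⟨(ai * c1) • u - c2 • X (m + 1) false i u, ?_, ?_, ?_⟩
    · refine Submodule.sub_mem _ (Submodule.smul_mem _ _ ?_) (Submodule.smul_mem _ _ hXf)
      rw [hd2]
      exact hu
    · exact (hS.smul (S.mul_mem hai hc1)).sub (hSf.smul hc2)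
    · have e1 : X (m + 1) true i u = X (m + 1) false i u + (z : K) • u := by
        rw [← e]
        abel
      rw [e1, smul_sub, smul_smul, smul_smul, ← haa, show h * (ai * c1) = ai * (h * c1) by ring,
        ← hz']
      module
  · have hd' : d (i + 1) = !d i := by
      cases h1 : d (i + 1) <;> cases h2 : d i <;> simp_all
    have e := (allRel (R := K) m).2.ska i (by omega) d hd' u hu
    have hsg : sg (pos i) d = -1 := by
      rw [sg, eps, if_neg (Ne.symm hd)]
    have hsg' : sg (neg i) d = 1 := by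
      rw [sg, eps, if_neg (Ne.symm hd)]
      rfl
    rw [hsg, hsg', lq_one, lq_neg]
    set y := B i (!d i) (D m i u) with hy
    have hyS : VS S y :=
      opS ha hai hz hdl m (birth i (!d i)) (opS ha hai hz hdl (m + 1) (death i) hS)
    have hyW : y ∈ W (R := K) (m + 1) (swpD i d) := by
      have : y = (zi : K) • (X (m + 1) false i u - X (m + 1) true i u) := by
        rw [e, smul_smul, mul_comm, h3, one_smul]
      rw [this]
      exact Submodule.smul_mem _ _ (Submodule.sub_mem _ hXf hXt)
    refine ⟨c2 • X (m + 1) false i u - (a * c1) • y, ?_, ?_, ?_⟩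
    · exact Submodule.sub_mem _ (Submodule.smul_mem _ _ hXf) (Submodule.smul_mem _ _ hyW)
    · exact (hSf.smul hc2).sub (hyS.smul (S.mul_mem ha hc1))
    · have e1 : X (m + 1) true i u = X (m + 1) false i u - (z : K) • y := by
        rw [← e]
        abel
      rw [e1, smul_sub, smul_smul, smul_sub, smul_smul, smul_smul, ← haa,
        show h * (a * c1) = a * (h * c1) by ring, ← hz']
      module

/-- the value of a diagram with double points is divisible by a power of `h` -/
theorem extW_div (ha : (a : K) ∈ S) (hai : (ai : K) ∈ S) (hz : (z : K) ∈ S) (hdl : (dl : K) ∈ S)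
    {h c1 c2 : K} (h0 : h ≠ 0) (hc1 : c1 ∈ S) (hc2 : c2 ∈ S) (hz' : (z : K) = h * c1)
    (haa : (a : K) - ai = h * c2) (w : List (OPiece × Bool))
    (hcr : ∀ p ∈ w, p.2 = true → IsCross p.1) {m : ℕ} {d : ℕ → Bool} {s : ℕ × (ℕ → Bool)}
    (hb : below (w.map Prod.fst) (2 * m) d = some s) {u : V K}
    (hu : u ∈ W (R := K) m d) (hS : VS S u) :
    ∃ x ∈ S, extW m d u w = h ^ (w.countP (fun p => p.2)) * x := by
  induction w generalizing m d u with
  | nil => exact ⟨u [], hS [], by simp [extW]⟩
  | cons p w ih =>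
    obtain ⟨p, q⟩ := p
    rw [List.map_cons] at hb
    obtain ⟨s1, h1, h2⟩ := bl_cons hb
    obtain ⟨e1, h3⟩ := pc_mem h1 hu
    have e2 := nd_of h1
    rw [e1] at h2
    have hw : ∀ p ∈ w, p.2 = true → IsCross p.1 := fun p hp => hcr p (List.mem_cons_of_mem _ hp)
    rw [extW]
    cases q
    · simp only [Bool.false_eq_true, if_false]
      have := ih hw (d := s1.2) h2 (u := lq K (sg p d) • pc K m p u)
        (Submodule.smul_mem _ _ h3) ((opS ha hai hz hdl m p hS).smul (lq_mem ha hai _))
      rw [e2] at this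
      obtain ⟨x, hx, e3⟩ := this
      refine ⟨x, hx, ?_⟩
      rw [e3, List.countP_cons_of_neg]
      simp
    · simp only [if_true]
      obtain ⟨i, hp⟩ := hcr (p, true) List.mem_cons_self rfl
      have main : ∃ u', u' ∈ W (R := K) (nx m p) (nd p d) ∧ VS S u' ∧
          lq K (sg p d) • pc K m p u - lq K (sg (sw p) d) • pc K m (sw p) u = h • u' := by
        rcases hp with hp | hp
        · simp only at hp
          subst hp
          exact key_pos ha hai hz hdl h0 hc1 hc2 hz' haa (bl_pos h1).1 hu hS
        · simp only at hp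
          subst hp
          obtain ⟨u', k1, k2, k3⟩ := key_pos ha hai hz hdl h0 hc1 hc2 hz' haa (bl_neg h1).1 hu hS
          refine ⟨-u', Submodule.neg_mem _ k1, fun t => S.neg_mem (k2 t), ?_⟩
          rw [smul_neg, ← k3, neg_sub]
          rfl
      obtain ⟨u', k1, k2, k3⟩ := main
      rw [k3, extW_smul]
      obtain ⟨x, hx, e3⟩ := ih hw (d := s1.2) h2 (u := u') (by rw [e2]; exact k1) k2
      rw [e2] at e3
      refine ⟨x, hx, ?_⟩
      rw [e3, List.countP_cons_of_pos (by simp), pow_succ]
      ring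

end

end

end Run7.h849.SC
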