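import Mathlib
import Pool.Agent.Run7.h849.SC.Vas

/-!
# Exponential sums as power series
-/

set_option autoImplicit false

namespace Run7.h849.SC

open Pool.Agent.Helper454.Wh (insD delD swpD noD OPiece OWord below forget OClosed OStep OIsotopic)
open Pool.Agent.Helper454.Wh.OPiece (birth death pos neg)
open Pool.Agent.Helper454.Wh.Homf
open Pool.Agent.Helper454.Wh.Homf.Par

noncomputable section

/-- `exp (n h)` -/
def EE (n : ℤ) : PowerSeries ℚ := PowerSeries.rescale (n : ℚ) (PowerSeries.exp ℚ)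

theorem EE_add (i j : ℤ) : EE (i + j) = EE i * EE j := by
  rw [EE, EE, EE, PowerSeries.exp_mul_exp_eq_exp_add, Int.cast_add]

theorem EE_zero : EE 0 = 1 := by
  rw [EE, Int.cast_zero, PowerSeries.rescale_zero_apply]
  simp

theorem coeff_EE (n : ℤ) (k : ℕ) :
    PowerSeries.coeff k (EE n) = (n : ℚ) ^ k * (1 / (k.factorial : ℚ)) := by
  rw [EE, PowerSeries.coeff_rescale, PowerSeries.coeff_exp]
  simp

/-- the field of Laurent series -/
abbrev Kq : Type := LaurentSeries ℚ

/-- the power series as Laurent series -/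
abbrev ι : PowerSeries ℚ →+* Kq := HahnSeries.ofPowerSeries ℤ ℚ

theorem ι_inj : Function.Injective ι := HahnSeries.ofPowerSeries_injective

theorem ι_coeff (x : PowerSeries ℚ) (k : ℕ) : (ι x).coeff (k : ℤ) = PowerSeries.coeff k x :=
  HahnSeries.ofPowerSeries_apply_coeff x k

/-- `exp (n h)` -/
def E (n : ℤ) : Kq := ι (EE n)

theorem E_add (i j : ℤ) : E (i + j) = E i * E j := by rw [E, EE_add, map_mul]; rfl

theorem E_zero : E 0 = 1 := by rw [E, EE_zero, map_one]

theorem E_neg (n : ℤ) : E n * E (-n) = 1 := by rw [← E_add, add_neg_cancel, E_zero]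

/-- a linear combination of at most `M` exponentials -/
def ES (M : ℕ) (x : Kq) : Prop :=
  ∃ l : List (ℚ × ℤ), l.length ≤ M ∧ x = ι (l.map fun p => PowerSeries.C p.1 * EE p.2).sum

theorem ES.mono {M M' : ℕ} (h : M ≤ M') {x : Kq} (hx : ES M x) : ES M' x := by
  obtain ⟨l, h1, h2⟩ := hx
  exact ⟨l, h1.trans h, h2⟩

theorem ES.zero : ES 0 0 := ⟨[], le_rfl, by simp⟩

theorem ES.add {M M' : ℕ} {x y : Kq} (hx : ES M x) (hy : ES M' y) : ES (M + M') (x + y) := by
  obtain ⟨l, h1, h2⟩ := hx
  obtain ⟨l', h3, h4⟩ := hy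
  refine ⟨l ++ l', by rw [List.length_append]; omega, ?_⟩
  rw [List.map_append, List.sum_append, map_add, h2, h4]

theorem ES.E (n : ℤ) : ES 1 (E n) := ⟨[(1, n)], le_rfl, by simp [SC.E]⟩

theorem ES.one : ES 1 1 := by rw [← E_zero]; exact ES.E 0

theorem ES.neg {M : ℕ} {x : Kq} (hx : ES M x) : ES M (-x) := by
  obtain ⟨l, h1, h2⟩ := hx
  refine ⟨l.map fun p => (-p.1, p.2), by rw [List.length_map]; exact h1, ?_⟩
  rw [h2, ← map_neg]
  congr 1
  rw [List.map_map]
  clear h1 h2
  induction l with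
  | nil => simp
  | cons p l ih =>
    rw [List.map_cons, List.sum_cons, List.map_cons, List.sum_cons, ← ih]
    simp only [Function.comp_apply, map_neg]
    ring

theorem ES.sub {M M' : ℕ} {x y : Kq} (hx : ES M x) (hy : ES M' y) : ES (M + M') (x - y) := by
  rw [sub_eq_add_neg]
  exact hx.add hy.neg

theorem ES.mul1 {M : ℕ} {y : Kq} (hy : ES M y) (c : ℚ) (n : ℤ) :
    ES M (ι (PowerSeries.C c * EE n) * y) := by
  obtain ⟨l, h1, h2⟩ := hy
  refine ⟨l.map fun p => (c * p.1, n + p.2), by rw [List.length_map]; exact h1, ?_⟩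
  rw [h2, ← map_mul]
  congr 1
  rw [List.map_map]
  clear h1 h2
  induction l with
  | nil => simp
  | cons p l ih =>
    rw [List.map_cons, List.sum_cons, List.map_cons, List.sum_cons, ← ih]
    simp only [Function.comp_apply, map_mul, EE_add]
    ring

theorem ES.mul {M M' : ℕ} {x y : Kq} (hx : ES M x) (hy : ES M' y) : ES (M * M') (x * y) := by
  obtain ⟨l, h1, h2⟩ := hx
  rw [h2]
  clear h2
  induction l generalizing M with
  | nil =>
    simp only [List.map_nil, List.sum_nil, map_zero, zero_mul]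
    exact ES.zero.mono (Nat.zero_le _)
  | cons p l ih =>
    rw [List.map_cons, List.sum_cons, map_add, add_mul]
    rw [List.length_cons] at h1
    obtain ⟨M, rfl⟩ : ∃ M1, M = M1 + 1 := ⟨M - 1, by omega⟩
    have := (hy.mul1 p.1 p.2).add (ih (M := M) (by omega))
    exact this.mono (by ring_nf; exact le_rfl)

theorem ES.pow {M : ℕ} {x : Kq} (hx : ES M x) (n : ℕ) : ES (M ^ n) (x ^ n) := by
  induction n with
  | zero => rw [pow_zero, pow_zero]; exact ES.one
  | succ n ih => rw [pow_succ, pow_succ]; exact ih.mul hx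

theorem ES.sum {α : Type} (s : Finset α) (f : α → Kq) {M : ℕ} (h : ∀ i ∈ s, ES M (f i)) :
    ES (s.card * M) (∑ i ∈ s, f i) := by
  classical
  induction s using Finset.induction_on with
  | empty => simpa using ES.zero
  | insert i s hi ih =>
    rw [Finset.sum_insert hi, Finset.card_insert_of_notMem hi]
    have := (h i (Finset.mem_insert_self _ _)).add
      (ih fun j hj => h j (Finset.mem_insert_of_mem hj))
    exact this.mono (by ring_nf; exact le_rfl)

theorem ES.prod {α : Type} (s : Finset α) (f : α → Kq) {M : α → ℕ} (h : ∀ i ∈ s, ES (M i) (f i)) :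
    ES (∏ i ∈ s, M i) (∏ i ∈ s, f i) := by
  classical
  induction s using Finset.induction_on with
  | empty => simpa using ES.one
  | insert i s hi ih =>
    rw [Finset.prod_insert hi, Finset.prod_insert hi]
    exact (h i (Finset.mem_insert_self _ _)).mul (ih fun j hj => h j (Finset.mem_insert_of_mem hj))

theorem ES.listProd {α : Type} (l : List α) (f : α → Kq) {M : ℕ} (h : ∀ i ∈ l, ES M (f i)) :
    ES (M ^ l.length) (l.map f).prod := by
  induction l with
  | nil => simpa using ES.one
  | cons p l ih =>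
    rw [List.map_cons, List.prod_cons, List.length_cons, pow_succ, mul_comm]
    exact (h p List.mem_cons_self).mul (ih fun j hj => h j (List.mem_cons_of_mem _ hj))
      |>.mono (by rw [mul_comm])

/-- exponentials are linearly independent, in a strong sense -/
theorem vander (T : Finset ℤ) (c : ℤ → ℚ) (h : ∀ k < T.card, ∑ n ∈ T, c n * (n : ℚ) ^ k = 0) :
    ∀ n ∈ T, c n = 0 := by
  classical
  have h1 : ∀ p : Polynomial ℚ, p.natDegree < T.card → ∑ n ∈ T, c n * p.eval (n : ℚ) = 0 := by
    intro p hp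
    have : ∀ n ∈ T, c n * p.eval (n : ℚ) =
        ∑ k ∈ Finset.range T.card, p.coeff k * (c n * (n : ℚ) ^ k) := by
      intro n _
      rw [Polynomial.eval_eq_sum_range' hp, Finset.mul_sum]
      refine Finset.sum_congr rfl fun k _ => ?_
      ring
    rw [Finset.sum_congr rfl this, Finset.sum_comm]
    refine Finset.sum_eq_zero fun k hk => ?_
    rw [← Finset.mul_sum, h k (Finset.mem_range.1 hk), mul_zero]
  intro n hn
  let p : Polynomial ℚ := ∏ j ∈ T.erase n, (Polynomial.X - Polynomial.C (j : ℚ))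
  have hdeg : p.natDegree < T.card := by
    have : p.natDegree = (T.erase n).card := by
      rw [Polynomial.natDegree_prod_of_monic _ _ fun j _ => Polynomial.monic_X_sub_C _]
      simp only [Polynomial.natDegree_X_sub_C, Finset.sum_const, smul_eq_mul, mul_one]
    rw [this, Finset.card_erase_of_mem hn]
    have := Finset.card_pos.2 ⟨n, hn⟩
    omega
  have h2 := h1 p hdeg
  rw [Finset.sum_eq_single n] at h2
  · rcases mul_eq_zero.1 h2 with h3 | h3
    · exact h3
    · exfalso
      rw [Polynomial.eval_prod, Finset.prod_eq_zero_iff] at h3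
      obtain ⟨j, hj, h4⟩ := h3
      rw [Polynomial.eval_sub, Polynomial.eval_X, Polynomial.eval_C, sub_eq_zero] at h4
      exact (Finset.ne_of_mem_erase hj) (by exact_mod_cast h4.symm)
  · intro j hj hne
    have : p.eval (j : ℚ) = 0 := by
      rw [Polynomial.eval_prod]
      refine Finset.prod_eq_zero (Finset.mem_erase.2 ⟨hne, hj⟩) ?_
      simp
    rw [this, mul_zero]
  · intro h
    exact absurd hn h

/-- the list as a function -/
theorem list_group (l : List (ℚ × ℤ)) : ∃ (T : Finset ℤ) (c : ℤ → ℚ), T.card ≤ l.length ∧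
    ∀ (F : ℤ → PowerSeries ℚ), (l.map fun p => PowerSeries.C p.1 * F p.2).sum =
      ∑ n ∈ T, PowerSeries.C (c n) * F n := by
  classical
  induction l with
  | nil => exact ⟨∅, fun _ => 0, by simp, fun F => by simp⟩
  | cons p l ih =>
    obtain ⟨T, c, h1, h2⟩ := ih
    by_cases hp : p.2 ∈ T
    · refine ⟨T, Function.update c p.2 (c p.2 + p.1), by rw [List.length_cons]; omega, fun F => ?_⟩
      rw [List.map_cons, List.sum_cons, h2, ← Finset.add_sum_erase T _ hp,
        ← Finset.add_sum_erase T (fun n => PowerSeries.C (Function.update c p.2 (c p.2 + p.1) n) *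
          F n) hp, Function.update_self, map_add]
      have : ∑ n ∈ T.erase p.2, PowerSeries.C (Function.update c p.2 (c p.2 + p.1) n) * F n =
          ∑ n ∈ T.erase p.2, PowerSeries.C (c n) * F n := by
        refine Finset.sum_congr rfl fun n hn => ?_
        rw [Function.update_of_ne (Finset.ne_of_mem_erase hn)]
      rw [this]
      ring
    · refine ⟨insert p.2 T, Function.update c p.2 p.1, ?_, fun F => ?_⟩
      · rw [List.length_cons, Finset.card_insert_of_notMem hp]
        omega
      · rw [List.map_cons, List.sum_cons, h2, Finset.sum_insert hp, Function.update_self]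
        congr 1
        refine Finset.sum_congr rfl fun n hn => ?_
        rw [Function.update_of_ne]
        rintro rfl
        exact hp hn

/-- A sum of at most `M` exponentials which vanishes to the order `M` is zero. -/
theorem ES.eq_zero {M : ℕ} {x : Kq} (hx : ES M x) (h : ∀ k : ℕ, k < M → x.coeff (k : ℤ) = 0) :
    x = 0 := by
  obtain ⟨l, h1, rfl⟩ := hx
  obtain ⟨T, c, h2, h3⟩ := list_group l
  rw [h3] at h ⊢
  have h4 : ∀ n ∈ T, c n = 0 := by
    refine vander T c fun k hk => ?_
    have := h k (by omega)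
    rw [ι_coeff, map_sum] at this
    have e : ∀ n ∈ T, PowerSeries.coeff k (PowerSeries.C (c n) * EE n) =
        (c n * (n : ℚ) ^ k) * (1 / (k.factorial : ℚ)) := by
      intro n _
      rw [PowerSeries.coeff_C_mul, coeff_EE]
      ring
    rw [Finset.sum_congr rfl e, ← Finset.sum_mul] at this
    rcases mul_eq_zero.1 this with h5 | h5
    · exact h5
    · exfalso
      have : (k.factorial : ℚ) ≠ 0 := by exact_mod_cast k.factorial_ne_zero
      rw [one_div, inv_eq_zero] at h5
      exact this h5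
  rw [Finset.sum_eq_zero, map_zero]
  intro n hn
  rw [h4 n hn, map_zero, zero_mul]

/-! ### the parameters -/

/-- the power series -/
def SS : Subring Kq := ι.range

theorem E_mem (n : ℤ) : E n ∈ SS := ⟨EE n, rfl⟩

/-- `2 sinh h` -/
def zz : Kq := E 1 - E (-1)

theorem zz_ne : zz ≠ 0 := by
  intro h
  have h1 : (zz).coeff ((1 : ℕ) : ℤ) = 2 := by
    rw [zz, E, E, ← map_sub, ι_coeff, map_sub, coeff_EE, coeff_EE]
    norm_num
  rw [h] at h1
  simp at h1

/-- the variable -/
def hh : Kq := ι PowerSeries.X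

theorem hh_ne : hh ≠ 0 := by
  intro h
  have : (PowerSeries.X : PowerSeries ℚ) = 0 := ι_inj (by rw [map_zero]; exact h)
  exact PowerSeries.X_ne_zero this

theorem diff_div (n : ℤ) : ∃ c ∈ SS, E n - E (-n) = hh * c := by
  have h1 : PowerSeries.X ∣ (EE n - EE (-n)) := by
    rw [PowerSeries.X_dvd_iff, ← PowerSeries.coeff_zero_eq_constantCoeff_apply, map_sub, coeff_EE,
      coeff_EE]
    simp
  obtain ⟨c, hc⟩ := h1
  refine ⟨ι c, ⟨c, rfl⟩, ?_⟩
  rw [E, E, ← map_sub, hc, map_mul]
  rfl

theorem diff_z (n : ℕ) : ∃ c ∈ SS, E n - E (-n) = zz * c := by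
  induction n with
  | zero => exact ⟨0, SS.zero_mem, by simp⟩
  | succ n ih =>
    obtain ⟨c, hc, e⟩ := ih
    refine ⟨E n + E (-1) * c, SS.add_mem (E_mem _) (SS.mul_mem (E_mem _) hc), ?_⟩
    have e1 : E ((n + 1 : ℕ) : ℤ) = E n * E 1 := by rw [← E_add]; push_cast; rfl
    have e2 : E (-((n + 1 : ℕ) : ℤ)) = E (-n) * E (-1) := by rw [← E_add]; push_cast; ring_nf
    have e3 : zz = E 1 - E (-1) := rfl
    rw [e1, e2]
    linear_combination (E (-1)) * e - (E n) * e3

/-- the Laurent series, with the parameter `a = exp (N h)` -/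
def LN (_ : ℕ) : Type := Kq

instance (N : ℕ) : Field (LN N) := inferInstanceAs (Field Kq)

/-- the parameters -/
instance parN (N : ℕ) : Par (LN N) where
  a := (E N : Kq)
  ai := (E (-N) : Kq)
  z := zz
  zi := (zz⁻¹ : Kq)
  dl := ((E N - E (-N)) * zz⁻¹ : Kq)
  h1 := E_neg N
  h2 := by
    show zz * ((E N - E (-N)) * zz⁻¹) = E N - E (-N)
    rw [mul_comm, mul_assoc, inv_mul_cancel₀ zz_ne, mul_one]
  h3 := mul_inv_cancel₀ zz_ne

/-- the value of a diagram, as a Laurent series -/
def hv (N : ℕ) (w : OWord) : Kq := hatq (LN N) w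

theorem dl_mem (N : ℕ) : ((dl : LN N) : Kq) ∈ SS := by
  obtain ⟨c, hc, e⟩ := diff_z N
  show (E N - E (-N)) * zz⁻¹ ∈ SS
  rw [e, mul_comm zz c, mul_assoc, mul_inv_cancel₀ zz_ne, mul_one]
  exact hc

theorem zz_mem : zz ∈ SS := SS.sub_mem (E_mem _) (E_mem _)

theorem hv_mem (N : ℕ) (w : OWord) : hv N w ∈ SS := by
  let S : Subring (LN N) := SS
  have hP : PG (S.prod S) := ⟨⟨E_mem _, E_mem _⟩, ⟨E_mem _, E_mem _⟩, ⟨zz_mem, zz_mem⟩,
    ⟨dl_mem N, dl_mem N⟩⟩
  have h1 : ev (LN N) w ∈ S := (ev_rel hP w).1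
  have h2 : lq (LN N) (wr w noD) ∈ S := lq_mem (E_mem _) (E_mem _) _
  exact S.mul_mem h2 h1

/-- a coefficient of the value is a Vassiliev invariant -/
theorem vas (N k : ℕ) : Vassiliev k fun w => (hv N w).coeff (k : ℤ) := by
  refine ⟨fun D E _ h => ?_, fun w hw hc hk => ?_⟩
  · simp only [hv]
    rw [hatq_isotopy h]
  · let S : Subring (LN N) := SS
    obtain ⟨c1, hc1, e1⟩ := diff_div 1
    obtain ⟨c2, hc2, e2⟩ := diff_div (N : ℤ)
    have e := ext_eq (K := LN N) (fun w => (hv N w).coeff (k : ℤ)) (fun x => HahnSeries.coeff x (k : ℤ))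
      (fun x y => rfl) (fun x => rfl) [] w
    rw [e]
    obtain ⟨s, hs⟩ : ∃ s, below (w.map Prod.fst) 0 noD = some s := by
      have h := hw
      rw [OClosed] at h
      cases h' : below (w.map Prod.fst) 0 noD with
      | none => rw [h'] at h; simp at h
      | some s => exact ⟨s, rfl⟩
    have hv0 : v0 (LN N) ∈ W (R := LN N) 0 noD := v0_mem
    obtain ⟨x, hx, e3⟩ := extW_div (S := S) (E_mem _) (E_mem _) zz_mem (dl_mem N)
      (h := (hh : Kq)) (c1 := c1) (c2 := c2) hh_ne hc1 hc2 e1 e2 w hc (m := 0) (d := noD) hs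
      (u := v0 (LN N)) hv0 (fun t => by
        rw [v0]
        by_cases ht : t = []
        · subst ht
          rw [Finsupp.single_eq_same]
          exact S.one_mem
        · rw [Finsupp.single_eq_of_ne ht]
          exact S.zero_mem)
    have e4 : (lq (LN N) (wr [] noD) • opW (LN N) 0 [] (v0 (LN N))) = v0 (LN N) := by
      rw [wr, lq_zero, one_smul]
      rfl
    show HahnSeries.coeff (extW (K := LN N) (lv 0 []) (dd [] noD)
      (lq (LN N) (wr [] noD) • opW (LN N) 0 [] (v0 (LN N))) w) (k : ℤ) = 0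
    rw [e4]
    show HahnSeries.coeff (extW (K := LN N) 0 noD (v0 (LN N)) w) (k : ℤ) = 0
    rw [e3]
    obtain ⟨y, rfl⟩ := hx
    have e5 : ((hh ^ w.countP (fun p => p.2) * ι y : Kq)) =
        ι (PowerSeries.X ^ w.countP (fun p => p.2) * y) := by
      rw [map_mul, map_pow]
      rfl
    show HahnSeries.coeff (hh ^ w.countP (fun p => p.2) * ι y : Kq) (k : ℤ) = 0
    rw [e5, ι_coeff, PowerSeries.coeff_X_pow_mul', if_neg (by omega)]

/-- diagrams with different coefficients are separated -/
theorem sep_coeff {N k n : ℕ} (hk : k ≤ n) {D E : OWord}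
    (h : (hv N D).coeff (k : ℤ) ≠ (hv N E).coeff (k : ℤ)) : Separated n D E := by
  refine ⟨_, ⟨(vas N k).invariant, fun w h1 h2 h3 => (vas N k).order w h1 h2 (by omega)⟩, h⟩

/-- If a multiple of the difference of the values is a nonzero sum of at most `M` exponentials,
then the diagrams are separated by Vassiliev invariants of order less than `M`. -/
theorem sep_ES {N M : ℕ} {D E : OWord} {Z : Kq} (hZ : Z ∈ SS) (hZ0 : Z ≠ 0)
    (hES : ES M (Z * (hv N D - hv N E))) (hne : hv N D ≠ hv N E) : Separated (M - 1) D E := by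
  by_contra hcon
  apply hne
  have h1 : ∀ k : ℕ, k < M → (hv N D).coeff (k : ℤ) = (hv N E).coeff (k : ℤ) := by
    intro k hk
    by_contra h2
    exact hcon (sep_coeff (by omega) h2)
  have h2 : Z * (hv N D - hv N E) = 0 := by
    refine hES.eq_zero fun k hk => ?_
    obtain ⟨y, rfl⟩ := hZ
    obtain ⟨x, hx⟩ := SS.sub_mem (hv_mem N D) (hv_mem N E)
    rw [← hx, ← map_mul, ι_coeff]
    have h3 : PowerSeries.X ^ M ∣ x := by
      rw [PowerSeries.X_pow_dvd_iff]
      intro j hj
      rw [← ι_coeff]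
      have : (ι x).coeff (j : ℤ) = (hv N D).coeff (j : ℤ) - (hv N E).coeff (j : ℤ) := by
        rw [hx, HahnSeries.coeff_sub]
      rw [this, h1 j hj, sub_self]
    have h4 : PowerSeries.X ^ M ∣ y * x := h3.mul_left y
    exact (PowerSeries.X_pow_dvd_iff.1 h4) k hk
  rcases mul_eq_zero.1 h2 with h3 | h3
  · exact absurd h3 hZ0
  · exact sub_eq_zero.1 h3

end

end Run7.h849.SC
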