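import Pool.Agent.Run7.h849.SC.Cmp

/-!
# Diagrams of signed chains and Vassiliev invariants
-/

set_option autoImplicit false

namespace Run7.h849.SC

open Pool.Agent.Helper454.Wh (insD delD swpD noD OPiece OWord below forget OClosed OStep OIsotopic)
open Pool.Agent.Helper454.Wh.OPiece (birth death pos neg)
open Pool.Agent.Helper454.Wh.Homf hiding X
open Pool.Agent.Helper454.Wh.Homf.Par
open Run7.h849 (cc cwd alt alt_zero alt_lt alt_anti ins_alt del_alt par par_succ z0 D_B)
open Finset

noncomputable section

/-! ### the diagrams are closed -/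

theorem expand_below {w : List Bz} {m : ℕ} (hw : Fits (2 * m) w) (ha : Evn w) :
    below (expand w) (2 * m) (alt m) = some (0, noD) := by
  induction w generalizing m with
  | nil =>
    have h0 : 2 * m = 0 := hw
    obtain rfl : m = 0 := by omega
    rw [alt_zero]
    rfl
  | cons p w ih =>
    cases p with
    | b i =>
      obtain ⟨h1, h2⟩ := hw
      rw [show 2 * m + 2 = 2 * (m + 1) by ring] at h2
      refine bl_cons_of (s' := (2 * (m + 1), alt (m + 1))) ?_ (ih h2 ha)
      show (if i ≤ 2 * m then some (2 * m + 2, insD i (par i) (alt m)) else none) = _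
      rw [if_pos h1, ins_alt h1]
      rfl
    | d i =>
      obtain ⟨h1, h2⟩ := hw
      obtain ⟨m1, rfl⟩ : ∃ m1, m = m1 + 1 := ⟨m - 1, by omega⟩
      rw [show 2 * (m1 + 1) - 2 = 2 * m1 by omega] at h2
      refine bl_cons_of (s' := (2 * m1, alt m1)) ?_ (ih h2 ha)
      simp only [OPiece.below]
      rw [if_pos ⟨h1, alt_anti (by omega)⟩, del_alt (by omega)]
      rfl
    | c i ns =>
      obtain ⟨h1, h2⟩ := hw
      have hne : ns ≠ [] := by
        rintro rfl
        exact absurd ha.1.1 (by simp)
      refine bl_append_of (chain_below hne h1 (alt_lt (by omega)) ?_) (ih h2 ha.2)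
      rw [alt_lt (by omega), par_succ, dr2, if_pos ha.1.2]
      rfl

theorem closed_expand {w : List Bz} (hw : Chained w) : OClosed (expand w) := by
  have h1 := expand_below (m := 0) hw.fits (evn_of hw.even)
  rw [alt_zero] at h1
  rw [OClosed, h1]
  rfl

/-! ### counting -/

theorem N_base (w : List Bz) (t : ℕ) (s : ℕ → Bool) :
    Run7.h849.N (stA ∅ t w) s ≤ 2 ^ maxima w := by
  induction w generalizing t s with
  | nil => simp [stA, Run7.h849.N, maxima]
  | cons p w ih =>
    cases p with
    | b i =>
      rw [stA, Run7.h849.N, maxima]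
      have h1 := ih t (Run7.h849.ins i false s)
      have h2 := ih t (Run7.h849.ins i true s)
      rw [pow_succ]
      omega
    | d i =>
      rw [stA, Run7.h849.N, maxima]
      split_ifs
      · exact ih t _
      · exact Nat.zero_le _
    | c i ns =>
      rw [stA, maxima, decide_eq_false (notMem_empty t)]
      exact ih (t + 1) s

theorem cc_base (w : List Bz) (t : ℕ) : cc (stA ∅ t w) ≤ maxima w := by
  rw [cc]
  calc Nat.log 2 (Run7.h849.N (stA ∅ t w) z0) ≤ Nat.log 2 (2 ^ maxima w) :=
        Nat.log_mono_right (N_base w t z0)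
    _ = maxima w := Nat.log_pow (by norm_num) _

theorem nch_le {w : List Bz} (ha : Evn w) : 2 * nch w ≤ (bands w).length := by
  induction w with
  | nil => simp [nch]
  | cons p w ih =>
    cases p with
    | b i => exact ih ha
    | d i => exact ih ha
    | c i ns =>
      have := ih ha.2
      have := ha.1.1
      rw [nch, bands, List.length_append]
      omega

/-! ### the leading data of the diagrams -/

theorem lq_La (n : ℤ) : (lq La n) = LaurentPolynomial.T (-n) := by
  have h1 : ∀ n : ℕ, (lq La n) = LaurentPolynomial.T (-(n : ℤ)) := by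
    intro n
    induction n with
    | zero => rw [Nat.cast_zero, lq_zero, neg_zero, LaurentPolynomial.T_zero]
    | succ n ih =>
      rw [Nat.cast_succ, lq_add, ih, lq_one, neg_add, LaurentPolynomial.T_add]
      rfl
  have h2 : ∀ n : ℕ, (lq La (-(n : ℤ))) = LaurentPolynomial.T (n : ℤ) := by
    intro n
    induction n with
    | zero => rw [Nat.cast_zero, neg_zero, lq_zero, LaurentPolynomial.T_zero]
    | succ n ih =>
      rw [Nat.cast_succ, neg_add, lq_add, ih, lq_neg, LaurentPolynomial.T_add]
      rfl
  obtain ⟨k, rfl | rfl⟩ := n.eq_nat_or_neg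
  · exact h1 k
  · rw [neg_neg]
    exact h2 k

theorem prod_const_mul (l : List ℤ) (u : Kq) (f : ℤ → Kq) :
    (l.map fun n => u * f n).prod = u ^ l.length * (l.map f).prod := by
  induction l with
  | nil => simp
  | cons n l ih =>
    rw [List.map_cons, List.prod_cons, ih, List.map_cons, List.prod_cons, List.length_cons]
    ring

/-- the sum of the writhe over the diagram -/
def wrt (w : List Bz) : ℤ := wr (expand w) noD

/-- the number of the base circles -/
def bc (w : List Bz) : ℕ := cc (stA ∅ 0 w)

theorem ld_chained {w : List Bz} (hw : Chained w) : Ld (expand w) (nch w)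
    ((bands w).length + bc w) (wrt w) (((bands w).map fun n => n + 1).map pk).prod
    (((bands w).map fun n => n - 1).map pk).prod := by
  obtain ⟨f, hf⟩ := exists_Dt w 0
  have hlo : ∀ k < nch w, (f k).length = 2 → cc (stA {k} 0 w) + 1 = cc (stA ∅ 0 w) :=
    fun k hk h2 => cc_two hw hk hf h2
  have e0 : (dl : La) ^ nch w * hatq La (expand w) =
      LaurentPolynomial.T (-wrt w) * ((dl : La) ^ nch w * ev La (expand w)) := by
    rw [hatq, lq_La, wrt]
    ring
  constructor
  · have h1 := side_top.dl0 hf hw.fits hw.even hlo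
    have h2 := (Tc.T (-wrt w)).mul h1
    rw [e0]
    have e1 : -wrt w + (((bands w).length : ℤ) + (cc (stA ∅ 0 w) : ℕ)) =
        (((bands w).length + bc w : ℕ) : ℤ) - wrt w := by
      rw [bc]
      push_cast
      ring
    have e2 : 1 * (((bands w).map fun n => zz⁻¹ * pk (n + 1)).prod * zz⁻¹ ^ cc (stA ∅ 0 w)) =
        zz⁻¹ ^ ((bands w).length + bc w) * (((bands w).map fun n => n + 1).map pk).prod := by
      rw [prod_const_mul (bands w) zz⁻¹ (fun n => pk (n + 1)), List.map_map, bc, pow_add, one_mul]
      have : (pk ∘ fun n => n + 1) = fun n => pk (n + 1) := rfl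
      rw [this]
      ring
    rw [e1, e2] at h2
    exact h2
  · have h1 := side_bot.dl0 hf hw.fits hw.even hlo
    have h2 := (Tc.T (wrt w)).mul h1
    have e3 : rv ((dl : La) ^ nch w * hatq La (expand w)) =
        LaurentPolynomial.T (wrt w) * rv ((dl : La) ^ nch w * ev La (expand w)) := by
      rw [e0, map_mul rv (LaurentPolynomial.T _)]
      congr 1
      show LaurentPolynomial.invert (LaurentPolynomial.T (-wrt w)) = _
      rw [LaurentPolynomial.invert_T, neg_neg]
    rw [e3]
    have e1 : wrt w + (((bands w).length : ℤ) + (cc (stA ∅ 0 w) : ℕ)) =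
        (((bands w).length + bc w : ℕ) : ℤ) + wrt w := by
      rw [bc]
      push_cast
      ring
    have e2 : 1 * (((bands w).map fun n => -zz⁻¹ * pk (n - 1)).prod *
        (-zz⁻¹) ^ cc (stA ∅ 0 w)) = (-zz⁻¹) ^ ((bands w).length + bc w) *
          (((bands w).map fun n => n - 1).map pk).prod := by
      rw [prod_const_mul (bands w) (-zz⁻¹) (fun n => pk (n - 1)), List.map_map, bc, pow_add,
        one_mul]
      have : (pk ∘ fun n => n - 1) = fun n => pk (n - 1) := rfl
      rw [this]
      ring
    rw [e1, e2] at h2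
    exact h2

/-! ### unlinks -/

theorem unlink_op {R : Type} [CommRing R] [Par R] (r : ℕ) :
    opW R 0 (unlink r) (v0 R) = (dl : R) ^ r • v0 R := by
  induction r with
  | zero => rw [pow_zero, one_smul]; rfl
  | succ r ih =>
    have h1 : opW R 0 (unlink (r + 1)) (v0 R) = opW R 0 (unlink r) (D 0 0 (B 0 true (v0 R))) := rfl
    rw [h1, D_B (d := noD) (by omega) true v0_mem, map_smul, ih, smul_smul, pow_succ, mul_comm]

theorem unlink_wr (r : ℕ) (d : ℕ → Bool) : ∃ d', wr (unlink r) d = 0 ∧
    nd (birth 0 true) d = d' := ⟨_, by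
  induction r generalizing d with
  | zero => rfl
  | succ r ih =>
    show sg (birth 0 true) d + (sg (death 0) (nd (birth 0 true) d) +
      wr (unlink r) (nd (death 0) (nd (birth 0 true) d))) = 0
    rw [ih]
    rfl, rfl⟩

theorem unlink_hat (r : ℕ) : hatq La (unlink r) = (dl : La) ^ r := by
  rw [hatq, (unlink_wr r noD).choose_spec.1, lq_zero, one_mul, ev, unlink_op, Finsupp.smul_apply,
    v0, Finsupp.single_eq_same, smul_eq_mul, mul_one]

theorem ld_unlink (r : ℕ) : Ld (unlink r) 0 r 0 1 1 := by
  constructor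
  · rw [pow_zero, one_mul, unlink_hat, sub_zero, mul_one]
    have := side_top.dl.pow r
    rw [mul_one] at this
    exact this
  · rw [pow_zero, one_mul, unlink_hat, add_zero, mul_one, map_pow]
    have := side_bot.dl.pow r
    rw [mul_one] at this
    exact this

/-! ### the theorems -/

theorem zz_pow (k : ℕ) : zz ^ k = ((List.replicate k (2 : ℤ)).map pk).prod := by
  have h1 : pk 2 = zz := by
    have h := pz_rec (R := LN 0) 1
    have e1 : pz (LN 0) 1 = 1 := rfl
    have e2 : pz (LN 0) (1 - 1) = 0 := rfl
    rw [e1, e2, mul_one, add_zero] at h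
    exact h
  rw [List.map_replicate, List.prod_replicate, h1]

theorem ι_one : ι (PowerSeries.C (1 : ℚ)) = 1 := by rw [map_one, map_one]

theorem ι_neg_pow (k : ℕ) : ι (PowerSeries.C ((-1 : ℚ) ^ k)) = (-1) ^ k := by
  rw [map_pow, map_pow, map_neg, map_neg, map_one, map_one]

/-- A diagram of signed chains which is not separated from an unlink, one side. -/
theorem unl_aux {l : List ℤ} (h : ∀ n ∈ l, n ≠ 0) {c1 c2 n : ℕ}
    (hn : 10 * (c2 + l.length + c1) + (c1 + c2) + 1 ≤ n) {x y : ℚ} (hx : x ≠ 0)
    (e : Hd (n - (c1 + c2)) (ι (PowerSeries.C x) * (zz ^ c2 * (l.map pk).prod) -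
      ι (PowerSeries.C y) * (zz ^ c1 * 1))) : ∀ n ∈ l, n.natAbs ≤ 2 := by
  rw [zz_pow, zz_pow, mul_one, ← List.prod_append, ← List.map_append] at e
  have hc := fun m hm => pk_close (l := List.replicate c2 2 ++ l) (l' := List.replicate c1 2)
    (by
      intro k hk
      rcases List.mem_append.1 hk with h1 | h1
      · rw [List.eq_of_mem_replicate h1]
        norm_num
      · exact h k h1) (by
      intro k h1
      rw [List.eq_of_mem_replicate h1]
      norm_num) hx (L := n - (c1 + c2)) (by
      simp only [List.length_append, List.length_replicate]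
      omega) e (m := m) hm
  intro k hk
  by_contra hcon
  have h1 := hc k.natAbs (by omega)
  rw [List.map_replicate, List.count_replicate, if_neg, List.map_append, List.count_append] at h1
  · have h2 : k.natAbs ∈ l.map Int.natAbs := List.mem_map_of_mem hk
    have h3 := List.count_pos_iff.2 h2
    omega
  · rw [beq_iff_eq]
    have : (2 : ℤ).natAbs = 2 := rfl
    omega

theorem sep_unlink {w : List Bz} (hw : Chained w) {r n : ℕ}
    (hn : 10 * (r + nch w + (bands w).length + ((bands w).length + bc w)) +
      ((bands w).length + bc w + (r + nch w)) + 1 ≤ n)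
    (hs : ¬ Separated n (expand w) (unlink r)) :
    ((∀ k ∈ bands w, k ≠ -1) → ∀ k ∈ bands w, k = -3 ∨ k = -2 ∨ k = 0 ∨ k = 1) ∧
    ((∀ k ∈ bands w, k ≠ 1) → ∀ k ∈ bands w, k = 3 ∨ k = 2 ∨ k = 0 ∨ k = -1) := by
  have h1 := ld_chained hw
  have h2 := (ld_unlink r).more (nch w)
  rw [zero_add] at h2
  obtain ⟨ht, hb⟩ := h1.cmp h2 hs (by omega)
  constructor
  · intro h k hk
    have hl : ∀ j ∈ (bands w).map (fun n => n + 1), j ≠ 0 := by
      intro j hj
      obtain ⟨i, hi, rfl⟩ := List.mem_map.1 hj
      have := h i hi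
      omega
    obtain ⟨-, h5⟩ := ht (fun h6 => pk_not hl (h6.mono (by rw [List.length_map]; omega)))
      (fun h6 => Un_not Un.one (h6.mono (by omega)))
    have h6 := unl_aux hl (x := 1) (y := 1) (n := n) (c1 := (bands w).length + bc w)
      (c2 := r + nch w) (by rw [List.length_map]; omega) one_ne_zero (by
        rw [ι_one, one_mul, one_mul]
        exact h5)
    have h7 := h6 (k + 1) (List.mem_map_of_mem hk)
    have h8 := h k hk
    omega
  · intro h k hk
    have hl : ∀ j ∈ (bands w).map (fun n => n - 1), j ≠ 0 := by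
      intro j hj
      obtain ⟨i, hi, rfl⟩ := List.mem_map.1 hj
      have := h i hi
      omega
    obtain ⟨-, h5⟩ := hb (fun h6 => pk_not hl (h6.mono (by rw [List.length_map]; omega)))
      (fun h6 => Un_not Un.one (h6.mono (by omega)))
    have h6 := unl_aux hl (x := (-1) ^ (r + nch w)) (y := (-1) ^ ((bands w).length + bc w))
      (n := n) (c1 := (bands w).length + bc w)
      (c2 := r + nch w) (by rw [List.length_map]; omega) (pow_ne_zero _ (by norm_num)) (by
        rw [ι_neg_pow, ι_neg_pow, ← mul_assoc, ← mul_assoc, ← mul_pow, ← mul_pow, neg_one_mul]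
        exact h5)
    have h7 := h6 (k - 1) (List.mem_map_of_mem hk)
    have h8 := h k hk
    omega

/-- cancellation of powers of `zz` -/
theorem zz_cancel {m c : ℕ} {x : Kq} (h : Hd (c + m) (zz ^ c * x)) : Hd m x := by
  obtain ⟨u, h1, h2⟩ := zz_form
  rw [h1, mul_pow] at h
  have h3 : (hh ^ c * u ^ c) * x = (hh ^ c * x) * u ^ c := by ring
  rw [h3] at h
  exact ((h2.pow c).cancel h).cancel

theorem heavy_ne (w : List Bz) (h : Heavy w) :
    (∀ j ∈ (bands w).map (fun n => n + 1), j ≠ 0) ∧
      ∀ j ∈ (bands w).map (fun n => n - 1), j ≠ 0 := by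
  constructor
  · intro j hj
    obtain ⟨i, hi, rfl⟩ := List.mem_map.1 hj
    have := h i hi
    rcases le_abs.1 this with h1 | h1 <;> omega
  · intro j hj
    obtain ⟨i, hi, rfl⟩ := List.mem_map.1 hj
    have := h i hi
    rcases le_abs.1 this with h1 | h1 <;> omega

theorem pk_not' {l : List ℤ} (h : ∀ n ∈ l, n ≠ 0) {c : ℕ} (hc : l.length ≤ c) :
    ¬ Hd (c + 1) (l.map pk).prod := fun h6 => pk_not h (h6.mono (by omega))

/-- cancellation of a power of `zz` in a comparison of products -/
theorem close_of {l l' : List ℤ} (h : ∀ n ∈ l, n ≠ 0) (h' : ∀ n ∈ l', n ≠ 0) {c L : ℕ}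
    (hL : 10 * (l.length + l'.length) + 1 ≤ L)
    (e : Hd (c + L) (zz ^ c * ((l.map pk).prod - (l'.map pk).prod))) {m : ℕ} (hm : 2 ≤ m) :
    (l.map Int.natAbs).count m = (l'.map Int.natAbs).count m := by
  have h1 := zz_cancel e
  refine pk_close (x := 1) (y := 1) h h' one_ne_zero hL ?_ hm
  rw [ι_one, one_mul, one_mul]
  exact h1

theorem close_of' {l l' : List ℤ} (h : ∀ n ∈ l, n ≠ 0) (h' : ∀ n ∈ l', n ≠ 0) {c L : ℕ}
    (hL : 10 * (l.length + l'.length) + 1 ≤ L)
    (e : Hd (c + L) ((-zz) ^ c * ((l.map pk).prod - (l'.map pk).prod))) {m : ℕ} (hm : 2 ≤ m) :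
    (l.map Int.natAbs).count m = (l'.map Int.natAbs).count m := by
  refine close_of h h' hL (c := c) ?_ hm
  have h1 : (zz : Kq) ^ c * ((l.map pk).prod - (l'.map pk).prod) =
      (-1) ^ c * ((-zz) ^ c * ((l.map pk).prod - (l'.map pk).prod)) := by
    rw [← mul_assoc, ← mul_pow]
    congr 2
    ring
  rw [h1]
  exact e.smul (SS.pow_mem (SS.neg_mem SS.one_mem) _)

/-- the numbers agree -/
theorem pair_nums {w w' : List Bz} (hw : Chained w) (hw' : Chained w') (h : Heavy w)
    (h' : Heavy w') {n : ℕ}
    (hn : 2 * ((bands w).length + bc w + nch w' + ((bands w').length + bc w' + nch w)) + 1 ≤ n)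
    (hs : ¬ Separated n (expand w) (expand w')) :
    ∃ c, c = (bands w).length + bc w + nch w' ∧ c = (bands w').length + bc w' + nch w ∧
      wrt w = wrt w' ∧
      Hd (n - (c + c)) (zz ^ c * ((((bands w).map fun n => n + 1).map pk).prod -
        (((bands w').map fun n => n + 1).map pk).prod)) ∧
      Hd (n - (c + c)) ((-zz) ^ c * ((((bands w).map fun n => n - 1).map pk).prod -
        (((bands w').map fun n => n - 1).map pk).prod)) := by
  have h1 := (ld_chained hw).more (nch w')
  have h2 := (ld_chained hw').more (nch w)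
  rw [add_comm (nch w') (nch w)] at h2
  obtain ⟨ht, hb⟩ := h1.cmp h2 hs (by omega)
  have k1 := pk_not' (heavy_ne w h).1 (c := (bands w).length + bc w + nch w')
    (by rw [List.length_map]; omega)
  have k2 := pk_not' (heavy_ne w' h').1 (c := (bands w').length + bc w' + nch w)
    (by rw [List.length_map]; omega)
  have k3 := pk_not' (heavy_ne w h).2 (c := (bands w).length + bc w + nch w')
    (by rw [List.length_map]; omega)
  have k4 := pk_not' (heavy_ne w' h').2 (c := (bands w').length + bc w' + nch w)
    (by rw [List.length_map]; omega)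
  obtain ⟨h5, h6⟩ := ht k1 k2
  obtain ⟨h7, h8⟩ := hb k3 k4
  have h9 : (bands w).length + bc w + nch w' = (bands w').length + bc w' + nch w := by omega
  have h10 : wrt w = wrt w' := by omega
  rw [h9] at h6 h8
  refine ⟨_, h9.symm, rfl, h10, ?_, ?_⟩
  · rw [mul_sub]
    exact h6
  · rw [mul_sub]
    exact h8

/-- Two diagrams of signed chains with at least two crossings in every band which are not
separated have the same numbers of crossings in their bands. -/
theorem sep_pair {w w' : List Bz} (hw : Chained w) (hw' : Chained w') (h : Heavy w)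
    (h' : Heavy w') {n : ℕ}
    (hn : 2 * ((bands w).length + bc w + nch w' + ((bands w').length + bc w' + nch w)) + 1 ≤ n)
    (hn' : 20 * ((bands w).length + (bands w').length) +
      3 * ((bands w).length + bc w + nch w' + ((bands w').length + bc w' + nch w)) + 2 ≤ 2 * n)
    (hs : ¬ Separated n (expand w) (expand w')) :
    (bands w).Perm (bands w') ∧ wrt w = wrt w' ∧
      (bands w).length + bc w + nch w' = (bands w').length + bc w' + nch w := by
  obtain ⟨c, h1, h2, h3, h4, h5⟩ := pair_nums hw hw' h h' hn hs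
  obtain ⟨L, hL⟩ : ∃ L, n - (c + c) = c + L := ⟨n - (c + c) - c, by omega⟩
  have hL2 : 10 * ((bands w).length + (bands w').length) + 1 ≤ L := by omega
  rw [hL] at h4 h5
  refine ⟨perm_counts h h' (fun m hm => ?_) fun m hm => ?_, h3, by omega⟩
  · exact close_of (heavy_ne w h).1 (heavy_ne w' h').1
      (by rw [List.length_map, List.length_map]; exact hL2) h4 hm
  · exact close_of' (heavy_ne w h).2 (heavy_ne w' h').2
      (by rw [List.length_map, List.length_map]; exact hL2) h5 hm

end

end Run7.h849.SC
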