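import Pool.Agent.Run7.h849.SC.Exp

/-!
# The HOMFLY polynomial over the Laurent series, and its leading coefficients
-/

set_option autoImplicit false

namespace Run7.h849.SC

open Pool.Agent.Helper454.Wh (insD delD swpD noD OPiece OWord below forget OClosed OStep OIsotopic)
open Pool.Agent.Helper454.Wh.OPiece (birth death pos neg)
open Pool.Agent.Helper454.Wh.Homf
open Pool.Agent.Helper454.Wh.Homf.Par
open LaurentPolynomial

noncomputable section

/-- Laurent polynomials in `a` -/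
abbrev La : Type := LaurentPolynomial Kq

instance parLa : Par La where
  a := T 1
  ai := T (-1)
  z := C zz
  zi := C zz⁻¹
  dl := (T 1 - T (-1)) * C zz⁻¹
  h1 := by rw [← T_add]; rfl
  h2 := by
    rw [mul_comm, mul_assoc, ← C.map_mul, inv_mul_cancel₀ zz_ne, map_one, mul_one]
  h3 := by rw [← C.map_mul, mul_inv_cancel₀ zz_ne, map_one]

/-- `exp (N h)` as a unit -/
def uE (N : ℕ) : Kqˣ := ⟨E N, E (-N), E_neg N, by rw [mul_comm]; exact E_neg N⟩

/-- the evaluation at `a = exp (N h)` -/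
def φ (N : ℕ) : La →+* LN N := LaurentPolynomial.eval₂ (RingHom.id Kq) (uE N)

theorem φ_C (N : ℕ) (c : Kq) : φ N (C c) = c := by
  show LaurentPolynomial.eval₂ (RingHom.id Kq) (uE N) (C c) = c
  rw [LaurentPolynomial.eval₂_C]
  rfl

theorem φ_T (N : ℕ) (n : ℤ) : φ N (T n) = ((uE N ^ n : Kqˣ) : Kq) := by
  show LaurentPolynomial.eval₂ (RingHom.id Kq) (uE N) (T n) = _
  rw [LaurentPolynomial.eval₂_T]

theorem φ_a (N : ℕ) : φ N a = a := by
  show φ N (T 1) = (E N : Kq)
  rw [φ_T, zpow_one]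
  rfl

theorem φ_ai (N : ℕ) : φ N ai = ai := by
  show φ N (T (-1)) = (E (-N) : Kq)
  rw [φ_T, zpow_neg_one]
  rfl

theorem φ_z (N : ℕ) : φ N z = z := φ_C N zz

theorem φ_dl (N : ℕ) : φ N dl = dl := by
  show φ N ((T 1 - T (-1)) * C zz⁻¹) = ((E N - E (-N)) * zz⁻¹ : Kq)
  rw [map_mul, map_sub, φ_C]
  have h1 := φ_a N
  have h2 := φ_ai N
  have h1' : φ N (T 1) = (E N : Kq) := h1
  have h2' : φ N (T (-1)) = (E (-N) : Kq) := h2
  rw [h1', h2']
  rfl

/-- the graph of a ring homomorphism -/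
def grf {R R' : Type} [CommRing R] [CommRing R'] (φ : R →+* R') : Subring (R × R') where
  carrier := {x | φ x.1 = x.2}
  mul_mem' := fun {x y} hx hy => by
    show φ (x.1 * y.1) = x.2 * y.2
    rw [map_mul, hx, hy]
  one_mem' := map_one φ
  add_mem' := fun {x y} hx hy => by
    show φ (x.1 + y.1) = x.2 + y.2
    rw [map_add, hx, hy]
  zero_mem' := map_zero φ
  neg_mem' := fun {x} hx => by
    show φ (-x.1) = -x.2
    rw [map_neg, hx]

/-- change of the parameters -/
theorem map_ev {R R' : Type} [CommRing R] [CommRing R'] [Par R] [Par R'] (φ : R →+* R')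
    (ha : φ a = a) (hai : φ ai = ai) (hz : φ z = z) (hdl : φ dl = dl) (w : OWord) :
    φ (ev R w) = ev R' w :=
  ev_rel (Γ := grf φ) ⟨ha, hai, hz, hdl⟩ w

theorem map_lq {R R' : Type} [CommRing R] [CommRing R'] [Par R] [Par R'] (φ : R →+* R')
    (ha : φ a = a) (hai : φ ai = ai) (n : ℤ) : φ (lq R n) = lq R' n := by
  have h1 : ∀ n : ℕ, φ (lq R n) = lq R' n := by
    intro n
    induction n with
    | zero => rw [Nat.cast_zero, lq_zero, lq_zero, map_one]
    | succ n ih => rw [Nat.cast_succ, lq_add, lq_add, map_mul, ih, lq_one, lq_one, hai]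
  have h2 : ∀ n : ℕ, φ (lq R (-n)) = lq R' (-n) := by
    intro n
    induction n with
    | zero => rw [Nat.cast_zero, neg_zero, lq_zero, lq_zero, map_one]
    | succ n ih =>
      rw [Nat.cast_succ, neg_add, lq_add, lq_add, map_mul, ih, lq_neg, lq_neg, ha]
  obtain ⟨k, rfl | rfl⟩ := n.eq_nat_or_neg
  · exact h1 k
  · exact h2 k

/-- the HOMFLY polynomial specialises to the Laurent series -/
theorem φ_hat (N : ℕ) (w : OWord) : φ N (hatq La w) = hv N w := by
  rw [hatq, map_mul, map_lq (φ N) (φ_a N) (φ_ai N),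
    map_ev (φ N) (φ_a N) (φ_ai N) (φ_z N) (φ_dl N)]
  rfl

theorem E_inj {i j : ℤ} (h : E i = E j) : i = j := by
  have h1 : (E i).coeff ((1 : ℕ) : ℤ) = (E j).coeff ((1 : ℕ) : ℤ) := by rw [h]
  rw [E, E, ι_coeff, ι_coeff, coeff_EE, coeff_EE] at h1
  simp only [pow_one, Nat.factorial_one, Nat.cast_one, div_one, mul_one] at h1
  exact_mod_cast h1

/-- a Laurent polynomial with zeros at all `exp (N h)` is zero -/
theorem La_eq_zero {Q : La} (h : ∀ N : ℕ, 1 ≤ N → φ N Q = 0) : Q = 0 := by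
  obtain ⟨m, P, hP⟩ := LaurentPolynomial.exists_T_pow Q
  have h1 : P = 0 := by
    refine Polynomial.eq_zero_of_infinite_isRoot P ?_
    refine Set.infinite_of_injective_forall_mem (f := fun N : ℕ => E ((N + 1 : ℕ) : ℤ)) ?_ ?_
    · intro i j hij
      have := E_inj hij
      omega
    · intro N
      show P.IsRoot (E ((N + 1 : ℕ) : ℤ))
      have h2 : φ (N + 1) (Polynomial.toLaurent P) = 0 := by
        rw [hP, map_mul, h (N + 1) (by omega), zero_mul]
      have h3 : φ (N + 1) (Polynomial.toLaurent P) = Polynomial.eval₂ (RingHom.id Kq)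
          ((uE (N + 1) : Kqˣ) : Kq) P := LaurentPolynomial.eval₂_toLaurent _ _ P
      rw [h3] at h2
      rw [Polynomial.IsRoot, ← Polynomial.eval₂_id]
      exact h2
  rw [h1, map_zero] at hP
  have h2 : Q * T m * T (-m) = 0 := by rw [← hP, zero_mul]
  rw [mul_assoc, ← T_add, add_neg_cancel, T_zero, mul_one] at h2
  exact h2

/-! ### leading terms -/

/-- the coefficient at `d` is `c`, all coefficients above are zero -/
def Tc (p : La) (d : ℤ) (c : Kq) : Prop := p.coeff d = c ∧ ∀ k, d < k → p.coeff k = 0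

theorem Tc.low {p : La} {d e : ℤ} {c : Kq} (h : Tc p d c) (hde : d < e) : Tc p e 0 :=
  ⟨h.2 e hde, fun k hk => h.2 k (hde.trans hk)⟩

theorem Tc.zero (d : ℤ) : Tc 0 d 0 := ⟨rfl, fun _ _ => rfl⟩

theorem Tc.add {p q : La} {d : ℤ} {c c' : Kq} (hp : Tc p d c) (hq : Tc q d c') :
    Tc (p + q) d (c + c') := by
  refine ⟨?_, fun k hk => ?_⟩
  · rw [AddMonoidAlgebra.coeff_add, Finsupp.add_apply, hp.1, hq.1]
  · rw [AddMonoidAlgebra.coeff_add, Finsupp.add_apply, hp.2 k hk, hq.2 k hk, add_zero]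

theorem Tc.neg {p : La} {d : ℤ} {c : Kq} (hp : Tc p d c) : Tc (-p) d (-c) := by
  refine ⟨?_, fun k hk => ?_⟩
  · rw [AddMonoidAlgebra.coeff_neg, Finsupp.neg_apply, hp.1]
  · rw [AddMonoidAlgebra.coeff_neg, Finsupp.neg_apply, hp.2 k hk, neg_zero]

theorem Tc.sub {p q : La} {d : ℤ} {c c' : Kq} (hp : Tc p d c) (hq : Tc q d c') :
    Tc (p - q) d (c - c') := by
  rw [sub_eq_add_neg, sub_eq_add_neg]
  exact hp.add hq.neg

theorem Tc.sum0 {κ : Type} {s : Finset κ} {f : κ → La} {d : ℤ} (h : ∀ i ∈ s, Tc (f i) d 0) :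
    Tc (∑ i ∈ s, f i) d 0 := by
  classical
  induction s using Finset.induction_on with
  | empty => exact Tc.zero d
  | insert i s hi ih =>
    rw [Finset.sum_insert hi]
    have := (h i (Finset.mem_insert_self _ _)).add
      (ih fun j hj => h j (Finset.mem_insert_of_mem hj))
    rwa [add_zero] at this

theorem coeff_mul_top {p q : La} {a b : ℤ} (hp : ∀ k, a < k → p.coeff k = 0)
    (hq : ∀ k, b < k → q.coeff k = 0) : (p * q).coeff (a + b) = p.coeff a * q.coeff b := by
  classical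
  rw [AddMonoidAlgebra.coeff_mul, Finsupp.sum]
  rw [Finset.sum_eq_single a]
  · rw [Finsupp.sum, Finset.sum_eq_single b]
    · rw [if_pos rfl]
    · intro c hc hne
      rw [if_neg (fun h => hne (add_left_cancel h))]
    · intro hb
      rw [if_pos rfl, Finsupp.notMem_support_iff.1 hb, mul_zero]
  · intro c hc hne
    rw [Finsupp.sum]
    refine Finset.sum_eq_zero fun e he => ?_
    split_ifs with h
    · rcases lt_or_gt_of_ne hne with h1 | h1
      · have h3 : b < e := by omega
        rw [hq e h3, mul_zero]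
      · rw [hp c h1, zero_mul]
    · rfl
  · intro ha
    rw [Finsupp.sum]
    refine Finset.sum_eq_zero fun e he => ?_
    rw [Finsupp.notMem_support_iff.1 ha]
    split_ifs <;> simp

theorem Tc.mul {p q : La} {d e : ℤ} {c c' : Kq} (hp : Tc p d c) (hq : Tc q e c') :
    Tc (p * q) (d + e) (c * c') := by
  refine ⟨?_, fun k hk => ?_⟩
  · rw [coeff_mul_top hp.2 hq.2, hp.1, hq.1]
  · have h1 : d < k - e := by omega
    have h := coeff_mul_top (a := k - e) (b := e) (fun j hj => hp.2 j (by omega)) hq.2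
    rw [sub_add_cancel, hp.2 _ h1, zero_mul] at h
    exact h

theorem Tc.T (n : ℤ) : Tc (T n) n 1 := by
  refine ⟨?_, fun k hk => ?_⟩
  · rw [T_apply, if_pos rfl]
  · rw [T_apply, if_neg (by omega)]

theorem Tc.C (c : Kq) : Tc (C c) 0 c := by
  refine ⟨?_, fun k hk => ?_⟩
  · rw [C_apply, if_pos rfl]
  · rw [C_apply, if_neg (by omega)]

theorem Tc.one : Tc 1 0 1 := Tc.T 0

theorem Tc.pow {p : La} {d : ℤ} {c : Kq} (hp : Tc p d c) (n : ℕ) : Tc (p ^ n) (n * d) (c ^ n) := by
  induction n with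
  | zero =>
    rw [pow_zero, pow_zero, Nat.cast_zero, zero_mul]
    exact Tc.one
  | succ n ih =>
    rw [pow_succ, pow_succ, Nat.cast_succ, add_mul, one_mul]
    exact ih.mul hp

theorem Tc.prod {κ : Type} {s : Finset κ} {f : κ → La} {d : κ → ℤ} {c : κ → Kq}
    (h : ∀ i ∈ s, Tc (f i) (d i) (c i)) : Tc (∏ i ∈ s, f i) (∑ i ∈ s, d i) (∏ i ∈ s, c i) := by
  classical
  induction s using Finset.induction_on with
  | empty => exact Tc.one
  | insert i s hi ih =>
    rw [Finset.prod_insert hi, Finset.sum_insert hi, Finset.prod_insert hi]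
    exact (h i (Finset.mem_insert_self _ _)).mul (ih fun j hj => h j (Finset.mem_insert_of_mem hj))

theorem Tc.list {κ : Type} (l : List κ) {f : κ → La} {d : ℤ} {c : κ → Kq}
    (h : ∀ i ∈ l, Tc (f i) d (c i)) : Tc (l.map f).prod (l.length * d) (l.map c).prod := by
  induction l with
  | nil =>
    simp only [List.map_nil, List.prod_nil, List.length_nil, Nat.cast_zero, zero_mul]
    exact Tc.one
  | cons p l ih =>
    rw [List.map_cons, List.prod_cons, List.map_cons, List.prod_cons, List.length_cons]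
    have := (h p List.mem_cons_self).mul (ih fun j hj => h j (List.mem_cons_of_mem _ hj))
    have e : d + (l.length : ℤ) * d = ((l.length + 1 : ℕ) : ℤ) * d := by push_cast; ring
    rwa [e] at this

/-- the leading term is unique -/
theorem Tc.uniq {p : La} {d e : ℤ} {c c' : Kq} (hp : Tc p d c) (hq : Tc p e c') (hc : c ≠ 0)
    (hc' : c' ≠ 0) : d = e ∧ c = c' := by
  have h : d = e := by
    rcases lt_trichotomy d e with h | h | h
    · exact absurd (hq.1.symm.trans (hp.2 e h)) hc'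
    · exact h
    · exact absurd (hp.1.symm.trans (hq.2 d h)) hc
  subst h
  exact ⟨rfl, hp.1.symm.trans hq.1⟩

end

end Run7.h849.SC
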