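import Pool.Agent.Run7.h849.SC.Sts
import Pool.Agent.Run7.h849.SC.Lam

/-!
# The state sum and its leading coefficients
-/

set_option autoImplicit false

namespace Run7.h849.SC

open Pool.Agent.Helper454.Wh (insD delD swpD noD OPiece OWord below forget OClosed OStep OIsotopic)
open Pool.Agent.Helper454.Wh.OPiece (birth death pos neg)
open Pool.Agent.Helper454.Wh.Homf
open Pool.Agent.Helper454.Wh.Homf.Par
open Run7.h849 (cc pw fA ze)
open Finset

noncomputable section

set_option linter.unusedSectionVars false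

section
variable {R : Type} [CommRing R] [Par R]

/-- the product over the bands of a chain, closed and open -/
def Wk (R : Type) [CommRing R] [Par R] (f : ℕ → List ℤ) (k : ℕ) : R := ((f k).map (wz R)).prod
def Yk (R : Type) [CommRing R] [Par R] (f : ℕ → List ℤ) (k : ℕ) : R := ((f k).map (pz R)).prod

/-- one state -/
def Tm (R : Type) [CommRing R] [Par R] (w : List Bz) (f : ℕ → List ℤ) (A : Finset ℕ) : R :=
  (∏ k ∈ range (nch w), if k ∈ A then (dl : R) * Yk R f k else Wk R f k - Yk R f k) *
    (dl : R) ^ cc (stA A 0 w)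

theorem dl_ev {w : List Bz} {f : ℕ → List ℤ} (hw : Fits 0 w) (ha : Evn w) (hf : Dt f 0 w)
    (hl : ∀ k < nch w, 2 ≤ (f k).length ∧ (f k).length % 2 = 0) :
    (dl : R) ^ nch w * ev R (expand w) = ∑ A ∈ (range (nch w)).powerset, Tm R w f A := by
  rw [ev_sum hw ha hf, mul_sum]
  refine sum_congr rfl fun A _ => ?_
  rw [Tm, ← mul_assoc]
  congr 1
  rw [pw]
  have : (dl : R) ^ nch w = ∏ _k ∈ range (nch w), (dl : R) := by
    rw [prod_const, card_range]
  rw [this, ← prod_mul_distrib]
  refine prod_congr rfl fun k hk => ?_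
  have h1 := hl k (mem_range.1 hk)
  have hne : f k ≠ [] := by
    intro h
    rw [h] at h1
    simp at h1
  have e1 := cf3_fst (R := R) hne
  have e2 := cf3_snd (R := R) hne
  rw [if_pos h1.2, one_mul] at e1
  split_ifs
  · rw [kf, e2]
    rfl
  · rw [lf, Wk, Yk, ← e1, ← e2]
    ring

end

/-- the data of the chains have the properties of the chains -/
theorem Dt_all {P : List ℤ → Prop} {w : List Bz} {f : ℕ → List ℤ} {t : ℕ} (hf : Dt f t w)
    (h : ∀ i ns, Bz.c i ns ∈ w → P ns) : ∀ k, t ≤ k → k < t + nch w → P (f k) := by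
  induction w generalizing t with
  | nil =>
    intro k h1 h2
    rw [nch] at h2
    omega
  | cons p w ih =>
    have h' : ∀ i ns, Bz.c i ns ∈ w → P ns := fun i ns hm => h i ns (List.mem_cons_of_mem _ hm)
    cases p with
    | b i => exact ih hf h'
    | d i => exact ih hf h'
    | c i ns =>
      intro k h1 h2
      rw [nch] at h2
      rcases Nat.eq_or_lt_of_le h1 with rfl | h3
      · rw [hf.1]
        exact h i ns List.mem_cons_self
      · exact ih hf.2 h' k (by omega) (by omega)

/-- products over all the bands -/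
theorem bands_prod {M : Type} [CommMonoid M] (g : ℤ → M) {w : List Bz} {f : ℕ → List ℤ} {t : ℕ}
    (hf : Dt f t w) : ((bands w).map g).prod = ∏ k ∈ Ico t (t + nch w), ((f k).map g).prod := by
  induction w generalizing t with
  | nil => simp [bands, nch]
  | cons p w ih =>
    cases p with
    | b i => exact ih hf
    | d i => exact ih hf
    | c i ns =>
      have e := Finset.prod_eq_prod_Ico_succ_bot (show t < t + (nch w + 1) by omega)
        (fun k => ((f k).map g).prod)
      rw [bands, List.map_append, List.prod_append, ih hf.2, nch, e, hf.1,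
        show t + (nch w + 1) = t + 1 + nch w by omega]

theorem bands_len {w : List Bz} {f : ℕ → List ℤ} {t : ℕ}
    (hf : Dt f t w) : (bands w).length = ∑ k ∈ Ico t (t + nch w), (f k).length := by
  induction w generalizing t with
  | nil => simp [bands, nch]
  | cons p w ih =>
    cases p with
    | b i => exact ih hf
    | d i => exact ih hf
    | c i ns =>
      have e := Finset.sum_eq_sum_Ico_succ_bot (show t < t + (nch w + 1) by omega)
        (fun k => (f k).length)
      rw [bands, List.length_append, ih hf.2, nch, e, hf.1,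
        show t + (nch w + 1) = t + 1 + nch w by omega]

/-! ### leading terms -/

/-- the coefficients `p_n` -/
def pk (n : ℤ) : Kq := pz (LN 0) n

theorem map_fA {R R' : Type} [CommRing R] [CommRing R'] [Par R] [Par R'] (φ : R →+* R')
    (hz : φ z = z) (s : Bool) (n : ℕ) : φ (fA R s n) = fA R' s n := by
  have hze : φ (ze R s) = ze R' s := by
    cases s
    · simp only [ze, Bool.false_eq_true, if_false, map_neg, hz]
    · simp only [ze, if_true, hz]
  have h : ∀ n : ℕ, φ (fA R s n) = fA R' s n ∧ φ (fA R s (n + 1)) = fA R' s (n + 1) := by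
    intro n
    induction n with
    | zero => exact ⟨by simp [fA], by simp [fA]⟩
    | succ n ih =>
      refine ⟨ih.2, ?_⟩
      have e1 : fA R s (n + 1 + 1) = ze R s * fA R s (n + 1) + fA R s n := rfl
      have e2 : fA R' s (n + 1 + 1) = ze R' s * fA R' s (n + 1) + fA R' s n := rfl
      rw [e1, e2, map_add, map_mul, ih.1, ih.2, hze]
  exact (h n).1

theorem map_pz {R R' : Type} [CommRing R] [CommRing R'] [Par R] [Par R'] (φ : R →+* R')
    (hz : φ z = z) (n : ℤ) : φ (pz R n) = pz R' n := by
  cases n with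
  | ofNat n => exact map_fA φ hz true n
  | negSucc n => exact map_fA φ hz false (n + 1)

theorem pz_La (n : ℤ) : pz La n = LaurentPolynomial.C (pk n) :=
  (map_pz (R := LN 0) (R' := La) (LaurentPolynomial.C : Kq →+* La) rfl n).symm

/-- the identity -/
def idh (N : ℕ) : LN 0 →+* LN N := RingHom.id Kq

theorem pz_LN (N : ℕ) (n : ℤ) : (pz (LN N) n : Kq) = pk n := by
  have h : (idh N) (z : LN 0) = (z : LN N) := rfl
  exact (map_pz (idh N) h n).symm

theorem wz_La (n : ℤ) : wz La n = LaurentPolynomial.C zz⁻¹ *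
    (LaurentPolynomial.T 1 * LaurentPolynomial.C (pk (n + 1)) -
      LaurentPolynomial.T (-1) * LaurentPolynomial.C (pk (n - 1))) := by
  have e := z_wz (R := La) n
  have e1 : (LaurentPolynomial.C zz⁻¹ : La) * z = 1 := by
    show (LaurentPolynomial.C zz⁻¹ : La) * LaurentPolynomial.C zz = 1
    rw [← LaurentPolynomial.C.map_mul, inv_mul_cancel₀ zz_ne, map_one]
  have e2 : wz La n = (LaurentPolynomial.C zz⁻¹ : La) * (z * wz La n) := by
    rw [← mul_assoc, e1, one_mul]
  rw [e2, e, pz_La, pz_La]
  rfl

/-- leading terms on one of the two sides -/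
structure Side (ρ : La →+* La) (u : Kq) (g : ℤ → Kq) : Prop where
  dl : Tc (ρ dl) 1 u
  w : ∀ n, Tc (ρ (wz La n)) 1 (g n)
  c : ∀ c, ρ (LaurentPolynomial.C c) = LaurentPolynomial.C c

theorem Side.dl0 {ρ : La →+* La} {u : Kq} {g : ℤ → Kq} (h : Side ρ u g) {w : List Bz}
    {f : ℕ → List ℤ} (hf : Dt f 0 w) (hw : Fits 0 w)
    (hev : ∀ i ns, Bz.c i ns ∈ w → 2 ≤ ns.length ∧ ns.length % 2 = 0)
    (hlo : ∀ k < nch w, (f k).length = 2 → cc (stA {k} 0 w) + 1 = cc (stA ∅ 0 w)) :
    Tc (ρ ((Par.dl : La) ^ nch w * ev La (expand w)))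
      ((bands w).length + cc (stA ∅ 0 w)) (((bands w).map g).prod * u ^ cc (stA ∅ 0 w)) := by
  classical
  have hl : ∀ k < nch w, 2 ≤ (f k).length ∧ (f k).length % 2 = 0 := fun k hk =>
    Dt_all (P := fun ns => 2 ≤ ns.length ∧ ns.length % 2 = 0) hf hev k (Nat.zero_le _) (by omega)
  rw [dl_ev hw (evn_of hev) hf hl, map_sum]
  have hY : ∀ k, Tc (ρ (Yk La f k)) 0 ((f k).map pk).prod := by
    intro k
    have : Yk La f k = LaurentPolynomial.C ((f k).map pk).prod := by
      rw [Yk, map_list_prod, List.map_map]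
      congr 1
      exact List.map_congr_left fun n _ => pz_La n
    rw [this, h.c]
    exact Tc.C _
  have hW : ∀ k, Tc (ρ (Wk La f k)) (f k).length ((f k).map g).prod := by
    intro k
    rw [Wk, map_list_prod, List.map_map]
    have := Tc.list (f k) (f := ρ ∘ wz La) (d := 1) (c := g) fun n _ => h.w n
    rwa [mul_one] at this
  have hWY : ∀ k < nch w, Tc (ρ (Wk La f k - Yk La f k)) (f k).length ((f k).map g).prod := by
    intro k hk
    rw [map_sub]
    have h1 := (hW k).sub ((hY k).low (e := (f k).length) (by have := (hl k hk).1; omega))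
    rwa [sub_zero] at h1
  have hterm : ∀ A ∈ (range (nch w)).powerset, ∃ c, Tc (ρ (Tm La w f A))
      ((∑ k ∈ range (nch w), if k ∈ A then (1 : ℤ) else ((f k).length : ℤ)) +
        cc (stA A 0 w)) c := by
    intro A _
    rw [Tm, map_mul, map_prod, map_pow]
    have h1 := Tc.prod (s := range (nch w))
      (f := fun k => ρ (if k ∈ A then (Par.dl : La) * Yk La f k else Wk La f k - Yk La f k))
      (d := fun k => if k ∈ A then (1 : ℤ) else ((f k).length : ℤ))
      (c := fun k => if k ∈ A then u * ((f k).map pk).prod else ((f k).map g).prod) (by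
        intro k hk
        split_ifs with hkA
        · rw [map_mul]
          have := h.dl.mul (hY k)
          rwa [add_zero] at this
        · exact hWY k (mem_range.1 hk))
    have h2 := h1.mul (h.dl.pow (cc (stA A 0 w)))
    rw [mul_one] at h2
    exact ⟨_, h2⟩
  rw [← Finset.sum_erase_add _ _ (empty_mem_powerset _)]
  have hsum : ((bands w).length : ℤ) = ∑ k ∈ range (nch w), ((f k).length : ℤ) := by
    have := bands_len hf
    rw [zero_add, ← range_eq_Ico] at this
    rw [this, Nat.cast_sum]
  have h0 : Tc (ρ (Tm La w f ∅)) ((bands w).length + cc (stA ∅ 0 w))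
      (((bands w).map g).prod * u ^ cc (stA ∅ 0 w)) := by
    rw [Tm, map_mul, map_prod, map_pow]
    have e1 := bands_prod g hf
    rw [zero_add, ← range_eq_Ico] at e1
    rw [hsum, e1]
    have h1 := Tc.prod (s := range (nch w))
      (f := fun k => ρ (if k ∈ (∅ : Finset ℕ) then (Par.dl : La) * Yk La f k
        else Wk La f k - Yk La f k))
      (d := fun k => ((f k).length : ℤ))
      (c := fun k => ((f k).map g).prod) (by
        intro k hk
        simp only [notMem_empty, if_false]
        exact hWY k (mem_range.1 hk))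
    have h2 := h1.mul (h.dl.pow (cc (stA ∅ 0 w)))
    rw [mul_one] at h2
    exact h2
  have hrest : Tc (∑ A ∈ (range (nch w)).powerset.erase ∅, ρ (Tm La w f A))
      ((bands w).length + cc (stA ∅ 0 w)) 0 := by
    refine Tc.sum0 fun A hA => ?_
    obtain ⟨hne, hA⟩ := mem_erase.1 hA
    obtain ⟨c, hc⟩ := hterm A hA
    refine hc.low ?_
    have hA' := mem_powerset.1 hA
    -- the sum of the degrees
    have e1 : (∑ k ∈ range (nch w), if k ∈ A then (1 : ℤ) else ((f k).length : ℤ)) =
        ∑ k ∈ range (nch w), ((f k).length : ℤ) - ∑ k ∈ A, (((f k).length : ℤ) - 1) := by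
      have : ∑ k ∈ A, (((f k).length : ℤ) - 1) =
          ∑ k ∈ range (nch w), if k ∈ A then (((f k).length : ℤ) - 1) else 0 := by
        rw [← Finset.sum_filter]
        refine sum_congr ?_ fun _ _ => rfl
        ext k
        rw [mem_filter]
        exact ⟨fun h => ⟨hA' h, h⟩, fun h => h.2⟩
      rw [this, ← sum_sub_distrib]
      refine sum_congr rfl fun k _ => ?_
      split_ifs <;> ring
    rw [e1, hsum]
    have key : (cc (stA A 0 w) : ℤ) < ∑ k ∈ A, (((f k).length : ℤ) - 1) + cc (stA ∅ 0 w) := by
      by_cases h4 : ∃ k ∈ A, (f k).length ≠ 2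
      · obtain ⟨k, hk, hk2⟩ := h4
        have h5 := cc_le hw hA' (empty_subset A)
        rw [sdiff_empty] at h5
        have h6 : (A.card : ℤ) < ∑ k ∈ A, (((f k).length : ℤ) - 1) := by
          have : ∑ _k ∈ A, (1 : ℤ) < ∑ k ∈ A, (((f k).length : ℤ) - 1) := by
            refine sum_lt_sum (fun j hj => ?_) ⟨k, hk, ?_⟩
            · have := (hl j (mem_range.1 (hA' hj))).1
              omega
            · have := hl k (mem_range.1 (hA' hk))
              omega
          rwa [sum_const, nsmul_eq_mul, mul_one] at this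
        omega
      · push Not at h4
        obtain ⟨k, hk⟩ := nonempty_iff_ne_empty.2 hne
        have h5 := cc_le hw hA' (singleton_subset_iff.2 hk)
        have h6 := hlo k (mem_range.1 (hA' hk)) (h4 k hk)
        have h7 : (A \ {k}).card + 1 = A.card := by
          rw [card_sdiff_of_subset (singleton_subset_iff.2 hk), card_singleton]
          have := card_pos.2 ⟨k, hk⟩
          omega
        have h8 : ∑ k ∈ A, (((f k).length : ℤ) - 1) = A.card := by
          rw [sum_congr rfl fun j hj => by rw [h4 j hj], sum_const, nsmul_eq_mul]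
          push_cast
          ring
        rw [h8]
        omega
    omega
  have := hrest.add h0
  rwa [zero_add] at this

/-- the side of large exponents of `a` -/
theorem side_top : Side (RingHom.id La) zz⁻¹ (fun n => zz⁻¹ * pk (n + 1)) := by
  refine ⟨?_, fun n => ?_, fun c => rfl⟩
  · show Tc ((LaurentPolynomial.T 1 - LaurentPolynomial.T (-1)) * LaurentPolynomial.C zz⁻¹) 1 zz⁻¹
    have h := ((Tc.T 1).sub ((Tc.T (-1)).low (e := 1) (by omega))).mul (Tc.C zz⁻¹)
    rwa [sub_zero, one_mul, add_zero] at h
  · rw [RingHom.id_apply, wz_La]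
    have h1 : Tc ((LaurentPolynomial.T (-1) : La) * LaurentPolynomial.C (pk (n - 1))) (-1)
        (1 * pk (n - 1)) := by
      have := (Tc.T (-1)).mul (Tc.C (pk (n - 1)))
      rwa [add_zero] at this
    have h := (Tc.C zz⁻¹).mul (((Tc.T 1).mul (Tc.C (pk (n + 1)))).sub
      (h1.low (e := 1 + 0) (by omega)))
    rwa [sub_zero, one_mul, add_zero, zero_add] at h

/-- the side of small exponents of `a` -/
theorem side_bot : Side ((LaurentPolynomial.invert (R := Kq) : La ≃ₐ[Kq] La) : La →+* La) (-zz⁻¹)
    (fun n => -zz⁻¹ * pk (n - 1)) := by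
  refine ⟨?_, fun n => ?_, fun c => LaurentPolynomial.invert_C c⟩
  · show Tc (LaurentPolynomial.invert ((LaurentPolynomial.T 1 - LaurentPolynomial.T (-1)) *
      LaurentPolynomial.C zz⁻¹)) 1 (-zz⁻¹)
    rw [map_mul, map_sub, LaurentPolynomial.invert_T, LaurentPolynomial.invert_T,
      LaurentPolynomial.invert_C, neg_neg]
    have h := (((Tc.T (-1)).low (e := 1) (by omega)).sub (Tc.T 1)).mul (Tc.C zz⁻¹)
    rwa [zero_sub, neg_one_mul, add_zero] at h
  · show Tc (LaurentPolynomial.invert (wz La n)) 1 (-zz⁻¹ * pk (n - 1))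
    rw [wz_La, map_mul, map_sub, map_mul, map_mul, LaurentPolynomial.invert_T,
      LaurentPolynomial.invert_T, LaurentPolynomial.invert_C, LaurentPolynomial.invert_C,
      LaurentPolynomial.invert_C, neg_neg]
    have h1 : Tc ((LaurentPolynomial.T (-1) : La) * LaurentPolynomial.C (pk (n + 1))) (-1)
        (1 * pk (n + 1)) := by
      have := (Tc.T (-1)).mul (Tc.C (pk (n + 1)))
      rwa [add_zero] at this
    have h := (Tc.C zz⁻¹).mul ((h1.low (e := 1 + 0) (by omega)).sub
      ((Tc.T 1).mul (Tc.C (pk (n - 1)))))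
    rw [zero_sub, one_mul, add_zero, zero_add] at h
    have e : zz⁻¹ * -pk (n - 1) = -zz⁻¹ * pk (n - 1) := by ring
    rwa [e] at h

end

end Run7.h849.SC
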