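import Pool.Agent.Run7.h849.SC.Top
import Pool.Agent.Helper82_Alt.UniP

/-!
# Signed chains and the HOMFLYPT polynomial itself
-/

set_option autoImplicit false

namespace Run7.h849.SC

open Pool.Agent.Helper454.Wh (OPiece OWord OClosed OIsotopic noD Rlm IsHomfly HomflyRules lPow mPow
  ocircle)
open Pool.Agent.Helper454.Wh.OPiece (birth death pos neg)
open Pool.Agent.Helper454.Wh.Homf hiding X
open Pool.Agent.Helper454.Wh.Homf.Par
open Run7.h849 (seif clo BraidWord cc)

noncomputable section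

/-! ### uniqueness of the polynomial -/

theorem two_rules {P Q : OWord → Rlm} (hP : IsHomfly P) (hQ : IsHomfly Q) :
    HomflyRules (lPow 1) (lPow (-1)) (mPow 1) (fun A => (P A, Q A)) where
  isotopy := by
    intro D E h
    exact Prod.ext (hP.1.isotopy _ _ h) (hQ.1.isotopy _ _ h)
  parallel := by
    intro x i y h hd
    exact Prod.ext (hP.1.parallel x i y h hd) (hQ.1.parallel x i y h hd)
  antiparallel := by
    intro x i y h hd
    exact Prod.ext (hP.1.antiparallel x i y h hd) (hQ.1.antiparallel x i y h hd)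

theorem homfly_unique {P Q : OWord → Rlm} (hP : IsHomfly P) (hQ : IsHomfly Q) {D : OWord}
    (hD : OClosed D) (hne : D ≠ []) : P D = Q D := by
  obtain ⟨p, -, hp⟩ := Pool.Agent.Helper82_Alt.PUniP.t_B2' (Rlm × Rlm) _ (two_rules hP hQ) D hD hne
  have h1 : P D = p := by
    have := congrArg Prod.fst hp
    simpa [hP.2] using this
  have h2 : Q D = p := by
    have := congrArg Prod.snd hp
    simpa [hQ.2] using this
  rw [h1, h2]

/-! ### change of the coefficients -/

/-- `zz` as a unit -/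
def uz : Laˣ := ⟨z, zi, h3, by rw [mul_comm]; exact h3⟩

/-- from polynomials in `l`, `m` to Laurent polynomials in `a` over the Laurent series -/
def ψ : Rlm →+* La :=
  LaurentPolynomial.eval₂ (LaurentPolynomial.eval₂ (Int.castRingHom La) (ua La)) uz

theorem ψ_l (n : ℤ) : ψ (lPow n) = lq La n := by
  show LaurentPolynomial.eval₂ _ _ (LaurentPolynomial.C (LaurentPolynomial.T n)) = _
  rw [LaurentPolynomial.eval₂_C, LaurentPolynomial.eval₂_T]
  rfl

theorem ψ_m (n : ℤ) : ψ (mPow n) = ((uz ^ n : Laˣ) : La) := by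
  show LaurentPolynomial.eval₂ _ _ (LaurentPolynomial.T n) = _
  rw [LaurentPolynomial.eval₂_T]

theorem ψ_ev (w : OWord) : ψ (ev Rlm w) = ev La w := by
  refine map_ev ψ ?_ ?_ ?_ ?_ w
  · show ψ (lPow (-1)) = a
    rw [ψ_l, lq_neg]
  · show ψ (lPow 1) = ai
    rw [ψ_l, lq_one]
  · show ψ (mPow 1) = z
    rw [ψ_m, zpow_one]
    rfl
  · show ψ (mPow (-1) * (lPow (-1) - lPow 1)) = dl
    rw [map_mul, map_sub, ψ_m, ψ_l, ψ_l, lq_neg, lq_one, zpow_neg_one]
    show (LaurentPolynomial.C zz⁻¹ : La) * (LaurentPolynomial.T 1 - LaurentPolynomial.T (-1)) =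
      (LaurentPolynomial.T 1 - LaurentPolynomial.T (-1)) * LaurentPolynomial.C zz⁻¹
    ring

theorem hat_of {P : OWord → Rlm} (hP : IsHomfly P) {D : OWord} (hD : OClosed D) (hne : D ≠ []) :
    ψ ((dl : Rlm) * P D) = hatq La D := by
  rw [homfly_unique hP isHomfly hD hne, Lam_dl hD hne, map_mul, ψ_l, ψ_ev, hatq]

/-! ### comparison of the leading data -/

theorem Tc.uniq2 {p : La} {d d' : ℤ} {c c' : Kq} (h : Tc p d c) (h' : Tc p d' c') (hc : c ≠ 0)
    (hc' : c' ≠ 0) : d = d' ∧ c = c' := by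
  have e : d = d' := by
    rcases lt_trichotomy d d' with h1 | h1 | h1
    · exact absurd (h'.1.symm.trans (h.2 _ h1)) hc'
    · exact h1
    · exact absurd (h.1.symm.trans (h'.2 _ h1)) hc
  subst e
  exact ⟨rfl, h.1.symm.trans h'.1⟩

theorem ex_aux {x y c1 c2 : Kq} (hx : x * y = 1) {n m : ℕ} (e : x ^ n * c1 = x ^ m * c2) :
    y ^ m * c1 = y ^ n * c2 := by
  have h1 : x ^ n * y ^ n = 1 := by rw [← mul_pow, hx, one_pow]
  have h2 : x ^ m * y ^ m = 1 := by rw [← mul_pow, hx, one_pow]
  linear_combination (y ^ n * y ^ m) * e - (y ^ m * c1) * h1 + (y ^ n * c2) * h2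

theorem Ld.eqs {D D' : OWord} {g c1 c2 : ℕ} {t t' : ℤ} {P P' Q Q' : Kq} (h : Ld D g c1 t P P')
    (h' : Ld D' g c2 t' Q Q') (e : hatq La D = hatq La D') :
    (P ≠ 0 → Q ≠ 0 → ((c1 : ℤ) - t = c2 - t' ∧ zz ^ c2 * P = zz ^ c1 * Q)) ∧
    (P' ≠ 0 → Q' ≠ 0 → ((c1 : ℤ) + t = c2 + t' ∧ (-zz) ^ c2 * P' = (-zz) ^ c1 * Q')) := by
  have hz : zz⁻¹ * zz = 1 := inv_mul_cancel₀ zz_ne
  have hz' : -zz⁻¹ * -zz = 1 := by rw [neg_mul_neg, hz]
  have ht := h.top
  have hb := h.bot
  rw [e] at ht hb
  constructor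
  · intro hP hQ
    obtain ⟨h1, h2⟩ := ht.uniq2 h'.top (mul_ne_zero (pow_ne_zero _ (inv_ne_zero zz_ne)) hP)
      (mul_ne_zero (pow_ne_zero _ (inv_ne_zero zz_ne)) hQ)
    exact ⟨h1, ex_aux hz h2⟩
  · intro hP hQ
    obtain ⟨h1, h2⟩ := hb.uniq2 h'.bot (mul_ne_zero (pow_ne_zero _ (neg_ne_zero.2
      (inv_ne_zero zz_ne))) hP) (mul_ne_zero (pow_ne_zero _ (neg_ne_zero.2
      (inv_ne_zero zz_ne))) hQ)
    exact ⟨h1, ex_aux hz' h2⟩

theorem pkp_ne {l : List ℤ} (h : ∀ n ∈ l, n ≠ 0) : (l.map pk).prod ≠ 0 := by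
  intro e
  have h1 := pk_not h
  rw [e] at h1
  exact h1 (Hd.zero _)

theorem sum_nat {l : List ℤ} (h : ∀ n ∈ l, n = 0 ∨ n = 1) :
    (l.sum : ℤ) = ((l.map Int.natAbs).sum : ℕ) := by
  induction l with
  | nil => rfl
  | cons k l ih =>
    rw [List.sum_cons, List.map_cons, List.sum_cons, ih fun n hn => h n (List.mem_cons_of_mem _ hn)]
    rcases h k List.mem_cons_self with rfl | rfl
    · simp
    · push_cast
      simp

theorem sum_nat' {l : List ℤ} (h : ∀ n ∈ l, n = 0 ∨ n = -1) :
    (-l.sum : ℤ) = ((l.map Int.natAbs).sum : ℕ) := by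
  induction l with
  | nil => rfl
  | cons k l ih =>
    have := ih fun n hn => h n (List.mem_cons_of_mem _ hn)
    rw [List.sum_cons, List.map_cons, List.sum_cons, neg_add, this]
    rcases h k List.mem_cons_self with rfl | rfl
    · simp
    · push_cast
      simp

theorem unlink_closed (r : ℕ) : OClosed (unlink r) := by
  have h : ∀ r : ℕ, Pool.Agent.Helper454.Wh.below (unlink r) 0 noD = some (0, noD) := by
    intro r
    induction r with
    | zero => rfl
    | succ r ih =>
      show Pool.Agent.Helper454.Wh.below (birth 0 true :: death 0 :: unlink r) 0 noD = _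
      rw [Pool.Agent.Helper454.Wh.below]
      have e1 : OPiece.below (birth 0 true) 0 noD = some (2,
        Pool.Agent.Helper454.Wh.insD 0 true noD) := rfl
      rw [e1, Option.bind_some, Pool.Agent.Helper454.Wh.below]
      have e2 : OPiece.below (death 0) 2 (Pool.Agent.Helper454.Wh.insD 0 true noD) =
        some (0, noD) := by
        have h1 : Pool.Agent.Helper454.Wh.delD 0 (Pool.Agent.Helper454.Wh.insD 0 true noD) =
            noD := by
          funext k
          simp [Pool.Agent.Helper454.Wh.delD, Pool.Agent.Helper454.Wh.insD, noD]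
        simp only [OPiece.below]
        rw [if_pos ⟨le_rfl, rfl⟩, h1]
      rw [e2, Option.bind_some]
      exact ih
  rw [OClosed, h r]
  rfl

theorem expand_ne {w : List Bz} (hw : Chained w) (hne : w ≠ []) : expand w ≠ [] := by
  have hf := hw.fits
  cases w with
  | nil => exact absurd rfl hne
  | cons p w =>
    cases p with
    | b i => simp [expand]
    | d i =>
      obtain ⟨h1, -⟩ := hf
      omega
    | c i ns =>
      obtain ⟨h1, -⟩ := hf
      omega

/-- Detection of the unlinks by the HOMFLYPT polynomial among the diagrams of signed chains. -/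
theorem homfly_unlink {P : OWord → Rlm} (hP : IsHomfly P) {w : List Bz} (hw : Chained w)
    (hne : w ≠ []) (h : (∀ n ∈ bands w, n ≠ -1) ∨ (∀ n ∈ bands w, n ≠ 1)) {r : ℕ} (hr : 0 < r)
    (e : P (expand w) = P (unlink r)) :
    (∀ n ∈ bands w, |n| ≤ 1) ∧ ((bands w).map Int.natAbs).sum + r = seif (expand w) := by
  obtain ⟨k, rfl⟩ : ∃ k, r = k + 1 := ⟨r - 1, by omega⟩
  have hu : unlink (k + 1) ≠ [] := by
    show birth 0 true :: death 0 :: unlink k ≠ []
    simp
  have e1 := hat_of hP (closed_expand hw) (expand_ne hw hne)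
  have e2 := hat_of hP (unlink_closed (k + 1)) hu
  rw [e, e2] at e1
  have h1 := ld_chained hw
  have h2 := (ld_unlink (k + 1)).more (nch w)
  rw [zero_add] at h2
  have hwr := wrt_sum hw
  have hsf := seif_expand hw
  obtain ⟨ht, hb⟩ := h1.eqs h2 e1.symm
  rcases h with h | h
  · have hl : ∀ j ∈ (bands w).map (fun n => n + 1), j ≠ 0 := by
      intro j hj
      obtain ⟨i, hi, rfl⟩ := List.mem_map.1 hj
      have := h i hi
      omega
    obtain ⟨h0, h5⟩ := ht (pkp_ne hl) one_ne_zero
    obtain ⟨h6, h6'⟩ := unl_count hl (x := 1) (y := 1) (c1 := (bands w).length + bc w)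
      (c2 := k + 1 + nch w)
      (n := 10 * (k + 1 + nch w + ((bands w).map fun n => n + 1).length +
        ((bands w).length + bc w)) + ((bands w).length + bc w + (k + 1 + nch w)) + 1)
      le_rfl one_ne_zero (by
        rw [ι_one, one_mul, one_mul, h5, sub_self]
        exact Hd.zero _)
    have h9 := sum_count (fun j hj => by
      have h7 := h6 (j + 1) (List.mem_map_of_mem hj)
      have h8 := h j hj
      omega) (l := bands w) (by omega)
    have h10 := sum_nat h9
    refine ⟨fun n hn => ?_, by omega⟩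
    rcases h9 n hn with rfl | rfl <;> norm_num
  · have hl : ∀ j ∈ (bands w).map (fun n => n - 1), j ≠ 0 := by
      intro j hj
      obtain ⟨i, hi, rfl⟩ := List.mem_map.1 hj
      have := h i hi
      omega
    obtain ⟨h0, h5⟩ := hb (pkp_ne hl) one_ne_zero
    obtain ⟨h6, h6'⟩ := unl_count hl (x := (-1) ^ (k + 1 + nch w))
      (y := (-1) ^ ((bands w).length + bc w)) (c1 := (bands w).length + bc w)
      (c2 := k + 1 + nch w)
      (n := 10 * (k + 1 + nch w + ((bands w).map fun n => n - 1).length +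
        ((bands w).length + bc w)) + ((bands w).length + bc w + (k + 1 + nch w)) + 1)
      le_rfl (pow_ne_zero _ (by norm_num)) (by
        rw [ι_neg_pow, ι_neg_pow, ← mul_assoc, ← mul_assoc, ← mul_pow, ← mul_pow, neg_one_mul, h5,
          sub_self]
        exact Hd.zero _)
    have h9 := sum_count' (fun j hj => by
      have h7 := h6 (j - 1) (List.mem_map_of_mem hj)
      have h8 := h j hj
      omega) (l := bands w) (by omega)
    have h10 := sum_nat' h9
    refine ⟨fun n hn => ?_, by omega⟩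
    rcases h9 n hn with rfl | rfl <;> norm_num

end

end Run7.h849.SC
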