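import Pool.Agent.Run7.h849.SC.Bn

/-!
# Orders of vanishing, and the coefficients of a Laurent polynomial from its values
-/

set_option autoImplicit false

namespace Run7.h849.SC

open Pool.Agent.Helper454.Wh (insD delD swpD noD OPiece OWord below forget OClosed OStep OIsotopic)
open Pool.Agent.Helper454.Wh.Homf hiding X
open Pool.Agent.Helper454.Wh.Homf.Par
open PowerSeries (X)

noncomputable section

/-- divisible by `h ^ m` -/
def Hd (m : ℕ) (x : Kq) : Prop := ∃ r : PowerSeries ℚ, x = ι (X ^ m * r)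

theorem Hd.zero (m : ℕ) : Hd m 0 := ⟨0, by simp⟩

theorem Hd.add {m : ℕ} {x y : Kq} (hx : Hd m x) (hy : Hd m y) : Hd m (x + y) := by
  obtain ⟨r, rfl⟩ := hx
  obtain ⟨s, rfl⟩ := hy
  exact ⟨r + s, by rw [mul_add, map_add]⟩

theorem Hd.neg {m : ℕ} {x : Kq} (hx : Hd m x) : Hd m (-x) := by
  obtain ⟨r, rfl⟩ := hx
  exact ⟨-r, by rw [mul_neg, map_neg]⟩

theorem Hd.sub {m : ℕ} {x y : Kq} (hx : Hd m x) (hy : Hd m y) : Hd m (x - y) := by
  rw [sub_eq_add_neg]
  exact hx.add hy.neg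

theorem Hd.mul {m m' : ℕ} {x y : Kq} (hx : Hd m x) (hy : Hd m' y) : Hd (m + m') (x * y) := by
  obtain ⟨r, rfl⟩ := hx
  obtain ⟨s, rfl⟩ := hy
  refine ⟨r * s, ?_⟩
  rw [← map_mul]
  congr 1
  ring

theorem Hd.of_SS {x : Kq} (hx : x ∈ SS) : Hd 0 x := by
  obtain ⟨r, rfl⟩ := hx
  exact ⟨r, by rw [pow_zero, one_mul]⟩

theorem Hd.mulS {m : ℕ} {x y : Kq} (hx : Hd m x) (hy : y ∈ SS) : Hd m (x * y) := by
  have h := hx.mul (Hd.of_SS hy)
  rwa [add_zero] at h

theorem Hd.smul {m : ℕ} {x y : Kq} (hx : Hd m x) (hy : y ∈ SS) : Hd m (y * x) := by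
  rw [mul_comm]
  exact hx.mulS hy

theorem Hd.mono {m m' : ℕ} (h : m' ≤ m) {x : Kq} (hx : Hd m x) : Hd m' x := by
  obtain ⟨r, rfl⟩ := hx
  refine ⟨X ^ (m - m') * r, ?_⟩
  rw [← mul_assoc, ← pow_add]
  congr 3
  omega

theorem Hd.sum {κ : Type} {s : Finset κ} {f : κ → Kq} {m : ℕ} (h : ∀ i ∈ s, Hd m (f i)) :
    Hd m (∑ i ∈ s, f i) := by
  classical
  induction s using Finset.induction_on with
  | empty => exact Hd.zero m
  | insert i s hi ih =>
    rw [Finset.sum_insert hi]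
    exact (h i (Finset.mem_insert_self _ _)).add
      (ih fun j hj => h j (Finset.mem_insert_of_mem hj))

theorem hh_pow (m : ℕ) : hh ^ m = ι (X ^ m) := by
  rw [hh, map_pow]

theorem Hd.hh (m : ℕ) : Hd m (SC.hh ^ m) := ⟨1, by rw [hh_pow, mul_one]⟩

/-- cancellation of a power of `h` -/
theorem Hd.cancel {m k : ℕ} {x : Kq} (h : Hd (k + m) (SC.hh ^ k * x)) : Hd m x := by
  obtain ⟨r, hr⟩ := h
  refine ⟨r, ?_⟩
  have h1 : SC.hh ^ k ≠ 0 := pow_ne_zero _ hh_ne
  apply mul_left_cancel₀ h1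
  rw [hr, hh_pow, ← map_mul]
  congr 1
  ring

/-- a unit of the power series -/
def Un (x : Kq) : Prop := x ∈ SS ∧ ∃ y ∈ SS, x * y = 1

theorem Un.of {u : PowerSeries ℚ} (hu : PowerSeries.constantCoeff u ≠ 0) : Un (ι u) := by
  obtain ⟨v, hv⟩ := PowerSeries.isUnit_iff_constantCoeff.2 (IsUnit.mk0 _ hu)
  refine ⟨⟨u, rfl⟩, ι ((v⁻¹ : (PowerSeries ℚ)ˣ) : PowerSeries ℚ), ⟨_, rfl⟩, ?_⟩
  rw [← hv, ← map_mul, Units.mul_inv, map_one]

theorem Un.mul {x y : Kq} (hx : Un x) (hy : Un y) : Un (x * y) := by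
  obtain ⟨h1, a, ha, ha2⟩ := hx
  obtain ⟨h3, b, hb, hb2⟩ := hy
  exact ⟨SS.mul_mem h1 h3, a * b, SS.mul_mem ha hb, by
    linear_combination (y * b) * ha2 + hb2⟩

theorem Un.pow {x : Kq} (hx : Un x) (n : ℕ) : Un (x ^ n) := by
  induction n with
  | zero => exact ⟨by rw [pow_zero]; exact SS.one_mem, 1, SS.one_mem, by simp⟩
  | succ n ih =>
    rw [pow_succ]
    exact ih.mul hx

theorem Un.one : Un 1 := ⟨SS.one_mem, 1, SS.one_mem, one_mul 1⟩

theorem Un_E (n : ℤ) : Un (E n) := ⟨E_mem n, E (-n), E_mem _, E_neg n⟩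

/-- cancellation of a unit -/
theorem Un.cancel {x y : Kq} (hy : Un y) {m : ℕ} (h : Hd m (x * y)) : Hd m x := by
  obtain ⟨-, b, hb, hb2⟩ := hy
  have := h.mulS hb
  rwa [mul_assoc, hb2, mul_one] at this

theorem EE_sub {i j : ℤ} (h : i ≠ j) :
    ∃ u : PowerSeries ℚ, EE i - EE j = X * u ∧ PowerSeries.constantCoeff u ≠ 0 := by
  have h1 : (X : PowerSeries ℚ) ∣ EE i - EE j := by
    rw [PowerSeries.X_dvd_iff, ← PowerSeries.coeff_zero_eq_constantCoeff_apply, map_sub,
      coeff_EE, coeff_EE]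
    simp
  obtain ⟨u, hu⟩ := h1
  refine ⟨u, hu, ?_⟩
  have h2 : PowerSeries.coeff 1 (EE i - EE j) = i - j := by
    rw [map_sub, coeff_EE, coeff_EE]
    simp
  have h3 : PowerSeries.coeff 1 (EE i - EE j) = PowerSeries.constantCoeff u := by
    rw [hu, show (1 : ℕ) = 0 + 1 from rfl, PowerSeries.coeff_succ_X_mul]
    simp
  rw [← h3, h2, sub_ne_zero]
  exact_mod_cast h

theorem E_sub {i j : ℤ} (h : i ≠ j) : ∃ u, E i - E j = SC.hh * u ∧ Un u := by
  obtain ⟨u, h1, h2⟩ := EE_sub h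
  refine ⟨ι u, ?_, Un.of h2⟩
  rw [E, E, ← map_sub, h1, map_mul]
  rfl

theorem zz_form : ∃ u, zz = SC.hh * u ∧ Un u := E_sub (by norm_num)

theorem uE_zpow (N : ℕ) (n : ℤ) : ((uE N ^ n : Kqˣ) : Kq) = E (N * n) := by
  induction n using Int.induction_on with
  | zero => rw [zpow_zero, mul_zero, E_zero]; rfl
  | succ n ih =>
    rw [zpow_add_one, Units.val_mul, ih, mul_add, E_add, mul_one]
    rfl
  | pred n ih =>
    rw [zpow_sub_one, Units.val_mul, ih, mul_sub, mul_one, sub_eq_add_neg, E_add]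
    rfl

theorem E_mul (i : ℕ) (j : ℤ) : E (((i + 1 : ℕ) : ℤ) * j) = E j * E j ^ i := by
  induction i with
  | zero => simp
  | succ i ih =>
    have : ((i + 1 + 1 : ℕ) : ℤ) * j = ((i + 1 : ℕ) : ℤ) * j + j := by push_cast; ring
    rw [this, E_add, ih, pow_succ]
    ring

/-- the value at `a = exp (N h)` -/
def fv (N : ℕ) (Q : La) : Kq := φ N Q

theorem fv_sum (N : ℕ) (Q : La) {T : Finset ℤ} (hT : ∀ d, d ∉ T → Q.coeff d = 0) :
    fv N Q = ∑ d ∈ T, Q.coeff d * E (N * d) := by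
  have h1 : fv N Q = ∑ d ∈ Q.coeff.support, Q.coeff d * E (N * d) := by
    have h2 : Q = ∑ d ∈ Q.coeff.support, LaurentPolynomial.C (Q.coeff d) *
        LaurentPolynomial.T d := by
      conv_lhs => rw [← AddMonoidAlgebra.sum_coeff_single Q]
      rw [Finsupp.sum]
      refine Finset.sum_congr rfl fun d _ => ?_
      rw [← LaurentPolynomial.single_eq_C_mul_T]
    conv_lhs => rw [h2]
    rw [fv, map_sum]
    refine Finset.sum_congr rfl fun d _ => ?_
    rw [map_mul, φ_C, φ_T, uE_zpow]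
    rfl
  rw [h1]
  refine Finset.sum_subset (fun d hd => ?_) fun d _ hd => ?_
  · by_contra h
    exact (Finsupp.mem_support_iff.1 hd) (hT d h)
  · rw [Finsupp.notMem_support_iff.1 hd, zero_mul]

/-- The coefficients of a Laurent polynomial in `a` with few terms are divisible by a high power
of `h` if its values at all `a = exp (N h)` are. -/
theorem vand {Q : La} {T : Finset ℤ} (hT : ∀ d, d ∉ T → Q.coeff d = 0) {m K : ℕ}
    (hK : T.card ≤ K + 1) (h : ∀ N : ℕ, 1 ≤ N → Hd m (fv N Q)) (d : ℤ) :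
    Hd m (SC.hh ^ K * Q.coeff d) := by
  classical
  by_cases hd : d ∈ T
  · set P : Polynomial (PowerSeries ℚ) :=
      ∏ j ∈ T.erase d, (Polynomial.X - Polynomial.C (EE j)) with hP
    have h1 : ∑ i ∈ Finset.range (P.natDegree + 1), ι (P.coeff i) * fv (i + 1) Q =
        Q.coeff d * (E d * ι (P.eval (EE d))) := by
      have h2 : ∀ i ∈ Finset.range (P.natDegree + 1), ι (P.coeff i) * fv (i + 1) Q =
          ∑ j ∈ T, Q.coeff j * (E j * (ι (P.coeff i) * E j ^ i)) := by
        intro i _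
        rw [fv_sum (i + 1) Q hT, Finset.mul_sum]
        refine Finset.sum_congr rfl fun j _ => ?_
        rw [E_mul]
        ring
      rw [Finset.sum_congr rfl h2, Finset.sum_comm]
      have h4 : ∀ j ∈ T, ∑ i ∈ Finset.range (P.natDegree + 1),
          Q.coeff j * (E j * (ι (P.coeff i) * E j ^ i)) =
          Q.coeff j * (E j * ι (P.eval (EE j))) := by
        intro j _
        rw [← Finset.mul_sum, ← Finset.mul_sum, Polynomial.eval_eq_sum_range, map_sum]
        congr 2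
        refine Finset.sum_congr rfl fun i _ => ?_
        rw [map_mul, map_pow]
        rfl
      rw [Finset.sum_congr rfl h4, Finset.sum_eq_single d]
      · intro j hj hne
        have : P.eval (EE j) = 0 := by
          rw [hP, Polynomial.eval_prod]
          refine Finset.prod_eq_zero (Finset.mem_erase.2 ⟨hne, hj⟩) ?_
          simp
        rw [this, map_zero, mul_zero, mul_zero]
      · intro h5
        exact absurd hd h5
    have h2 : Hd m (Q.coeff d * (E d * ι (P.eval (EE d)))) := by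
      rw [← h1]
      exact Hd.sum fun i _ => (h (i + 1) (by omega)).smul ⟨_, rfl⟩
    have h3 : ∃ u, ι (P.eval (EE d)) = SC.hh ^ (T.card - 1) * u ∧ Un u := by
      rw [hP, Polynomial.eval_prod, map_prod, ← Finset.card_erase_of_mem hd]
      have hne : ∀ j ∈ T.erase d, d ≠ j := fun j hj => (Finset.ne_of_mem_erase hj).symm
      generalize T.erase d = S at hne
      induction S using Finset.induction_on with
      | empty => exact ⟨1, by simp, Un.one⟩
      | insert j S hj ih =>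
        obtain ⟨u, hu, hu2⟩ := ih fun k hk => hne k (Finset.mem_insert_of_mem hk)
        obtain ⟨v, hv, hv2⟩ := E_sub (hne j (Finset.mem_insert_self _ _))
        refine ⟨v * u, ?_, hv2.mul hu2⟩
        rw [Finset.prod_insert hj, hu, Finset.card_insert_of_notMem hj, Polynomial.eval_sub,
          Polynomial.eval_X, Polynomial.eval_C, map_sub]
        have hv' : ι (EE d) - ι (EE j) = SC.hh * v := hv
        rw [hv', pow_succ]
        ring
    obtain ⟨u, hu, hu2⟩ := h3
    rw [hu] at h2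
    have h4 : Q.coeff d * (E d * (SC.hh ^ (T.card - 1) * u)) =
        SC.hh ^ (T.card - 1) * Q.coeff d * (E d * u) := by ring
    rw [h4] at h2
    have h5 := ((Un_E d).mul hu2).cancel h2
    have h6 := h5.smul (y := SC.hh ^ (K - (T.card - 1))) ⟨X ^ (K - (T.card - 1)),
      (hh_pow _).symm⟩
    have h7 : SC.hh ^ (K - (T.card - 1)) * (SC.hh ^ (T.card - 1) * Q.coeff d) =
        SC.hh ^ K * Q.coeff d := by
      rw [← mul_assoc, ← pow_add]
      congr 2
      omega
    rwa [h7] at h6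
  · rw [hT d hd, mul_zero]
    exact Hd.zero m

/-- diagrams which are not separated have close values -/
theorem Hd_sep {n : ℕ} {D D' : OWord} (h : ¬ Separated n D D') (N : ℕ) :
    Hd (n + 1) (hv N D - hv N D') := by
  obtain ⟨x, hx⟩ := SS.sub_mem (hv_mem N D) (hv_mem N D')
  have h1 : X ^ (n + 1) ∣ x := by
    rw [PowerSeries.X_pow_dvd_iff]
    intro j hj
    rw [← ι_coeff]
    have h2 : (ι x).coeff (j : ℤ) = (hv N D).coeff (j : ℤ) - (hv N D').coeff (j : ℤ) := by
      rw [hx, HahnSeries.coeff_sub]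
    rw [h2, sub_eq_zero]
    by_contra h3
    exact h (sep_coeff (by omega) h3)
  obtain ⟨r, hr⟩ := h1
  exact ⟨r, by rw [← hx, hr]⟩

end

end Run7.h849.SC
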