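import Pool.Agent.Run7.h849.Cnt
import Pool.Agent.Run7.h849.SC.Fin

/-!
# The number of the Seifert circles
-/

set_option autoImplicit false

namespace Run7.h849

open Pool.Agent.Helper454.Wh (insD delD swpD noD dirs OPiece OWord below OClosed)
open Pool.Agent.Helper454.Wh.OPiece (birth death pos neg)
open Pool.Agent.Helper454.Wh.Homf

noncomputable section

theorem En_head {w : OWord} {s : ℕ → Bool} {L : List (ℕ → Bool)} (h : L ∈ En w s) :
    L.head? = some s := by
  cases w with
  | nil =>
    rw [En, List.mem_singleton] at h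
    rw [h]
    rfl
  | cons p w =>
    cases p with
    | birth i b =>
      rw [En, List.mem_map] at h
      obtain ⟨x, -, rfl⟩ := h
      rfl
    | death i =>
      rw [En] at h
      split_ifs at h
      · rw [List.mem_map] at h
        obtain ⟨x, -, rfl⟩ := h
        rfl
      · simp at h
    | pos i =>
      rw [En, List.mem_map] at h
      obtain ⟨x, -, rfl⟩ := h
      rfl
    | neg i =>
      rw [En, List.mem_map] at h
      obtain ⟨x, -, rfl⟩ := h
      rfl

theorem En_nodup (w : OWord) (s : ℕ → Bool) : (En w s).Nodup := by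
  induction w generalizing s with
  | nil => exact List.nodup_singleton _
  | cons p w ih =>
    have hinj : Function.Injective (fun L : List (ℕ → Bool) => s :: L) := fun a b h =>
      (List.cons.inj h).2
    cases p with
    | birth i b =>
      rw [En]
      refine List.Nodup.map hinj ?_
      rw [List.nodup_append]
      refine ⟨ih _, ih _, ?_⟩
      intro a ha b' hb' hab
      subst hab
      have h1 := En_head ha
      have h2 := En_head hb'
      rw [h1] at h2
      have h3 := congrFun (Option.some.inj h2) i
      rw [ins_at, ins_at] at h3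
      exact absurd h3 (by decide)
    | death i =>
      rw [En]
      split_ifs
      · exact List.Nodup.map hinj (ih _)
      · exact List.nodup_nil
    | pos i =>
      rw [En]
      exact List.Nodup.map hinj (ih _)
    | neg i =>
      rw [En]
      exact List.Nodup.map hinj (ih _)

theorem traj_congr {f g : ℕ → ℕ → Bool} {w : OWord} {t : ℕ} (h : ∀ j, t ≤ j → f j = g j) :
    traj f w t = traj g w t := by
  induction w generalizing t with
  | nil => rw [traj, traj, h t le_rfl]
  | cons p w ih => rw [traj, traj, h t le_rfl, ih fun j hj => h j (by omega)]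

theorem traj_congr' {f g : ℕ → ℕ → Bool} {w : OWord} {t : ℕ}
    (h : ∀ j ≤ w.length, f (t + j) = g (t + j)) : traj f w t = traj g w t := by
  induction w generalizing t with
  | nil =>
    have := h 0 (Nat.zero_le _)
    rw [add_zero] at this
    rw [traj, traj, this]
  | cons p w ih =>
    have h0 := h 0 (Nat.zero_le _)
    rw [add_zero] at h0
    rw [traj, traj, h0, ih fun j hj => by
      have := h (j + 1) (by rw [List.length_cons]; omega)
      rwa [show t + (j + 1) = t + 1 + j by ring] at this]

/-- the colourings come from functions -/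
theorem En_fun {w : OWord} {s : ℕ → Bool} {L : List (ℕ → Bool)} (h : L ∈ En w s) (t : ℕ) :
    ∃ f : ℕ → ℕ → Bool, Stp f w t ∧ traj f w t = L ∧ f t = s := by
  induction w generalizing s L t with
  | nil =>
    rw [En, List.mem_singleton] at h
    exact ⟨fun _ => s, trivial, by rw [h]; rfl, rfl⟩
  | cons p w ih =>
    have key : ∀ {s' : ℕ → Bool} {x : List (ℕ → Bool)}, x ∈ En w s' →
        ∃ f : ℕ → ℕ → Bool, Stp f w (t + 1) ∧ traj f w (t + 1) = x ∧ f (t + 1) = s' ∧ f t = s := by
      intro s' x hx
      obtain ⟨f, h1, h2, h3⟩ := ih hx (t + 1)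
      have hj : ∀ j, t + 1 ≤ j → f j = Function.update f t s j := by
        intro j hj
        rw [Function.update_of_ne (by omega)]
      exact ⟨Function.update f t s, Stp_congr hj h1, by rw [← traj_congr hj, h2],
        by rw [Function.update_of_ne (by omega), h3], Function.update_self ..⟩
    cases p with
    | birth i b =>
      rw [En, List.mem_map] at h
      obtain ⟨x, hx, rfl⟩ := h
      rw [List.mem_append] at hx
      rcases hx with hx | hx
      · obtain ⟨f, h1, h2, h3, h4⟩ := key hx
        exact ⟨f, ⟨⟨false, by rw [h3, h4]⟩, h1⟩, by rw [traj, h2, h4], h4⟩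
      · obtain ⟨f, h1, h2, h3, h4⟩ := key hx
        exact ⟨f, ⟨⟨true, by rw [h3, h4]⟩, h1⟩, by rw [traj, h2, h4], h4⟩
    | death i =>
      rw [En] at h
      split_ifs at h with h0
      · rw [List.mem_map] at h
        obtain ⟨x, hx, rfl⟩ := h
        obtain ⟨f, h1, h2, h3, h4⟩ := key hx
        exact ⟨f, ⟨⟨by rw [h4]; exact h0, by rw [h3, h4]⟩, h1⟩, by rw [traj, h2, h4], h4⟩
      · simp at h
    | pos i =>
      rw [En, List.mem_map] at h
      obtain ⟨x, hx, rfl⟩ := h
      obtain ⟨f, h1, h2, h3, h4⟩ := key hx
      exact ⟨f, ⟨by rw [h3, h4], h1⟩, by rw [traj, h2, h4], h4⟩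
    | neg i =>
      rw [En, List.mem_map] at h
      obtain ⟨x, hx, rfl⟩ := h
      obtain ⟨f, h1, h2, h3, h4⟩ := key hx
      exact ⟨f, ⟨by rw [h3, h4], h1⟩, by rw [traj, h2, h4], h4⟩

/-- a colouring vanishes beyond the strands -/
theorem Stp_zero {f : ℕ → ℕ → Bool} {w : OWord} {t n : ℕ} {d : ℕ → Bool} (h : Stp f w t)
    (h0 : ∀ k, n ≤ k → f t k = false) {j : ℕ} (hj : j ≤ w.length) {s : ℕ × (ℕ → Bool)}
    (hb : below (w.take j) n d = some s) : ∀ k, s.1 ≤ k → f (t + j) k = false := by
  induction w generalizing t n d j with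
  | nil =>
    obtain rfl : j = 0 := by simpa using hj
    obtain rfl := bl_nil hb
    exact h0
  | cons p w ih =>
    cases j with
    | zero =>
      obtain rfl := bl_nil hb
      exact h0
    | succ j =>
      rw [List.take_succ_cons] at hb
      obtain ⟨s1, h1, h2⟩ := bl_cons hb
      have hj' : j ≤ w.length := by simpa using hj
      rw [show t + (j + 1) = t + 1 + j by ring]
      cases p with
      | birth i b =>
        obtain ⟨h4, rfl⟩ := bl_birth h1
        obtain ⟨⟨x, hx⟩, h3⟩ := h
        refine ih h3 (fun k hk => ?_) hj' h2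
        simp only at hk
        rw [hx, ins, if_neg (by omega), if_neg (by omega)]
        exact h0 _ (by omega)
      | death i =>
        obtain ⟨h4, -, rfl⟩ := bl_death h1
        obtain ⟨⟨-, hx⟩, h3⟩ := h
        refine ih h3 (fun k hk => ?_) hj' h2
        simp only at hk
        rw [hx, del, if_neg (by omega)]
        exact h0 _ (by omega)
      | pos i =>
        obtain ⟨h4, rfl⟩ := bl_pos h1
        obtain ⟨hx, h3⟩ := h
        refine ih h3 (fun k hk => ?_) hj' h2
        rw [hx]
        exact h0 _ hk
      | neg i =>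
        obtain ⟨h4, rfl⟩ := bl_neg h1
        obtain ⟨hx, h3⟩ := h
        refine ih h3 (fun k hk => ?_) hj' h2
        rw [hx]
        exact h0 _ hk

theorem circ_fin (D : OWord) :
    ({c | ∃ p, IsPt D p ∧ c = circ D p} : Set (Set (ℕ × ℕ))).Finite := by
  classical
  have h1 : {p | IsPt D p}.Finite := by
    refine Set.Finite.subset (s := ↑((Finset.range (D.length + 1)).biUnion fun t =>
      (Finset.range (((below (D.take t) 0 noD).map Prod.fst).getD 0)).image fun k => (t, k)))
      (Finset.finite_toSet _) ?_
    rintro ⟨t, k⟩ ⟨h1, s, h2, h3⟩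
    rw [Finset.mem_coe, Finset.mem_biUnion]
    refine ⟨t, Finset.mem_range.2 (by simp only at h1; omega), Finset.mem_image.2 ⟨k, ?_, rfl⟩⟩
    rw [Finset.mem_range]
    simp only at h2 h3
    rw [h2]
    exact h3
  refine (h1.image (circ D)).subset ?_
  rintro c ⟨p, hp, rfl⟩
  exact ⟨p, hp, rfl⟩

theorem below_take {w : OWord} {n : ℕ} {d : ℕ → Bool} {s0 : ℕ × (ℕ → Bool)}
    (hb : below w n d = some s0) {t : ℕ} (ht : t ≤ w.length) :
    ∃ s, below (w.take t) n d = some s := by
  induction w generalizing n d t with
  | nil =>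
    obtain rfl : t = 0 := by simpa using ht
    exact ⟨_, rfl⟩
  | cons p w ih =>
    cases t with
    | zero => exact ⟨_, rfl⟩
    | succ t =>
      obtain ⟨s1, h1, h2⟩ := bl_cons hb
      obtain ⟨s, hs⟩ := ih h2 (t := t) (by simpa using ht)
      exact ⟨s, bl_cons_of h1 hs⟩

/-- the number of the Seifert circles, from below -/
theorem le_seif {D : OWord} {s0 : ℕ × (ℕ → Bool)} (hpar : ParW D noD)
    (hb : below D 0 noD = some s0) {c : ℕ} (hN : N (smw D) z0 = 2 ^ c) : c ≤ seif D := by
  classical
  set F : Finset (Set (ℕ × ℕ)) := (circ_fin D).toFinset with hF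
  have e1 : seif D = F.card := by
    rw [seif, Set.ncard_eq_toFinset_card _ (circ_fin D)]
  have hch : ∀ L : List (ℕ → Bool), ∃ f : ℕ → ℕ → Bool, L ∈ En D z0 →
      (Stp f D 0 ∧ traj f D 0 = L ∧ f 0 = z0) := by
    intro L
    by_cases hL : L ∈ En D z0
    · obtain ⟨f, hf⟩ := En_fun hL 0
      exact ⟨f, fun _ => hf⟩
    · exact ⟨fun _ => z0, fun h => absurd h hL⟩
  choose f hf using hch
  have h1 : (En D z0).toFinset.card ≤ F.powerset.card := by
    refine Finset.card_le_card_of_injOn
      (fun L => F.filter fun C => ∃ p, IsPt D p ∧ C = circ D p ∧ f L p.1 p.2 = true) ?_ ?_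
    · intro L _
      simp only [Finset.coe_powerset, Set.mem_preimage, Set.mem_powerset_iff]
      exact Finset.coe_subset.2 (Finset.filter_subset _ _)
    · intro L hL L' hL' h
      simp only [List.coe_toFinset, Set.mem_ofPred_eq] at hL hL'
      obtain ⟨a1, a2, a3⟩ := hf L hL
      obtain ⟨b1, b2, b3⟩ := hf L' hL'
      rw [← a2, ← b2]
      have key : ∀ (L : List (ℕ → Bool)), Stp (f L) D 0 → ∀ p, IsPt D p →
          (f L p.1 p.2 = true ↔ circ D p ∈
            F.filter fun C => ∃ p, IsPt D p ∧ C = circ D p ∧ f L p.1 p.2 = true) := by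
        intro L hs p hp
        rw [Finset.mem_filter]
        constructor
        · intro h2
          refine ⟨?_, p, hp, rfl, h2⟩
          rw [hF, Set.Finite.mem_toFinset]
          exact ⟨p, hp, rfl⟩
        · rintro ⟨-, q, hq, h3, h4⟩
          have h5 : q ∈ circ D p := by
            rw [h3]
            exact Relation.EqvGen.refl _
          rw [circ_f hpar hb hs h5]
          exact h4
      refine traj_congr' fun j hj => ?_
      rw [zero_add]
      obtain ⟨s, hs⟩ := below_take hb hj
      funext k
      by_cases hk : k < s.1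
      · have hp : IsPt D (j, k) := ⟨hj, s, hs, hk⟩
        have h2 := key L a1 (j, k) hp
        have h3 := key L' b1 (j, k) hp
        simp only at h h2 h3
        rw [h] at h2
        rw [Bool.eq_iff_iff, h2, h3]
      · have h2 := Stp_zero a1 (n := 0) (fun k _ => by rw [a3]; rfl) hj hs k (by omega)
        have h3 := Stp_zero b1 (n := 0) (fun k _ => by rw [b3]; rfl) hj hs k (by omega)
        rw [zero_add] at h2 h3
        rw [h2, h3]
  rw [List.toFinset_card_of_nodup (En_nodup D z0), En_length, hN, Finset.card_powerset, ← e1] at h1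
  exact (Nat.pow_le_pow_iff_right (by norm_num)).1 h1

end

end Run7.h849
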