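import Pool.Agent.Run7.h849.SC.Cso

/-!
# Resolutions of the shadows of diagrams of even chains
-/

set_option autoImplicit false

namespace Run7.h849.SC

open Pool.Agent.Helper454.Wh (insD delD swpD noD OPiece OWord below forget OClosed OStep OIsotopic
  IsHomfly Rlm dirs)
open Pool.Agent.Helper454.Wh.OPiece (birth death pos neg)
open Pool.Agent.Helper454.Wh.Homf hiding X
open Pool.Agent.Helper454.Wh.Homf.Par
open Run7.h849 (cc hatq hatq_isotopy lq)

noncomputable section

/-- `E` is obtained from `D` by switching some of the crossings -/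
def Res (D E : OWord) : Prop := List.Forall₂ (fun p q => q = p ∨ q = sw p) D E

theorem Res.refl (D : OWord) : Res D D := by
  induction D with
  | nil => exact List.Forall₂.nil
  | cons p D ih => exact List.Forall₂.cons (Or.inl rfl) ih

theorem Res.append {D E D' E' : OWord} (h : Res D E) (h' : Res D' E') : Res (D ++ D') (E ++ E') :=
  List.rel_append h h'

theorem Res.below_eq {D E : OWord} (h : Res D E) (n : ℕ) (d : ℕ → Bool) :
    below E n d = below D n d := by
  induction h generalizing n d with
  | nil => rfl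
  | @cons p q D E h _ ih =>
    have e : q.below n d = p.below n d := by
      rcases h with h | h
      · rw [h]
      · rw [h]
        cases p <;> rfl
    rw [below, below, e]
    congr 1
    funext s
    exact ih s.1 s.2

theorem Res.closed {D E : OWord} (h : Res D E) (hc : OClosed D) : OClosed E := by
  rw [OClosed, h.below_eq]
  exact hc

/-- the second Reidemeister move -/
theorem r2' {x s : OWord} {i : ℕ} (hc : OClosed (x ++ pos i :: neg i :: s)) :
    OIsotopic (x ++ pos i :: neg i :: s) (x ++ s) ∧ OClosed (x ++ s) := by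
  have hc2 : OClosed (x ++ pos i :: pos i :: s) := by
    have h : Res (x ++ pos i :: neg i :: s) (x ++ pos i :: pos i :: s) :=
      (Res.refl x).append (List.Forall₂.cons (Or.inl rfl)
        (List.Forall₂.cons (Or.inr rfl) (Res.refl s)))
    exact h.closed hc
  have h1 := (r2 ⟨i, Or.inl rfl⟩ hc2).2.2
  refine ⟨h1, ?_⟩
  rw [OClosed, below_app] at hc ⊢
  cases hx : below x 0 noD with
  | none =>
    rw [hx] at hc
    simp at hc
  | some nd =>
    obtain ⟨n, d⟩ := nd
    rw [hx] at hc
    have hin : i + 2 ≤ n := by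
      by_contra hcon
      simp [below, OPiece.below, hcon] at hc
    simpa [below, OPiece.below, hin, swpD_swpD] using hc

/-- `n` crossings counted with signs can be reached from `N` crossings -/
def Adm (N n : ℤ) : Prop := |n| ≤ N ∧ (N - n) % 2 = 0

theorem band_res {N n : ℤ} (h : Adm N n) (i : ℕ) : ∃ E, Res (band N i) E ∧
    ∀ x y, OClosed (x ++ E ++ y) → OIsotopic (x ++ E ++ y) (x ++ band n i ++ y) ∧
      OClosed (x ++ band n i ++ y) := by
  obtain ⟨h1, h2⟩ := h
  have hN : 0 ≤ N := (abs_nonneg n).trans h1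
  obtain ⟨k, hk⟩ : ∃ k : ℕ, N = |n| + 2 * k := by
    refine ⟨((N - |n|) / 2).toNat, ?_⟩
    rcases abs_cases n with ⟨h3, h4⟩ | ⟨h3, h4⟩ <;> omega
  clear h1 h2 hN
  induction k generalizing N with
  | zero =>
    refine ⟨band n i, ?_, fun x y h => ⟨Relation.EqvGen.refl _, h⟩⟩
    have e : N.natAbs = n.natAbs := by
      rcases abs_cases n with ⟨h3, h4⟩ | ⟨h3, h4⟩ <;> omega
    have e2 : 0 ≤ N := by
      rcases abs_cases n with ⟨h3, h4⟩ | ⟨h3, h4⟩ <;> omega
    rw [band, band, e, if_pos e2]
    generalize n.natAbs = j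
    induction j with
    | zero => exact List.Forall₂.nil
    | succ j ih =>
      rw [List.replicate_succ, List.replicate_succ]
      refine List.Forall₂.cons ?_ ih
      split_ifs
      · exact Or.inl rfl
      · exact Or.inr rfl
  | succ k ih =>
    obtain ⟨E, h1, h2⟩ := ih (N := N - 2) (by push_cast at hk; omega)
    refine ⟨pos i :: neg i :: E, ?_, ?_⟩
    · have e : band N i = pos i :: pos i :: band (N - 2) i := by
        have h3 : 0 ≤ |n| := abs_nonneg n
        rw [band, band, if_pos (by push_cast at hk; omega), if_pos (by push_cast at hk; omega)]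
        have h4 : N.natAbs = (N - 2).natAbs + 1 + 1 := by push_cast at hk; omega
        rw [h4, List.replicate_succ, List.replicate_succ]
      rw [e]
      exact List.Forall₂.cons (Or.inl rfl) (List.Forall₂.cons (Or.inr rfl) h1)
    · intro x y hc
      have e1 : x ++ (pos i :: neg i :: E) ++ y = x ++ pos i :: neg i :: (E ++ y) := by simp
      have e2 : x ++ E ++ y = x ++ (E ++ y) := by simp
      rw [e1] at hc ⊢
      obtain ⟨h3, h4⟩ := r2' hc
      rw [← e2] at h3 h4
      obtain ⟨h5, h6⟩ := h2 x y h4
      exact ⟨Relation.EqvGen.trans _ _ _ h3 h5, h6⟩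

theorem chain_res {L L' : List ℤ} (h : List.Forall₂ Adm L L') (i : ℕ) (b : Bool) :
    ∃ E, Res (chain L i b) E ∧
    ∀ x y, OClosed (x ++ E ++ y) → OIsotopic (x ++ E ++ y) (x ++ chain L' i b ++ y) ∧
      OClosed (x ++ chain L' i b ++ y) := by
  induction h generalizing i b with
  | nil => exact ⟨[], List.Forall₂.nil, fun x y h => ⟨Relation.EqvGen.refl _, h⟩⟩
  | cons h ht ih =>
    rename_i N n L L'
    obtain ⟨E1, h1, h2⟩ := band_res h i
    cases ht with
    | nil => exact ⟨E1, h1, h2⟩
    | cons h' ht =>
      rename_i M m L L'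
      obtain ⟨E2, h3, h4⟩ := ih (i + 2) (!b)
      refine ⟨birth (i + 1) b :: (E1 ++ (E2 ++ [death (i + 1)])), ?_, ?_⟩
      · rw [chain]
        exact List.Forall₂.cons (Or.inl rfl) (h1.append (h3.append (Res.refl _)))
      · intro x y hc
        rw [chain]
        have e1 : x ++ birth (i + 1) b :: (E1 ++ (E2 ++ [death (i + 1)])) ++ y =
            (x ++ [birth (i + 1) b]) ++ E1 ++ (E2 ++ death (i + 1) :: y) := by simp
        have e2 : (x ++ [birth (i + 1) b]) ++ band n i ++ (E2 ++ death (i + 1) :: y) =
            (x ++ birth (i + 1) b :: band n i) ++ E2 ++ (death (i + 1) :: y) := by simp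
        have e3 : (x ++ birth (i + 1) b :: band n i) ++ chain (m :: L') (i + 2) (!b) ++
            (death (i + 1) :: y) = x ++ birth (i + 1) b :: (band n i ++
              (chain (m :: L') (i + 2) (!b) ++ [death (i + 1)])) ++ y := by simp
        rw [e1] at hc ⊢
        obtain ⟨h5, h6⟩ := h2 _ _ hc
        rw [e2] at h5 h6
        obtain ⟨h7, h8⟩ := h4 _ _ h6
        rw [e3] at h7 h8
        exact ⟨Relation.EqvGen.trans _ _ _ h5 h7, h8⟩

/-- the diagrams agree, and the numbers of twists in the second one can be reached -/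
def RelW : List Bz → List Bz → Prop
  | [], [] => True
  | .b i :: w, .b j :: w' => i = j ∧ RelW w w'
  | .d i :: w, .d j :: w' => i = j ∧ RelW w w'
  | .c i l :: w, .c j l' :: w' => i = j ∧ List.Forall₂ Adm l l' ∧ RelW w w'
  | _, _ => False

theorem RelW.sim {w w' : List Bz} (h : RelW w w') : Sim w w' := by
  induction w generalizing w' with
  | nil =>
    cases w' with
    | nil => trivial
    | cons q w' => cases q <;> exact absurd h id
  | cons p w ih =>
    cases w' with
    | nil => cases p <;> exact absurd h id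
    | cons q w' =>
      cases p <;> cases q <;> try exact absurd h id
      · exact And.intro h.1 (ih h.2)
      · exact And.intro h.1 (ih h.2)
      · exact And.intro h.1 (And.intro h.2.1.length_eq (ih h.2.2))

theorem expand_res {w w' : List Bz} (h : RelW w w') : ∃ E, Res (expand w) E ∧
    ∀ x, OClosed (x ++ E) → OIsotopic (x ++ E) (x ++ expand w') ∧ OClosed (x ++ expand w') := by
  induction w generalizing w' with
  | nil =>
    cases w' with
    | nil => exact ⟨[], List.Forall₂.nil, fun x h => ⟨Relation.EqvGen.refl _, h⟩⟩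
    | cons q w' => cases q <;> exact absurd h id
  | cons p w ih =>
    cases w' with
    | nil => cases p <;> exact absurd h id
    | cons q w' =>
      cases p <;> cases q <;> try exact absurd h id
      · rename_i i j
        obtain ⟨rfl, h⟩ := h
        obtain ⟨E, h1, h2⟩ := ih h
        refine ⟨birth i (i % 2 == 0) :: E, List.Forall₂.cons (Or.inl rfl) h1, fun x hc => ?_⟩
        have := h2 (x ++ [birth i (i % 2 == 0)]) (by simpa using hc)
        simpa [expand] using this
      · rename_i i j
        obtain ⟨rfl, h⟩ := h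
        obtain ⟨E, h1, h2⟩ := ih h
        refine ⟨death i :: E, List.Forall₂.cons (Or.inl rfl) h1, fun x hc => ?_⟩
        have := h2 (x ++ [death i]) (by simpa using hc)
        simpa [expand] using this
      · rename_i i l j l'
        obtain ⟨rfl, h', h⟩ := h
        obtain ⟨E, h1, h2⟩ := ih h
        obtain ⟨E1, h3, h4⟩ := chain_res h' i (i % 2 == 0)
        refine ⟨E1 ++ E, h3.append h1, fun x hc => ?_⟩
        rw [← List.append_assoc] at hc
        obtain ⟨h5, h6⟩ := h4 x E hc
        obtain ⟨h7, h8⟩ := h2 (x ++ chain l' i (i % 2 == 0)) h6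
        rw [expand, ← List.append_assoc, ← List.append_assoc]
        exact ⟨Relation.EqvGen.trans _ _ _ h5 h7, h8⟩

theorem exists_RelW {w : List Bz} {L : List ℤ} (h : List.Forall₂ Adm (bands w) L) :
    ∃ w', RelW w w' ∧ bands w' = L := by
  induction w generalizing L with
  | nil =>
    rw [bands] at h
    cases h
    exact ⟨[], trivial, rfl⟩
  | cons p w ih =>
    cases p with
    | b i =>
      obtain ⟨w', h1, h2⟩ := ih h
      exact ⟨.b i :: w', And.intro rfl h1, h2⟩
    | d i =>
      obtain ⟨w', h1, h2⟩ := ih h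
      exact ⟨.d i :: w', And.intro rfl h1, h2⟩
    | c i l =>
      rw [bands] at h
      have h0 := h
      rw [← List.take_append_drop l.length L] at h
      have hlen := h0.length_eq
      rw [List.length_append] at hlen
      have h3 := (List.forall₂_take_append L l (bands w) (List.Forall₂.flip h0))
      have h4 := (List.forall₂_drop_append L l (bands w) (List.Forall₂.flip h0))
      obtain ⟨w', h1, h2⟩ := ih (List.Forall₂.flip h4)
      refine ⟨.c i (L.take l.length) :: w', And.intro rfl (And.intro (List.Forall₂.flip h3) h1), ?_⟩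
      rw [bands, h2, List.take_append_drop]

theorem Sim.bands_length {w w' : List Bz} (h : Sim w w') :
    (bands w).length = (bands w').length := by
  induction w generalizing w' with
  | nil =>
    cases w' with
    | nil => rfl
    | cons q w' => cases q <;> exact absurd h id
  | cons p w ih =>
    cases w' with
    | nil => cases p <;> exact absurd h id
    | cons q w' =>
      cases p <;> cases q <;> try exact absurd h id
      · obtain ⟨-, h⟩ := h
        simpa [bands] using ih h
      · obtain ⟨-, h⟩ := h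
        simpa [bands] using ih h
      · obtain ⟨-, hl, h⟩ := h
        simp [bands, hl, ih h]

/-! ### the possible sums -/

/-- the choices: `n` can be reached from `N` and is not `-1` -/
def Ad1 (N n : ℤ) : Prop := Adm N n ∧ n ≠ -1

theorem ad1_mk {N n : ℤ} (h1 : -N ≤ n) (h2 : n ≤ N) (h3 : (N - n) % 2 = 0) (h4 : n ≠ -1) :
    Ad1 N n := ⟨⟨abs_le.2 ⟨h1, h2⟩, h3⟩, h4⟩

/-- the sums `-n, -n + 4, -n + 6, ..., n` -/
theorem sums2 {N1 N2 : ℤ} (h1 : 2 ≤ N1) (h2 : 2 ≤ N2) {k : ℤ} (hk : 0 ≤ k) (hk1 : k ≠ 1)
    (hk2 : k ≤ N1 + N2) : ∃ a b, Ad1 N1 a ∧ Ad1 N2 b ∧ a + b = 2 * k - (N1 + N2) := by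
  by_cases c1 : k ≤ N2
  · by_cases c2 : 2 * k - N2 = -1
    · by_cases c3 : N1 = 3
      · exact ⟨4 - N1, 2 * (k - 2) - N2, ad1_mk (by omega) (by omega) (by omega) (by omega),
          ad1_mk (by omega) (by omega) (by omega) (by omega), by ring⟩
      · exact ⟨2 - N1, 2 * (k - 1) - N2, ad1_mk (by omega) (by omega) (by omega) (by omega),
          ad1_mk (by omega) (by omega) (by omega) (by omega), by ring⟩
    · exact ⟨-N1, 2 * k - N2, ad1_mk (by omega) (by omega) (by omega) (by omega),
        ad1_mk (by omega) (by omega) (by omega) c2, by ring⟩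
  · by_cases c2 : 2 * (k - N2) - N1 = -1
    · exact ⟨2 * (k - N2 + 1) - N1, N2 - 2, ad1_mk (by omega) (by omega) (by omega) (by omega),
        ad1_mk (by omega) (by omega) (by omega) (by omega), by ring⟩
    · exact ⟨2 * (k - N2) - N1, N2, ad1_mk (by omega) (by omega) (by omega) c2,
        ad1_mk (by omega) (by omega) (by omega) (by omega), by ring⟩

theorem sum_ge {L : List ℤ} (hL : ∀ n ∈ L, 2 ≤ n) : 2 * (L.length : ℤ) ≤ L.sum := by
  induction L with
  | nil => simp
  | cons n L ih =>
    have h1 := hL n List.mem_cons_self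
    have h2 := ih fun m hm => hL m (List.mem_cons_of_mem _ hm)
    rw [List.sum_cons, List.length_cons]
    push_cast
    omega

theorem sums {L : List ℤ} (hL : ∀ n ∈ L, 2 ≤ n) (hlen : 2 ≤ L.length) {k : ℤ} (hk : 0 ≤ k)
    (hk1 : k ≠ 1) (hk2 : k ≤ L.sum) :
    ∃ L', List.Forall₂ Ad1 L L' ∧ L'.sum = 2 * k - L.sum := by
  induction L generalizing k with
  | nil => simp at hlen
  | cons N L ih =>
    have hN := hL N List.mem_cons_self
    have hL' : ∀ n ∈ L, 2 ≤ n := fun m hm => hL m (List.mem_cons_of_mem _ hm)
    rw [List.sum_cons] at hk2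
    by_cases c0 : 2 ≤ L.length
    · have h4 := sum_ge hL'
      by_cases c1 : k ≤ L.sum
      · obtain ⟨L', h1, h2⟩ := ih hL' c0 hk hk1 c1
        exact ⟨-N :: L', List.Forall₂.cons (ad1_mk (by omega) (by omega) (by omega) (by omega)) h1,
          by rw [List.sum_cons, List.sum_cons, h2]; ring⟩
      · by_cases c2 : 2 * (k - L.sum) - N = -1
        · obtain ⟨L', h1, h2⟩ := ih hL' c0 (k := L.sum - 1) (by omega) (by omega) (by omega)
          exact ⟨(2 * (k - L.sum + 1) - N) :: L', List.Forall₂.cons
            (ad1_mk (by omega) (by omega) (by omega) (by omega)) h1,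
            by rw [List.sum_cons, List.sum_cons, h2]; ring⟩
        · obtain ⟨L', h1, h2⟩ := ih hL' c0 (k := L.sum) (by omega) (by omega) (by omega)
          exact ⟨(2 * (k - L.sum) - N) :: L', List.Forall₂.cons
            (ad1_mk (by omega) (by omega) (by omega) c2) h1,
            by rw [List.sum_cons, List.sum_cons, h2]; ring⟩
    · obtain ⟨M, rfl⟩ : ∃ M, L = [M] := by
        rw [List.length_cons] at hlen
        exact List.length_eq_one_iff.1 (by omega)
      have hM : 2 ≤ M := hL' M (by simp)
      obtain ⟨a, b, h1, h2, h3⟩ := sums2 hN hM hk hk1 (by simpa using hk2)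
      refine ⟨[a, b], List.Forall₂.cons h1 (List.Forall₂.cons h2 List.Forall₂.nil), ?_⟩
      simp only [List.sum_cons, List.sum_nil, add_zero]
      exact h3

/-! ### the resolutions -/

theorem hat_wr_ne {w w' : List Bz} (hw : Chained w) (hw' : Chained w')
    (hb : (bands w').length = (bands w).length) (hbc : bc w = bc w') (hnc : nch w = nch w')
    (h : ∀ n ∈ bands w, n ≠ -1) (h' : ∀ n ∈ bands w', n ≠ -1)
    (hne : (bands w).sum ≠ (bands w').sum) : hatq La (expand w) ≠ hatq La (expand w') := by
  intro e
  have a := ld_chained hw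
  have a' := ld_chained hw'
  rw [hb, ← hbc, ← hnc] at a'
  have T := a.top
  have T' := a'.top
  rw [← e] at T'
  have hzz : zz⁻¹ ^ ((bands w).length + bc w) ≠ 0 := pow_ne_zero _ (inv_ne_zero zz_ne)
  have hP : (((bands w).map fun n => n + 1).map pk).prod ≠ 0 := pkp_ne (by
    intro n hn
    obtain ⟨j, hj, rfl⟩ := List.mem_map.1 hn
    have := h j hj
    omega)
  have hP' : (((bands w').map fun n => n + 1).map pk).prod ≠ 0 := pkp_ne (by
    intro n hn
    obtain ⟨j, hj, rfl⟩ := List.mem_map.1 hn
    have := h' j hj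
    omega)
  have et := wrt_sum hw
  have et' := wrt_sum hw'
  rcases lt_or_gt_of_ne hne with hlt | hlt
  · exact (mul_ne_zero hzz hP) (T.1.symm.trans (T'.2 _ (by omega)))
  · exact (mul_ne_zero hzz hP') (T'.1.symm.trans (T.2 _ (by omega)))

theorem bands_two {w : List Bz} (ha : Evn w) : bands w = [] ∨ 2 ≤ (bands w).length := by
  induction w with
  | nil => exact Or.inl rfl
  | cons p w ih =>
    cases p with
    | b i => exact ih ha
    | d i => exact ih ha
    | c i l =>
      right
      have := ha.1.1
      rw [bands, List.length_append]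
      omega

theorem exists_res {w : List Bz} (hw : Chained w) (h2 : ∀ n ∈ bands w, 2 ≤ n) {k : ℤ}
    (hk : 0 ≤ k) (hk1 : k ≠ 1) (hk2 : k ≤ (bands w).sum) :
    ∃ w' E, Chained w' ∧ Sim w w' ∧ (∀ n ∈ bands w', n ≠ -1) ∧
      (bands w').sum = 2 * k - (bands w).sum ∧ Res (expand w) E ∧ OClosed E ∧
      OIsotopic E (expand w') := by
  have key : ∃ L', List.Forall₂ Ad1 (bands w) L' ∧ L'.sum = 2 * k - (bands w).sum := by
    rcases bands_two (evn_of hw.even) with h | h
    · rw [h] at hk2 ⊢
      rw [List.sum_nil] at hk2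
      exact ⟨[], List.Forall₂.nil, by simp; omega⟩
    · exact sums h2 h hk hk1 hk2
  obtain ⟨L', h3, h4⟩ := key
  have h5 : List.Forall₂ Adm (bands w) L' := h3.imp fun _ _ h => h.1
  have h6 : ∀ n ∈ L', n ≠ -1 := by
    have : ∀ L L' : List ℤ, List.Forall₂ Ad1 L L' → ∀ n ∈ L', n ≠ -1 := by
      intro L L' h
      induction h with
      | nil => simp
      | cons h _ ih =>
        intro n hn
        rcases List.mem_cons.1 hn with rfl | hn
        · exact h.2
        · exact ih n hn
    exact this _ _ h3
  obtain ⟨w', h7, h8⟩ := exists_RelW h5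
  obtain ⟨E, h9, h10⟩ := expand_res h7
  have hc : OClosed E := h9.closed (closed_expand hw)
  refine ⟨w', E, h7.sim.chained hw, h7.sim, by rw [h8]; exact h6, by rw [h8]; exact h4, h9, hc, ?_⟩
  exact (h10 [] hc).1

/-- the number of the crossings -/
def crs (D : OWord) : ℕ := D.countP fun p =>
  match p with
  | pos _ => true
  | neg _ => true
  | _ => false

theorem crs_band (n : ℤ) (i : ℕ) : crs (band n i) = n.natAbs := by
  rw [crs, band, List.countP_replicate]
  split_ifs <;> simp_all

theorem crs_chain (l : List ℤ) (i : ℕ) (b : Bool) :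
    crs (chain l i b) = (l.map Int.natAbs).sum := by
  induction l generalizing i b with
  | nil => rfl
  | cons n l ih =>
    cases l with
    | nil =>
      rw [chain, crs_band]
      simp
    | cons m l =>
      have h1 : crs (chain (n :: m :: l) i b) =
          crs (band n i) + crs (chain (m :: l) (i + 2) (!b)) := by
        simp [chain, crs, List.countP_append]
      rw [h1, crs_band, ih]
      simp

theorem crs_expand (w : List Bz) : crs (expand w) = ((bands w).map Int.natAbs).sum := by
  induction w with
  | nil => rfl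
  | cons p w ih =>
    cases p with
    | b i =>
      have : crs (expand (.b i :: w)) = crs (expand w) := by
        simp [expand, crs]
      rw [this, ih, bands]
    | d i =>
      have : crs (expand (.d i :: w)) = crs (expand w) := by
        simp [expand, crs]
      rw [this, ih, bands]
    | c i l =>
      have : crs (expand (.c i l :: w)) = crs (chain l i (i % 2 == 0)) + crs (expand w) := by
        simp [expand, crs, List.countP_append]
      rw [this, ih, bands, crs_chain, List.map_append, List.sum_append]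

theorem sum_natAbs {L : List ℤ} (h : ∀ n ∈ L, 2 ≤ n) :
    (((L.map Int.natAbs).sum : ℕ) : ℤ) = L.sum := by
  induction L with
  | nil => rfl
  | cons n L ih =>
    have h1 := h n List.mem_cons_self
    have h2 := ih fun m hm => h m (List.mem_cons_of_mem _ hm)
    rw [List.map_cons, List.sum_cons, List.sum_cons, Nat.cast_add, h2, Int.natCast_natAbs,
      abs_of_nonneg (by omega)]

/-- the shadow has at least as many resolutions as crossings -/
theorem main_shadow {w : List Bz} (hw : Chained w) (h2 : ∀ n ∈ bands w, 2 ≤ n) :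
    ∃ F : Fin (crs (expand w)) → OWord, (∀ k, Res (expand w) (F k) ∧ OClosed (F k)) ∧
      ∀ j k, j ≠ k → hatq La (F j) ≠ hatq La (F k) := by
  have hn : ((crs (expand w) : ℕ) : ℤ) = (bands w).sum := by
    rw [crs_expand, sum_natAbs h2]
  have hex : ∀ k : Fin (crs (expand w)), ∃ w' E, Chained w' ∧ Sim w w' ∧
      (∀ n ∈ bands w', n ≠ -1) ∧
      (bands w').sum = 2 * (if (k : ℕ) = 0 then 0 else ((k : ℕ) : ℤ) + 1) - (bands w).sum ∧
      Res (expand w) E ∧ OClosed E ∧ OIsotopic E (expand w') := by
    intro k
    have hk := k.2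
    refine exists_res hw h2 ?_ ?_ ?_ <;> split_ifs <;> omega
  choose W F h3 h4 h5 h6 h7 h8 h9 using hex
  refine ⟨F, fun k => ⟨h7 k, h8 k⟩, fun j k hjk => ?_⟩
  rw [hatq_isotopy (h9 j), hatq_isotopy (h9 k)]
  refine hat_wr_ne (h3 j) (h3 k) ((h4 k).bands_length.symm.trans (h4 j).bands_length)
    ((h4 j).bc.symm.trans (h4 k).bc) ((h4 j).nch.symm.trans (h4 k).nch) (h5 j) (h5 k) ?_
  rw [h6 j, h6 k]
  have hjk' : (j : ℕ) ≠ k := fun h => hjk (Fin.ext h)
  split_ifs <;> omega

theorem main_shadow' {w : List Bz} (hw : Chained w) (h2 : ∀ n ∈ bands w, 2 ≤ n) :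
    ∃ F : Fin (crs (expand w)) → OWord, (∀ k, Res (expand w) (F k) ∧ OClosed (F k)) ∧
      ∀ j k, j ≠ k → ∀ P : OWord → Rlm, IsHomfly P → P (F j) ≠ P (F k) := by
  obtain ⟨F, h1, h3⟩ := main_shadow hw h2
  refine ⟨F, h1, fun j k hjk P hP e => h3 j k hjk ?_⟩
  have hne : ∀ k, F k ≠ [] := by
    intro k h
    have h4 := (h1 k).1
    rw [h] at h4
    have h5 : expand w = [] := List.forall₂_nil_right_iff.1 h4
    have h6 : 0 < crs (expand w) := Nat.lt_of_le_of_lt (Nat.zero_le _) k.2
    rw [h5] at h6
    exact absurd h6 (by simp [crs])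
  rw [← hat_of hP (h1 j).2 (hne j), ← hat_of hP (h1 k).2 (hne k), e]

end

end Run7.h849.SC
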