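import Pool.Agent.Run7.h849.Pln
import Pool.Agent.Run7.h849.Lx
import Pool.Agent.Run7.h849.SC.Chn

/-!
# The state sum of a diagram of signed chains
-/

set_option autoImplicit false

namespace Run7.h849.SC

open Pool.Agent.Helper454.Wh (insD delD swpD noD OPiece OWord below forget OClosed OStep OIsotopic)
open Pool.Agent.Helper454.Wh.OPiece (birth death pos neg)
open Pool.Agent.Helper454.Wh.Homf
open Pool.Agent.Helper454.Wh.Homf.Par
open Run7.h849 (Pc cwd tw alt alt_zero alt_lt alt_anti ins_alt del_alt par par_succ rs rs_wd KK cc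
  cwd_b cwd_d cwd_append_of cwd_below tw_append good_cc pw pw_mem pw_notMem Rch z0 flip_cc flip_pm)
open Finset

noncomputable section

set_option linter.unusedSectionVars false
set_option linter.unusedVariables false

/-- the number of the chains -/
def nch : List Bz → ℕ
  | [] => 0
  | .b _ :: w => nch w
  | .d _ :: w => nch w
  | .c _ _ :: w => nch w + 1

/-- the state in which the chains with the numbers in `A` are reconnected; the first chain of the
word has the number `t` -/
def stA (A : Finset ℕ) : ℕ → List Bz → List Pc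
  | _, [] => []
  | t, .b i :: w => .b i :: stA A t w
  | t, .d i :: w => .d i :: stA A t w
  | t, .c i _ :: w => rs (decide (t ∈ A)) i ++ stA A (t + 1) w

/-- `f` gives the data of the chains -/
def Dt (f : ℕ → List ℤ) : ℕ → List Bz → Prop
  | _, [] => True
  | t, .b _ :: w => Dt f t w
  | t, .d _ :: w => Dt f t w
  | t, .c _ ns :: w => f t = ns ∧ Dt f (t + 1) w

/-- the chains have an even number of bands -/
def Evn : List Bz → Prop
  | [] => True
  | .b _ :: w => Evn w
  | .d _ :: w => Evn w
  | .c _ ns :: w => (2 ≤ ns.length ∧ ns.length % 2 = 0) ∧ Evn w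

theorem evn_of {w : List Bz} (h : ∀ i ns, Bz.c i ns ∈ w → 2 ≤ ns.length ∧ ns.length % 2 = 0) :
    Evn w := by
  induction w with
  | nil => trivial
  | cons p w ih =>
    have h' := ih fun i ns hm => h i ns (List.mem_cons_of_mem _ hm)
    cases p with
    | b i => exact h'
    | d i => exact h'
    | c i ns => exact ⟨h i ns List.mem_cons_self, h'⟩

theorem Dt_congr {f g : ℕ → List ℤ} {w : List Bz} {t : ℕ} (h : ∀ k, t ≤ k → f k = g k)
    (hf : Dt f t w) : Dt g t w := by
  induction w generalizing t with
  | nil => trivial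
  | cons p w ih =>
    cases p with
    | b i => exact ih h hf
    | d i => exact ih h hf
    | c i ns => exact ⟨(h t le_rfl).symm.trans hf.1, ih (fun k hk => h k (by omega)) hf.2⟩

theorem exists_Dt (w : List Bz) (t : ℕ) : ∃ f, Dt f t w := by
  induction w generalizing t with
  | nil => exact ⟨fun _ => [], trivial⟩
  | cons p w ih =>
    cases p with
    | b i => exact ih t
    | d i => exact ih t
    | c i ns =>
      obtain ⟨f, hf⟩ := ih (t + 1)
      refine ⟨Function.update f t ns, Function.update_self .., Dt_congr (fun k hk => ?_) hf⟩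
      rw [Function.update_of_ne (by omega)]

theorem nch_append (x y : List Bz) : nch (x ++ y) = nch x + nch y := by
  induction x with
  | nil => simp [nch]
  | cons p x ih =>
    cases p with
    | b i => exact ih
    | d i => exact ih
    | c i ns =>
      simp only [List.cons_append, nch, ih]
      ring

theorem stA_append (A : Finset ℕ) (x y : List Bz) (t : ℕ) :
    stA A t (x ++ y) = stA A t x ++ stA A (t + nch x) y := by
  induction x generalizing t with
  | nil => simp [stA, nch]
  | cons p x ih =>
    cases p with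
    | b i => simp only [List.cons_append, stA, nch, ih]
    | d i => simp only [List.cons_append, stA, nch, ih]
    | c i ns =>
      simp only [List.cons_append, stA, nch, ih, List.append_assoc]
      rw [show t + 1 + nch x = t + (nch x + 1) by ring]

theorem Dt_append {f : ℕ → List ℤ} {x y : List Bz} {t : ℕ} (h : Dt f t (x ++ y)) :
    Dt f t x ∧ Dt f (t + nch x) y := by
  induction x generalizing t with
  | nil => exact ⟨trivial, h⟩
  | cons p x ih =>
    cases p with
    | b i => exact ih h
    | d i => exact ih h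
    | c i ns =>
      obtain ⟨h1, h2⟩ := h
      have h3 := ih h2
      refine ⟨⟨h1, h3.1⟩, ?_⟩
      have := h3.2
      rwa [show t + 1 + nch x = t + (nch x + 1) by ring] at this

theorem stA_congr {A A' : Finset ℕ} {w : List Bz} {t : ℕ}
    (h : ∀ k, t ≤ k → k < t + nch w → (k ∈ A ↔ k ∈ A')) : stA A t w = stA A' t w := by
  induction w generalizing t with
  | nil => rfl
  | cons p w ih =>
    cases p with
    | b i => rw [stA, stA, ih h]
    | d i => rw [stA, stA, ih h]
    | c i ns =>
      have h1 := h t le_rfl (by rw [nch]; omega)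
      have h2 : decide (t ∈ A) = decide (t ∈ A') := by
        by_cases h3 : t ∈ A
        · rw [decide_eq_true h3, decide_eq_true (h1.1 h3)]
        · rw [decide_eq_false h3, decide_eq_false (fun h4 => h3 (h1.2 h4))]
      rw [stA, stA, h2, ih fun k hk hk' => h k (by omega) (by rw [nch]; omega)]

/-- the split at a chain -/
theorem split_at {w : List Bz} {t k : ℕ} (h1 : t ≤ k) (h2 : k < t + nch w) :
    ∃ x i ns y, w = x ++ Bz.c i ns :: y ∧ t + nch x = k := by
  induction w generalizing t with
  | nil =>
    rw [nch] at h2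
    omega
  | cons p w ih =>
    cases p with
    | b i =>
      obtain ⟨x, j, ns, y, rfl, h4⟩ := ih h1 h2
      exact ⟨.b i :: x, j, ns, y, rfl, h4⟩
    | d i =>
      obtain ⟨x, j, ns, y, rfl, h4⟩ := ih h1 h2
      exact ⟨.d i :: x, j, ns, y, rfl, h4⟩
    | c i ns =>
      rcases Nat.eq_or_lt_of_le h1 with rfl | h3
      · exact ⟨[], i, ns, w, rfl, rfl⟩
      · rw [nch] at h2
        obtain ⟨x, j, ms, y, rfl, h4⟩ := ih (t := t + 1) (by omega) (by omega)
        refine ⟨.c i ns :: x, j, ms, y, rfl, ?_⟩
        rw [nch]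
        omega

theorem stA_wd {w : List Bz} {n : ℕ} (h : Fits n w) (A : Finset ℕ) (t : ℕ) :
    cwd (stA A t w) n = some 0 := by
  induction w generalizing n t with
  | nil =>
    obtain rfl : n = 0 := h
    rfl
  | cons p w ih =>
    cases p with
    | b i => exact cwd_b.2 ⟨h.1, ih h.2 t⟩
    | d i => exact cwd_d.2 ⟨h.1, ih h.2 t⟩
    | c i ns => exact cwd_append_of (rs_wd h.1) (ih h.2 (t + 1))

theorem stA_pre {x y : List Bz} {n : ℕ} (h : Fits n (x ++ y)) :
    ∃ m, Fits m y ∧ ∀ (A : Finset ℕ) (t : ℕ), cwd (stA A t x) n = some m := by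
  induction x generalizing n with
  | nil => exact ⟨n, h, fun A t => rfl⟩
  | cons p x ih =>
    cases p with
    | b i =>
      obtain ⟨m, h1, h2⟩ := ih h.2
      exact ⟨m, h1, fun A t => cwd_b.2 ⟨h.1, h2 A t⟩⟩
    | d i =>
      obtain ⟨m, h1, h2⟩ := ih h.2
      exact ⟨m, h1, fun A t => cwd_d.2 ⟨h.1, h2 A t⟩⟩
    | c i ns =>
      obtain ⟨m, h1, h2⟩ := ih h.2
      exact ⟨m, h1, fun A t => cwd_append_of (rs_wd h.1) (h2 A (t + 1))⟩

/-! ### the state sum -/

section
variable {R : Type} [CommRing R] [Par R]

/-- the coefficient of the reconnection -/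
def kf (R : Type) [CommRing R] [Par R] (f : ℕ → List ℤ) (k : ℕ) : R := (cf3 R (f k)).2

/-- the coefficient of the identity -/
def lf (R : Type) [CommRing R] [Par R] (f : ℕ → List ℤ) (k : ℕ) : R := (cf3 R (f k)).1

theorem expand_sum {w : List Bz} {x : List Pc} {m t : ℕ} {f : ℕ → List ℤ}
    (hx : cwd x 0 = some (2 * m)) (hw : Fits (2 * m) w) (ha : Evn w) (hf : Dt f t w) :
    opW R m (expand w) (opW R 0 (tw x) (v0 R)) =
      (∑ A ∈ (Ico t (t + nch w)).powerset, pw (kf R f) (lf R f) (Ico t (t + nch w)) A *
        (dl : R) ^ cc (x ++ stA A t w)) • v0 R := by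
  induction w generalizing x m t with
  | nil =>
    have h0 : 2 * m = 0 := hw
    obtain rfl : m = 0 := by omega
    have := (good_cc (R := R) hx).2.1
    simp only [nch, stA, add_zero, Ico_self, powerset_empty, sum_singleton, pw, prod_empty,
      one_mul, List.append_nil, expand]
    exact this
  | cons p w ih =>
    have hlv : ∀ {x : List Pc} {m : ℕ}, cwd x 0 = some (2 * m) → lv 0 (tw x) = m := by
      intro x m hx
      obtain ⟨m', h3, -, h5⟩ := cwd_below (m := 0) hx
      omega
    cases p with
    | b i =>
      have e := ih (x := x ++ [.b i]) (m := m + 1) (cwd_append_of hx (cwd_b.2 ⟨hw.1, rfl⟩)) hw.2 ha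
        hf
      rw [tw_append, opW_append, hlv hx] at e
      simp only [List.append_assoc, List.singleton_append] at e
      exact e
    | d i =>
      obtain ⟨m, rfl⟩ : ∃ m', m = m' + 1 := ⟨m - 1, by have := hw.1; omega⟩
      have e := ih (x := x ++ [.d i]) (m := m) (cwd_append_of hx (cwd_d.2 ⟨hw.1, rfl⟩)) hw.2 ha
        hf
      rw [tw_append, opW_append, hlv hx] at e
      simp only [List.append_assoc, List.singleton_append] at e
      exact e
    | c i ns =>
      obtain ⟨m, rfl⟩ : ∃ m', m = m' + 1 := ⟨m - 1, by have := hw.1; omega⟩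
      have hi : i + 2 ≤ 2 * (m + 1) := hw.1
      have hne : ns ≠ [] := by
        rintro rfl
        exact absurd ha.1.1 (by simp)
      have hev := ha.1.2
      have e1 := ih (x := x) (m := m + 1) (t := t + 1) hx hw.2 ha.2 hf.2
      have e2 := ih (x := x ++ KK i) (m := m + 1) (t := t + 1)
        (cwd_append_of hx (rs_wd (b := true) hi)) hw.2 ha.2 hf.2
      rw [tw_append, opW_append, hlv hx] at e2
      obtain ⟨m', h4, h5, h6⟩ := cwd_below (m := 0) hx
      obtain rfl : m + 1 = m' := by omega
      rw [alt_zero] at h5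
      have hv := (opW_mem (R := R) (m := 0) h5 v0_mem).2
      rw [h6] at hv
      have key := chain_op (R := R) (b := par i) hne hi (alt_lt (by omega))
        (by rw [alt_lt (by omega), par_succ, dr2, if_pos hev]) hv
      rw [if_pos hev, Nat.add_sub_cancel] at key
      have e0 : expand (Bz.c i ns :: w) = chain ns i (par i) ++ expand w := rfl
      rw [e0, opW_append, chain_lv, key, map_add, map_smul, map_smul, e1]
      have e3 : opW R (m + 1) (expand w) (B i (par i) (D m i (opW R 0 (tw x) (v0 R)))) =
          (∑ A ∈ (Ico (t + 1) (t + 1 + nch w)).powerset,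
            pw (kf R f) (lf R f) (Ico (t + 1) (t + 1 + nch w)) A *
            (dl : R) ^ cc (x ++ KK i ++ stA A (t + 1) w)) • v0 R := e2
      have hI : Ico t (t + nch (Bz.c i ns :: w)) = insert t (Ico (t + 1) (t + 1 + nch w)) := by
        ext k
        rw [nch, mem_insert, mem_Ico, mem_Ico]
        omega
      have ht : t ∉ Ico (t + 1) (t + 1 + nch w) := by
        rw [mem_Ico]
        omega
      rw [e3, smul_smul, smul_smul, ← add_smul, hI, sum_powerset_insert ht, mul_sum, mul_sum]
      congr 2
      · refine sum_congr rfl fun A hA => ?_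
        have htA : t ∉ A := fun h => ht (mem_powerset.1 hA h)
        rw [pw_notMem ht htA, stA, decide_eq_false htA]
        have : lf R f t = (cf3 R ns).1 := by rw [lf, hf.1]
        rw [this, mul_assoc]
        rfl
      · refine sum_congr rfl fun A hA => ?_
        have e4 : stA (insert t A) (t + 1) w = stA A (t + 1) w := by
          refine stA_congr fun k hk _ => ?_
          rw [mem_insert]
          constructor
          · rintro (h | h)
            · omega
            · exact h
          · exact Or.inr
        rw [pw_mem ht, stA, decide_eq_true (mem_insert_self t A), e4]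
        have : kf R f t = (cf3 R ns).2 := by rw [kf, hf.1]
        rw [this, mul_assoc, rs, if_pos rfl, List.append_assoc]

theorem ev_sum {w : List Bz} {f : ℕ → List ℤ} (hw : Fits 0 w) (ha : Evn w) (hf : Dt f 0 w) :
    ev R (expand w) = ∑ A ∈ (range (nch w)).powerset, pw (kf R f) (lf R f) (range (nch w)) A *
        (dl : R) ^ cc (stA A 0 w) := by
  have e := expand_sum (R := R) (m := 0) (x := []) (t := 0) rfl hw ha hf
  have e2 : ev R (expand w) = ((∑ A ∈ (Ico 0 (0 + nch w)).powerset,
      pw (kf R f) (lf R f) (Ico 0 (0 + nch w)) A *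
        (dl : R) ^ cc ([] ++ stA A 0 w)) • v0 R) [] := by
    rw [← e]
    rfl
  rw [e2, Finsupp.smul_apply, v0, Finsupp.single_eq_same, smul_eq_mul, mul_one, zero_add,
    ← range_eq_Ico]
  rfl

end

/-! ### the number of the curves of a state -/

/-- the split of a state at a chain -/
theorem split_state {w : List Bz} (hw : Fits 0 w) {k : ℕ} (hk : k < nch w) :
    ∃ x i ns y, w = x ++ Bz.c i ns :: y ∧ nch x = k ∧
    (∀ A : Finset ℕ, k ∉ A → stA A 0 w = stA A 0 x ++ stA A (k + 1) y ∧
      stA (insert k A) 0 w = stA A 0 x ++ KK i ++ stA A (k + 1) y ∧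
      cwd (stA A 0 x ++ stA A (k + 1) y) 0 = some 0 ∧
      cwd (stA A 0 x ++ KK i ++ stA A (k + 1) y) 0 = some 0) := by
  obtain ⟨x, i, ns, y, rfl, h1⟩ := split_at (w := w) (t := 0) (Nat.zero_le k) (by omega)
  rw [zero_add] at h1
  subst h1
  refine ⟨x, i, ns, y, rfl, rfl, fun A hA => ?_⟩
  obtain ⟨m, h5, h6⟩ := stA_pre hw
  have e1 : stA A 0 (x ++ Bz.c i ns :: y) = stA A 0 x ++ stA A (nch x + 1) y := by
    rw [stA_append, zero_add, stA, decide_eq_false hA]
    rfl
  have e2 : stA (insert (nch x) A) 0 (x ++ Bz.c i ns :: y) =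
      stA A 0 x ++ KK i ++ stA A (nch x + 1) y := by
    rw [stA_append, zero_add, stA, decide_eq_true (mem_insert_self _ _), rs, if_pos rfl,
      List.append_assoc]
    congr 1
    · refine stA_congr fun k _ hk => ?_
      rw [mem_insert]
      constructor
      · rintro (h | h)
        · omega
        · exact h
      · exact Or.inr
    · congr 1
      refine stA_congr fun k hk _ => ?_
      rw [mem_insert]
      constructor
      · rintro (h | h)
        · omega
        · exact h
      · exact Or.inr
  refine ⟨e1, e2, ?_, ?_⟩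
  · exact cwd_append_of (h6 A 0) (stA_wd h5.2 A _)
  · exact cwd_append_of (cwd_append_of (h6 A 0) (rs_wd (b := true) h5.1)) (stA_wd h5.2 A _)

theorem cc_pm {w : List Bz} (hw : Fits 0 w) {A : Finset ℕ} {k : ℕ} (hk : k < nch w)
    (hA : k ∉ A) : cc (stA (insert k A) 0 w) ≤ cc (stA A 0 w) + 1 := by
  obtain ⟨x, i, ns, y, -, -, h⟩ := split_state hw hk
  obtain ⟨h1, h2, h3, h4⟩ := h A hA
  have := flip_pm h3 h4
  rw [h1, h2]
  omega

theorem cc_le {w : List Bz} (hw : Fits 0 w) {A : Finset ℕ} (hA : A ⊆ range (nch w))
    {B : Finset ℕ} (hB : B ⊆ A) : cc (stA A 0 w) ≤ cc (stA B 0 w) + (A \ B).card := by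
  induction hn : (A \ B).card generalizing B with
  | zero =>
    have : A = B := by
      rw [card_eq_zero, sdiff_eq_empty_iff_subset] at hn
      exact subset_antisymm hn hB
    rw [this, add_zero]
  | succ n ih =>
    obtain ⟨k, hk⟩ : (A \ B).Nonempty := card_pos.1 (by omega)
    obtain ⟨h1, h2⟩ := mem_sdiff.1 hk
    have h3 : (A \ insert k B).card = n := by
      rw [sdiff_insert, card_erase_of_mem hk, hn]
      rfl
    have h4 := ih (B := insert k B) (insert_subset h1 hB) h3
    have h5 := cc_pm hw (mem_range.1 (hA h1)) h2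
    omega

theorem Rch_of {w : List Bz} {t : ℕ} {s s' : ℕ → Bool} (h : Colour w s s') :
    Rch (stA ∅ t w) s s' := by
  induction w generalizing t s with
  | nil => exact h
  | cons p w ih =>
    cases p with
    | b i =>
      obtain ⟨x, hx⟩ := h
      exact ⟨x, ih hx⟩
    | d i => exact ⟨h.1, ih h.2⟩
    | c i ns =>
      rw [stA, decide_eq_false (notMem_empty t)]
      exact ih h

/-- reconnecting a chain with two bands first -/
theorem cc_two {w : List Bz} (hw : Chained w) {k : ℕ} (hk : k < nch w) {f : ℕ → List ℤ}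
    (hf : Dt f 0 w) (h2 : (f k).length = 2) :
    cc (stA {k} 0 w) + 1 = cc (stA ∅ 0 w) := by
  obtain ⟨x, i, ns, y, hx, hn, h⟩ := split_state hw.fits hk
  obtain ⟨h3, h4, h5, h6⟩ := h ∅ (notMem_empty k)
  have h7 : f k = ns := by
    have := (Dt_append (x := x) (y := Bz.c i ns :: y) (by rw [← hx]; exact hf)).2
    rw [zero_add, hn] at this
    exact this.1
  rw [h7] at h2
  obtain ⟨u, s, h8, h9, h10⟩ := hw.loopless x i ns y hx h2
  rw [h3, show ({k} : Finset ℕ) = insert k ∅ from rfl, h4]
  have := (flip_cc h5 h6).1 ⟨u, s, Rch_of h8, Rch_of h9, h10⟩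
  omega

/-- the number of the maxima bounds the number of the curves -/
theorem N_le (w : List Bz) (t : ℕ) (A : Finset ℕ) (s : ℕ → Bool) :
    Run7.h849.N (stA A t w) s ≤ 2 ^ (maxima w + nch w) := by
  induction w generalizing t s with
  | nil => simp [stA, Run7.h849.N, maxima, nch]
  | cons p w ih =>
    cases p with
    | b i =>
      rw [stA, Run7.h849.N, maxima, nch]
      have h1 := ih t (Run7.h849.ins i false s)
      have h2 := ih t (Run7.h849.ins i true s)
      have : 2 ^ (maxima w + 1 + nch w) = 2 ^ (maxima w + nch w) + 2 ^ (maxima w + nch w) := by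
        rw [← two_mul, ← pow_succ']
        congr 1
        ring
      omega
    | d i =>
      rw [stA, Run7.h849.N, maxima, nch]
      split_ifs
      · exact ih t _
      · exact Nat.zero_le _
    | c i ns =>
      rw [stA, maxima, nch]
      have e : 2 ^ (maxima w + (nch w + 1)) = 2 ^ (maxima w + nch w) + 2 ^ (maxima w + nch w) := by
        rw [← two_mul, ← pow_succ']
        congr 1
      by_cases ht : t ∈ A
      · rw [decide_eq_true ht]
        show Run7.h849.N (Pc.d i :: Pc.b i :: stA A (t + 1) w) s ≤ _
        rw [Run7.h849.N]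
        split_ifs
        · rw [Run7.h849.N]
          have h1 := ih (t + 1) (Run7.h849.ins i false (Run7.h849.del i s))
          have h2 := ih (t + 1) (Run7.h849.ins i true (Run7.h849.del i s))
          omega
        · exact Nat.zero_le _
      · rw [decide_eq_false ht]
        show Run7.h849.N (stA A (t + 1) w) s ≤ _
        have := ih (t + 1) s
        omega

theorem cc_max (w : List Bz) (t : ℕ) (A : Finset ℕ) : cc (stA A t w) ≤ maxima w + nch w := by
  rw [cc]
  have h := N_le w t A z0
  calc Nat.log 2 (Run7.h849.N (stA A t w) z0) ≤ Nat.log 2 (2 ^ (maxima w + nch w)) :=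
        Nat.log_mono_right h
    _ = maxima w + nch w := Nat.log_pow (by norm_num) _

end

end Run7.h849.SC
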