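import Pool.Agent.Run7.h849.SC.Wr

/-!
# The main theorems on signed chains
-/

set_option autoImplicit false

namespace Run7.h849.SC

open Pool.Agent.Helper454.Wh (OPiece OWord OClosed OIsotopic)
open Run7.h849 (seif clo BraidWord)

noncomputable section

/-- Two heavy diagrams of signed chains with different numbers of bands or of Seifert circles. -/
theorem main_pair {w w' : List Bz} (hw : Chained w) (hw' : Chained w') (h : Heavy w)
    (h' : Heavy w')
    (hne : ¬ ((bands w).Perm (bands w') ∧ seif (expand w) = seif (expand w'))) :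
    Separated (25 * (seif (expand w) + seif (expand w')) + 1) (expand w) (expand w') := by
  by_contra hs
  have h1 := seif_expand hw
  have h2 := seif_expand hw'
  have h3 := nch_le (evn_of hw.even)
  have h4 := nch_le (evn_of hw'.even)
  obtain ⟨h5, -, h6⟩ := sep_pair hw hw' h h' (by omega) (by omega) hs
  exact hne ⟨h5, by omega⟩

/-- Diagrams of signed chains and unlinks. -/
theorem main_unlink {w : List Bz} (hw : Chained w)
    (h : (∀ n ∈ bands w, n ≠ -1) ∨ (∀ n ∈ bands w, n ≠ 1)) (h2 : ∃ n ∈ bands w, 2 ≤ |n|) (r : ℕ) :
    Separated (53 * seif (expand w) + 11 * r + 1) (expand w) (unlink r) := by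
  by_contra hs
  have h1 := seif_expand hw
  have h3 := nch_le (evn_of hw.even)
  obtain ⟨h5, h6⟩ := sep_unlink2 hw (by omega) hs
  obtain ⟨k, hk, hk2⟩ := h2
  rcases h with h7 | h7
  · rcases h5 h7 k hk with rfl | rfl
    · norm_num at hk2
    · norm_num at hk2
  · rcases h6 h7 k hk with rfl | rfl
    · norm_num at hk2
    · norm_num at hk2

end

end Run7.h849.SC
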