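import Pool.Agent.Run7.h849.SC.Brd

/-!
# The writhe of a diagram of signed chains, and unlinks
-/

set_option autoImplicit false

namespace Run7.h849.SC

open Pool.Agent.Helper454.Wh (insD delD swpD noD OPiece OWord below forget OClosed OStep OIsotopic)
open Pool.Agent.Helper454.Wh.OPiece (birth death pos neg)
open Pool.Agent.Helper454.Wh.Homf hiding X
open Pool.Agent.Helper454.Wh.Homf.Par
open Run7.h849 (cc cwd alt alt_zero alt_lt alt_anti ins_alt del_alt par par_succ z0 cx seif swp_same
  rep_below)

noncomputable section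

theorem rep_wr {s : Bool} {i : ℕ} {d : ℕ → Bool} (hd : d i = d (i + 1)) (k : ℕ) :
    wr (List.replicate k (cx s i)) d = if s then (k : ℤ) else -k := by
  induction k with
  | zero =>
    cases s
    · rfl
    · rfl
  | succ k ih =>
    rw [List.replicate_succ, wr]
    have h1 : nd (cx s i) d = d := by
      cases s
      · exact swp_same hd
      · exact swp_same hd
    rw [h1, ih]
    have h2 : eps (d i) (d (i + 1)) = 1 := if_pos hd
    cases s
    · show -eps (d i) (d (i + 1)) + -(k : ℤ) = -((k + 1 : ℕ) : ℤ)
      rw [h2]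
      push_cast
      ring
    · show eps (d i) (d (i + 1)) + (k : ℤ) = ((k + 1 : ℕ) : ℤ)
      rw [h2]
      push_cast
      ring

theorem band_wr {i : ℕ} {d : ℕ → Bool} (hd : d i = d (i + 1)) (n : ℤ) :
    wr (band n i) d = n := by
  obtain ⟨k, rfl | rfl⟩ := n.eq_nat_or_neg
  · rw [band_nat, rep_wr hd]
    rfl
  · rw [band_neg, rep_wr hd]
    rfl

theorem chain_wr {l : List ℤ} (hl : l ≠ []) {i n : ℕ} {b : Bool} (hi : i + 2 ≤ n)
    {d : ℕ → Bool} (hd : d i = b) (hd' : d (i + 1) = dr2 l b) : wr (chain l i b) d = l.sum := by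
  induction l generalizing i n b d with
  | nil => exact absurd rfl hl
  | cons k l ih =>
    cases l with
    | nil =>
      rw [chain, band_wr (by rw [hd, hd']; rfl)]
      simp
    | cons k' l =>
      have hp : insD (i + 1) b d i = insD (i + 1) b d (i + 1) := by
        rw [ins_l, ins_lt (by omega), hd]
      have h1 : insD (i + 1) b d (i + 2) = !b := by
        rw [show i + 2 = (i + 1) + 1 by omega, ins_r]
      have h2 : insD (i + 1) b d (i + 2 + 1) = dr2 (k' :: l) (!b) := by
        rw [show i + 2 + 1 = (i + 1) + 2 by omega, ins_ge (le_refl _), hd']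
        simp only [dr2, List.length_cons]
        rcases Nat.mod_two_eq_zero_or_one l.length with h | h
        · rw [if_pos (by omega), if_neg (by omega)]
        · rw [if_neg (by omega), if_pos (by omega), Bool.not_not]
      rw [chain, wr]
      have e1 : nd (birth (i + 1) b) d = insD (i + 1) b d := rfl
      have e2 : sg (birth (i + 1) b) d = 0 := rfl
      rw [e1, e2, zero_add, wr_append (n := n + 2) (band_below (by omega) hp k), band_wr hp,
        wr_append (n := n + 2) (chain_below (by simp) (by omega) h1 h2),
        ih (by simp) (n := n + 2) (by omega) h1 h2]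
      have e3 : wr [death (i + 1)] (insD (i + 1) b d) = 0 := rfl
      rw [e3, add_zero]
      simp only [List.sum_cons]

theorem expand_wr {w : List Bz} {m : ℕ} (hw : Fits (2 * m) w) (ha : Evn w) :
    wr (expand w) (alt m) = (bands w).sum := by
  induction w generalizing m with
  | nil => rfl
  | cons p w ih =>
    cases p with
    | b i =>
      obtain ⟨h1, h2⟩ := hw
      rw [show 2 * m + 2 = 2 * (m + 1) by ring] at h2
      have := ih h2 ha
      rw [← ins_alt h1] at this
      rw [expand, wr]
      have e1 : sg (birth i (i % 2 == 0)) (alt m) = 0 := rfl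
      rw [e1, zero_add]
      exact this
    | d i =>
      obtain ⟨h1, h2⟩ := hw
      obtain ⟨m1, rfl⟩ : ∃ m1, m = m1 + 1 := ⟨m - 1, by omega⟩
      rw [show 2 * (m1 + 1) - 2 = 2 * m1 by omega] at h2
      have := ih h2 ha
      rw [← del_alt (m := m1) (i := i) (by omega)] at this
      rw [expand, wr]
      have e1 : sg (death i) (alt (m1 + 1)) = 0 := rfl
      rw [e1, zero_add]
      exact this
    | c i ns =>
      obtain ⟨h1, h2⟩ := hw
      have hne : ns ≠ [] := by
        rintro rfl
        exact absurd ha.1.1 (by simp)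
      have e : alt m (i + 1) = dr2 ns (par i) := by
        rw [alt_lt (by omega), par_succ, dr2, if_pos ha.1.2]
      rw [expand, bands, List.sum_append]
      have e1 := chain_below hne h1 (alt_lt (m := m) (k := i) (by omega)) e
      have e2 : wr (chain ns i (i % 2 == 0) ++ expand w) (alt m) =
          wr (chain ns i (i % 2 == 0)) (alt m) + wr (expand w) (alt m) :=
        wr_append (n := 2 * m) e1
      rw [e2, ih h2 ha.2]
      congr 1
      exact chain_wr hne h1 (alt_lt (by omega)) e

theorem wrt_sum {w : List Bz} (hw : Chained w) : wrt w = (bands w).sum := by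
  have h := expand_wr (m := 0) hw.fits (evn_of hw.even)
  rw [alt_zero] at h
  exact h

/-! ### unlinks -/

theorem unl_count {l : List ℤ} (h : ∀ n ∈ l, n ≠ 0) {c1 c2 n : ℕ}
    (hn : 10 * (c2 + l.length + c1) + (c1 + c2) + 1 ≤ n) {x y : ℚ} (hx : x ≠ 0)
    (e : Hd (n - (c1 + c2)) (ι (PowerSeries.C x) * (zz ^ c2 * (l.map pk).prod) -
      ι (PowerSeries.C y) * (zz ^ c1 * 1))) :
    (∀ n ∈ l, n.natAbs ≤ 2) ∧ c2 + (l.map Int.natAbs).count 2 = c1 := by
  refine ⟨unl_aux h hn hx e, ?_⟩
  rw [zz_pow, zz_pow, mul_one, ← List.prod_append, ← List.map_append] at e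
  have hc := pk_close (l := List.replicate c2 2 ++ l) (l' := List.replicate c1 2)
    (by
      intro k hk
      rcases List.mem_append.1 hk with h1 | h1
      · rw [List.eq_of_mem_replicate h1]
        norm_num
      · exact h k h1) (by
      intro k h1
      rw [List.eq_of_mem_replicate h1]
      norm_num) hx (L := n - (c1 + c2)) (by
      simp only [List.length_append, List.length_replicate]
      omega) e (m := 2) le_rfl
  have h2 : (2 : ℤ).natAbs = 2 := rfl
  rw [List.map_append, List.count_append, List.map_replicate, List.map_replicate, h2,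
    List.count_replicate_self, List.count_replicate_self] at hc
  exact hc

/-- the sum and the number of the entries, if all of them are `-3`, `-2`, `0` or `1` -/
theorem sum_count {l : List ℤ} (h : ∀ n ∈ l, n = -3 ∨ n = -2 ∨ n = 0 ∨ n = 1)
    (e : l.sum = (((l.map fun n => n + 1).map Int.natAbs).count 2 : ℕ)) :
    ∀ n ∈ l, n = 0 ∨ n = 1 := by
  have key : ∀ l : List ℤ, (∀ n ∈ l, n = -3 ∨ n = -2 ∨ n = 0 ∨ n = 1) →
      (l.sum ≤ (((l.map fun n => n + 1).map Int.natAbs).count 2 : ℕ) ∧
      (l.sum = (((l.map fun n => n + 1).map Int.natAbs).count 2 : ℕ) →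
        ∀ n ∈ l, n = 0 ∨ n = 1)) := by
    intro l
    induction l with
    | nil =>
      intro _
      exact ⟨by simp, fun _ n hn => by simp at hn⟩
    | cons k l ih =>
      intro h
      obtain ⟨h1, h2⟩ := ih fun n hn => h n (List.mem_cons_of_mem _ hn)
      rw [List.sum_cons, List.map_cons, List.map_cons, List.count_cons]
      rcases h k List.mem_cons_self with rfl | rfl | rfl | rfl
      · have e1 : (if ((-3 + 1 : ℤ).natAbs == 2) = true then 1 else 0) = 1 := by decide
        rw [e1]
        push_cast
        exact ⟨by omega, fun h3 => by omega⟩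
      · have e1 : (if ((-2 + 1 : ℤ).natAbs == 2) = true then 1 else 0) = 0 := by decide
        rw [e1]
        push_cast
        exact ⟨by omega, fun h3 => by omega⟩
      · have e1 : (if ((0 + 1 : ℤ).natAbs == 2) = true then 1 else 0) = 0 := by decide
        rw [e1]
        push_cast
        refine ⟨by omega, fun h3 n hn => ?_⟩
        rcases List.mem_cons.1 hn with rfl | hn
        · exact Or.inl rfl
        · exact h2 (by omega) n hn
      · have e1 : (if ((1 + 1 : ℤ).natAbs == 2) = true then 1 else 0) = 1 := by decide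
        rw [e1]
        push_cast
        refine ⟨by omega, fun h3 n hn => ?_⟩
        rcases List.mem_cons.1 hn with rfl | hn
        · exact Or.inr rfl
        · exact h2 (by omega) n hn
  exact (key l h).2 e

theorem sum_count' {l : List ℤ} (h : ∀ n ∈ l, n = 3 ∨ n = 2 ∨ n = 0 ∨ n = -1)
    (e : -l.sum = (((l.map fun n => n - 1).map Int.natAbs).count 2 : ℕ)) :
    ∀ n ∈ l, n = 0 ∨ n = -1 := by
  have h1 := sum_count (l := l.map fun n => -n) (by
    intro n hn
    obtain ⟨k, hk, rfl⟩ := List.mem_map.1 hn
    have := h k hk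
    omega) (by
    have e1 : (l.map fun n => -n).sum = -l.sum := by
      clear h e
      induction l with
      | nil => rfl
      | cons k l ih => rw [List.map_cons, List.sum_cons, List.sum_cons, ih]; ring
    have e2 : (((l.map fun n => -n).map fun n => n + 1).map Int.natAbs) =
        ((l.map fun n => n - 1).map Int.natAbs) := by
      rw [List.map_map, List.map_map, List.map_map]
      refine List.map_congr_left fun n _ => ?_
      show (-n + 1).natAbs = (n - 1).natAbs
      omega
    rw [e1, e2]
    exact e)
  intro n hn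
  have := h1 (-n) (List.mem_map_of_mem hn)
  omega

/-- Diagrams of signed chains which are not separated from an unlink. -/
theorem sep_unlink2 {w : List Bz} (hw : Chained w) {r n : ℕ}
    (hn : 10 * (r + nch w + (bands w).length + ((bands w).length + bc w)) +
      ((bands w).length + bc w + (r + nch w)) + 1 ≤ n)
    (hs : ¬ Separated n (expand w) (unlink r)) :
    ((∀ k ∈ bands w, k ≠ -1) → ∀ k ∈ bands w, k = 0 ∨ k = 1) ∧
    ((∀ k ∈ bands w, k ≠ 1) → ∀ k ∈ bands w, k = 0 ∨ k = -1) := by
  have h1 := ld_chained hw
  have h2 := (ld_unlink r).more (nch w)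
  rw [zero_add] at h2
  have hwr := wrt_sum hw
  obtain ⟨ht, hb⟩ := h1.cmp h2 hs (by omega)
  constructor
  · intro h
    have hl : ∀ j ∈ (bands w).map (fun n => n + 1), j ≠ 0 := by
      intro j hj
      obtain ⟨i, hi, rfl⟩ := List.mem_map.1 hj
      have := h i hi
      omega
    obtain ⟨h0, h5⟩ := ht (fun h6 => pk_not hl (h6.mono (by rw [List.length_map]; omega)))
      (fun h6 => Un_not Un.one (h6.mono (by omega)))
    obtain ⟨h6, h6'⟩ := unl_count hl (x := 1) (y := 1) (n := n) (c1 := (bands w).length + bc w)
      (c2 := r + nch w) (by rw [List.length_map]; omega) one_ne_zero (by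
        rw [ι_one, one_mul, one_mul]
        exact h5)
    refine sum_count (fun k hk => ?_) (by omega)
    have h7 := h6 (k + 1) (List.mem_map_of_mem hk)
    have h8 := h k hk
    omega
  · intro h
    have hl : ∀ j ∈ (bands w).map (fun n => n - 1), j ≠ 0 := by
      intro j hj
      obtain ⟨i, hi, rfl⟩ := List.mem_map.1 hj
      have := h i hi
      omega
    obtain ⟨h0, h5⟩ := hb (fun h6 => pk_not hl (h6.mono (by rw [List.length_map]; omega)))
      (fun h6 => Un_not Un.one (h6.mono (by omega)))
    obtain ⟨h6, h6'⟩ := unl_count hl (x := (-1) ^ (r + nch w))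
      (y := (-1) ^ ((bands w).length + bc w)) (n := n) (c1 := (bands w).length + bc w)
      (c2 := r + nch w) (by rw [List.length_map]; omega) (pow_ne_zero _ (by norm_num)) (by
        rw [ι_neg_pow, ι_neg_pow, ← mul_assoc, ← mul_assoc, ← mul_pow, ← mul_pow, neg_one_mul]
        exact h5)
    refine sum_count' (fun k hk => ?_) (by omega)
    have h7 := h6 (k - 1) (List.mem_map_of_mem hk)
    have h8 := h k hk
    omega

end

end Run7.h849.SC
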